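import Pool.Agent.Lib.FGP.UPool

/-!
# Theorem L with labels (definitions)

As in `FGP`, but the hubs are labels: the vertices of the type `U` are nodes (histories with a
vertex) and labels (histories with a vertex and more data), `pr` is the vertex.  The graph `Gs i`
joins the nodes to their own labels of the level `i`; the copy of the tree is looked for in the
graph `G`.  The hypothesis on `D` only uses the sets `{v : aw v ≤ t}`.
-/

set_option autoImplicit false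

namespace Pool.Agent.Lib.FGK

open Finset Classical
open Pool.Agent.Lib.FracGS (nb wnb om TAdj)
open Pool.Agent.Lib.GSR3 (Stab Tree)
open Pool.Agent.Lib.FGL (aw Dw mt Conf root WN wv rn HN hv lev hr kw prb Top Clean)
open Pool.Agent.Lib.FGP (cwp OKp PBas)

/-- The vertices of a configuration. -/
def cmap {V U : Type} {M : ℕ} (pr : U → V) : (d : ℕ) → Conf M U d → Conf M V d
  | 0, x => pr x
  | d + 1, x => (pr x.1, fun e => cmap pr d (x.2 e))

/-- The link kernel of the functions `φ x`. -/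
noncomputable def kk {U Λ : Type} [Fintype Λ] (φ : U → Λ → ℝ) (x x' : U) : ℝ :=
  ∑ g, φ x g * φ x' g

/-- `v` and `z` lie in one class and are equal or adjacent. -/
def Cf {V U ι : Type} (G : SimpleGraph V) (pr : U → V) (p : U → ι) (v z : U) : Prop :=
  p v = p z ∧ (pr v = pr z ∨ G.Adj (pr v) (pr z))

/-- A system of `r` unlinked levels with labels. -/
structure KSys {V U ι Λ : Type} [Fintype U] [Fintype Λ] (G : SimpleGraph V) (pr : U → V) (p : ℕ → U → ι)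
    (Gs : ℕ → SimpleGraph U) (W : Finset U) (μ : U → ℝ) (r : ℕ) (J : Finset V) (q : ℕ → U → ℝ)
    (b : ℕ → U → ℝ) (φ : ℕ → U → Λ → ℝ) (T H xi e0 e1 : ℝ) : Prop where
  ref : ∀ i j, i < j → j < r → ∀ x y, p i x = p i y → p j x = p j y
  inc : ∀ i < r, ∀ x y, (Gs i).Adj x y → G.Adj (pr x) (pr y) ∧ p i x = p i y
  μ0 : ∀ x, 0 ≤ μ x
  μW : ∀ x, x ∉ W → μ x = 0
  μ1 : ∑ x ∈ W, μ x = 1
  q0 : ∀ i < r, ∀ y, 0 ≤ q i y
  q1 : ∀ i < r, ∑ y, q i y ≤ 1
  qJ : ∀ i < r, ∀ y, q i y ≠ 0 → pr y ∈ J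
  stab : Stab G J
  apos : ∀ i < r, ∀ x ∈ W, 0 < aw (Gs i) (q i) x
  /-- the scales of the labels -/
  bpos : ∀ i < r, ∀ g, q i g ≠ 0 → 0 < b i g
  sc1 : ∀ i < r, ∀ x ∈ W, ∀ g, (Gs i).Adj x g → q i g ≠ 0 → b i g ≤ aw (Gs i) (q i) x
  sc2 : ∀ i < r, ∀ x ∈ W, ∀ g, (Gs i).Adj x g → q i g ≠ 0 → aw (Gs i) (q i) x ≤ T * b i g
  /-- nodes and inner hubs are thin -/
  thin : ∀ i < r, ∀ z, (z ∈ W ∨ ∃ j < i, q j z ≠ 0) → ∀ t, 0 < t →
    ∑ v ∈ W.filter (fun v => Cf G pr (p i) v z ∧ aw (Gs i) (q i) v ≤ t), μ v ≤ xi * t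
  /-- nodes and inner hubs are no hubs -/
  own : ∀ i < r, ∀ x ∈ W, ∀ z, (z ∈ W ∨ ∃ j < i, q j z ≠ 0) → p i x = p i z →
    ∑ g, (if (Gs i).Adj x g ∧ pr g = pr z then q i g else 0) ≤ xi * aw (Gs i) (q i) x
  /-- the share of the own labels of `x` which `u` sees -/
  sh : ∀ i < r, ∀ x ∈ W, ∀ u ∈ W, p i x = p i u → aw (Gs i) (q i) u ≤ aw (Gs i) (q i) x →
    ∑ g, (if (Gs i).Adj x g ∧ G.Adj (pr g) (pr u) then q i g else 0) ≤
      (e0 + kk (φ i) x u) * aw (Gs i) (q i) x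
  φ0 : ∀ i < r, ∀ x g, 0 ≤ φ i x g
  φH : ∀ i < r, ∀ x ∈ W, ∑ g, φ i x g ^ 2 ≤ H
  lam : ∀ i j, i < j → j < r →
    ∑ x ∈ W, ∑ x' ∈ W, mt (Gs i) W μ (q i) x x' * kk (φ j) x x' ≤ e1

variable {V U : Type} {M : ℕ} (pr : U → V)

theorem root_cmap : ∀ (d : ℕ) (x : Conf M U d), root d (cmap pr d x) = pr (root d x)
  | 0, _ => rfl
  | d + 1, x => root_cmap d (x.2 0)

theorem wv_cmap : ∀ (d : ℕ) (x : Conf M U d) (u : WN M d),
    wv d (cmap pr d x) u = pr (wv d x u)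
  | 0, _, _ => rfl
  | d + 1, x, u => wv_cmap d (x.2 u.1) u.2

theorem hv_cmap : ∀ (d : ℕ) (x : Conf M U d) (h : HN M d),
    hv d (cmap pr d x) h = pr (hv d x h)
  | 0, _, h => h.elim
  | _ + 1, _, none => rfl
  | d + 1, x, some h => hv_cmap d (x.2 h.1) h.2

end Pool.Agent.Lib.FGK
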