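import Pool.Agent.Lib.FGK.UPool
import Pool.Agent.Lib.GSLE.Mate

/-!
# Pools of unlinked stages of localised equilibria on histories (statement)

`Hi` is the set of the histories, `P c h` the part of the history before the laws of the stage `c`,
`Q h x` the law of the pairs (history, node).  For every stage `c` and class `p` there are the
scale `a c p x` of the vertices, the law `π c p l` of the labels (the hub of the label `l` is
`vy l`, its scale `b l`), the part `ρ c p ≤ π c p` used for the tree, and the own relation.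
-/

set_option autoImplicit false

namespace Pool.Agent.Lib.FGK

open Finset Classical
open Pool.Agent.Lib.GSR3 (Stab Tree)
open Pool.Agent.Lib.FGF (ms Frac)
open Pool.Agent.Lib.GSLE (AM)

section defs

variable {Hi V ι : Type} [Fintype Hi] [Fintype V]

/-- The mass of the history `h`. -/
noncomputable def mH (Q : Hi → V → ℝ) (h : Hi) : ℝ := ∑ v, Q h v

/-- The node law of the class `p`. -/
noncomputable def nQ (P : Hi → ι) (Q : Hi → V → ℝ) (p : ι) (v : V) : ℝ :=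
  ∑ h, if P h = p then Q h v else 0

/-- The mass of the class `p`. -/
noncomputable def MQ (P : Hi → ι) (Q : Hi → V → ℝ) (p : ι) : ℝ :=
  ∑ h, if P h = p then mH Q h else 0

end defs

/-- The stages `c ∈ A` of localised equilibria on histories. -/
structure US {V Hi ι L : Type} [Fintype V] [Fintype Hi] [Fintype L] (G : SimpleGraph V)
    (vy : L → V) (b : L → ℝ) (P : ℕ → Hi → ι) (Q : Hi → V → ℝ) (W : Finset (Hi × V))
    (a : ℕ → ι → V → ℝ) (π ρ : ℕ → ι → L → ℝ) (own : ℕ → ι → V → L → Prop)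
    (Zt : ℕ → ι → V → Prop) (A : Finset ℕ) (T0 ca ξ : ℝ) : Prop where
  ref : ∀ c ∈ A, ∀ s ∈ A, c < s → ∀ h h', P s h = P s h' → P c h = P c h'
  Q0 : ∀ h v, 0 ≤ Q h v
  Q1 : ∑ h, mH Q h ≤ 1
  Wp : ∀ z ∈ W, 0 < Q z.1 z.2
  b0 : ∀ l, 0 < b l
  a0 : ∀ c ∈ A, ∀ p x, 0 < a c p x
  ρ0 : ∀ c ∈ A, ∀ p l, 0 ≤ ρ c p l
  ρπ : ∀ c ∈ A, ∀ p l, ρ c p l ≤ π c p l
  π1 : ∀ c ∈ A, ∀ p, ∑ l, π c p l ≤ 1
  /-- the own labels are adjacent and have the right scale -/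
  own1 : ∀ c ∈ A, ∀ p x l, own c p x l → G.Adj x (vy l) ∧ b l ≤ T0 * a c p x ∧
    a c p x ≤ T0 * b l
  /-- few labels of high scale -/
  hi : ∀ c ∈ A, ∀ p x, ∀ Γ : ℝ, 1 ≤ Γ → ∀ S : Finset L,
    (∀ l ∈ S, G.Adj x (vy l) ∧ Γ * a c p x ≤ b l) → ∑ l ∈ S, π c p l / b l ≤ 1 / Real.sqrt Γ
  /-- the labels of not too small scale -/
  nr : ∀ c ∈ A, ∀ p x, ∀ Υ : ℝ, 1 ≤ Υ → ∀ S : Finset L,
    (∀ l ∈ S, G.Adj x (vy l) ∧ a c p x ≤ Υ * b l) → ∑ l ∈ S, π c p l / b l ≤ Υ * Real.sqrt Υ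
  /-- the used own labels of the nodes carry a part of the scale -/
  sha : ∀ c ∈ A, ∀ z ∈ W, ca * a c (P c z.1) z.2 ≤
    ∑ l, if own c (P c z.1) z.2 l then ρ c (P c z.1) l else 0
  /-- nodes and later hubs are thin -/
  zW : ∀ c ∈ A, ∀ z ∈ W, Zt c (P c z.1) z.2
  zO : ∀ c ∈ A, ∀ s ∈ A, c < s → ∀ h l, mH Q h ≠ 0 → ρ s (P s h) l ≠ 0 → Zt c (P c h) (vy l)
  thn : ∀ c ∈ A, ∀ p z, Zt c p z → ∀ t, 0 < t →
    ∑ v ∈ Finset.univ.filter (fun v => (v = z ∨ G.Adj v z) ∧ a c p v ≤ t), nQ (P c) Q p v ≤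
      ξ * t * MQ (P c) Q p
  ne : ∀ c ∈ A, ∀ p z, Zt c p z → ∀ l, ρ c p l ≠ 0 → vy l ≠ z

/-- The items `(S, s)` with `|S| = m` are NO: `k` is the own kernel, `lo` says that the hub is low
against the node, `e` that the nodes have comparable scales for the stages of `S` (up to the
factor `w`). -/
structure NoI {V Hi ι L : Type} [Fintype V] [Fintype Hi] [Fintype L] (P : ℕ → Hi → ι)
    (Q : Hi → V → ℝ) (W : Finset (Hi × V)) (a : ℕ → ι → V → ℝ) (π : ℕ → ι → L → ℝ)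
    (own : ℕ → ι → V → L → Prop) (A S : Finset ℕ) (s : ℕ) (k : ι → V → L → ℝ)
    (lo : ι → L → V → ℝ) (e : ι → V → V → ℝ) (T0 w ε3 ε1 : ℝ) : Prop where
  k0 : ∀ p x l, 0 ≤ k p x l
  kown : ∀ p x l, own s p x l → 1 ≤ T0 * k p x l
  lo0 : ∀ p l x, 0 ≤ lo p l x
  lo1 : ∀ p l x, lo p l x ≤ 1
  e0 : ∀ p x z, 0 ≤ e p x z
  e1 : ∀ p x z, e p x z ≤ 1
  /-- `e = 1` for nodes with comparable scales -/
  ew : ∀ h h' x z, P s h = P s h' → (∀ c ∈ S, a c (P c h) x ≤ w * a c (P c h) z ∧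
    a c (P c h) z ≤ w * a c (P c h) x) → e (P s h) x z = 1
  low : ∀ z ∈ W, ∑ l, π s (P s z.1) l * k (P s z.1) z.2 l * (1 - lo (P s z.1) l z.2) ≤
    ε3 * a s (P s z.1) z.2
  no : ∀ z ∈ W, AM (fun x => nQ (P s) Q (P s z.1) x / MQ (P s) Q (P s z.1)) (a s (P s z.1))
    (π s (P s z.1)) (k (P s z.1)) (lo (P s z.1)) (e (P s z.1)) z.2 ≤ ε1 * a s (P s z.1) z.2

/-- Pools of unlinked stages of localised equilibria on histories. -/
def StULE : Prop :=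
  ∀ (M h m : ℕ) (F T0 ca : ℝ), 1 ≤ F → 1 ≤ T0 → 0 < ca → ca ≤ 1 →
    ∃ (w : ℝ) (R : ℕ) (ε3 : ℝ), 1 ≤ w ∧ 0 < ε3 ∧ ∀ κ : ℝ, 0 < κ → ∃ ε1 ξ : ℝ, 0 < ε1 ∧ 0 < ξ ∧
      ∀ (V Hi ι L : Type) [Fintype V] [Fintype Hi] [Fintype L] (G : SimpleGraph V) (vy : L → V)
        (b : L → ℝ) (P : ℕ → Hi → ι) (Q : Hi → V → ℝ) (W : Finset (Hi × V))
        (a : ℕ → ι → V → ℝ) (π ρ : ℕ → ι → L → ℝ) (own : ℕ → ι → V → L → Prop)
        (Zt : ℕ → ι → V → Prop) (A : Finset ℕ) (k : Finset ℕ → ℕ → ι → V → L → ℝ)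
        (lo : Finset ℕ → ℕ → ι → L → V → ℝ) (e : Finset ℕ → ℕ → ι → V → V → ℝ),
        Frac G F → R ≤ A.card → US G vy b P Q W a π ρ own Zt A T0 ca ξ →
        κ ≤ ∑ z ∈ W, Q z.1 z.2 →
        (∀ s ∈ A, ∀ S, S ⊆ A → (∀ c ∈ S, c < s) → S.card = m →
          NoI P Q W a π own A S s (k S s) (lo S s) (e S s) T0 w ε3 ε1) →
          ∃ φ : List (Fin M) → V, Tree G h M φ

end Pool.Agent.Lib.FGK
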