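import Pool.Agent.Lib.FGK.Defs

/-!
# Theorem L with labels: subsystems, classes, links, conflicts
-/

set_option autoImplicit false

namespace Pool.Agent.Lib.FGK

open Finset Classical
open Pool.Agent.Lib.FracGS (nb wnb om TAdj)
open Pool.Agent.Lib.GSR3 (Stab Tree)
open Pool.Agent.Lib.FGL (aw Dw mt Conf root WN wv rn HN hv lev hr kw prb Top Clean)
open Pool.Agent.Lib.FGP (cwp OKp PBas stPKer stPMarg)

section sys

variable {V U ι Λ : Type} [Fintype U] [Fintype Λ] {G : SimpleGraph V} {pr : U → V} {p : ℕ → U → ι}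
  {Gs : ℕ → SimpleGraph U} {W : Finset U} {μ : U → ℝ} {r : ℕ} {J : Finset V} {q : ℕ → U → ℝ}
  {b : ℕ → U → ℝ} {φ : ℕ → U → Λ → ℝ} {T H xi e0 e1 : ℝ}

theorem KSys.bas (h : KSys G pr p Gs W μ r J q b φ T H xi e0 e1) : PBas Gs W μ r q :=
  ⟨h.μ0, h.μW, h.μ1, h.q0, h.apos⟩

theorem KSys.sub (h : KSys G pr p Gs W μ r J q b φ T H xi e0 e1) {d : ℕ} {c : ℕ → ℕ}
    (hc : ∀ i < d, c i < r) (hinc : ∀ i j, i < j → j < d → c i < c j) :
    KSys G pr (fun i => p (c i)) (fun i => Gs (c i)) W μ d J (fun i => q (c i))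
      (fun i => b (c i)) (fun i => φ (c i)) T H xi e0 e1 where
  ref := fun i j hij hj => h.ref _ _ (hinc i j hij hj) (hc j hj)
  inc := fun i hi => h.inc _ (hc i hi)
  μ0 := h.μ0
  μW := h.μW
  μ1 := h.μ1
  q0 := fun i hi => h.q0 _ (hc i hi)
  q1 := fun i hi => h.q1 _ (hc i hi)
  qJ := fun i hi => h.qJ _ (hc i hi)
  stab := h.stab
  apos := fun i hi => h.apos _ (hc i hi)
  bpos := fun i hi => h.bpos _ (hc i hi)
  sc1 := fun i hi => h.sc1 _ (hc i hi)
  sc2 := fun i hi => h.sc2 _ (hc i hi)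
  thin := by
    intro i hi z hz
    refine h.thin _ (hc i hi) z ?_
    rcases hz with hz | ⟨j, hj, hz⟩
    · exact Or.inl hz
    · exact Or.inr ⟨c j, hinc j i hj hi, hz⟩
  own := by
    intro i hi x hx z hz
    refine h.own _ (hc i hi) x hx z ?_
    rcases hz with hz | ⟨j, hj, hz⟩
    · exact Or.inl hz
    · exact Or.inr ⟨c j, hinc j i hj hi, hz⟩
  sh := fun i hi => h.sh _ (hc i hi)
  φ0 := fun i hi => h.φ0 _ (hc i hi)
  φH := fun i hi => h.φH _ (hc i hi)
  lam := fun i j hij hj => h.lam _ _ (hinc i j hij hj) (hc j hj)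

end sys

/-! ### Classes -/

/-- All the vertices of a configuration of depth `d` lie in one class of the level `d`. -/
theorem kcls {M : ℕ} {U ι : Type} [Fintype U] {p : ℕ → U → ι} {Gs : ℕ → SimpleGraph U}
    {W : Finset U} {μ : U → ℝ} {q : ℕ → U → ℝ} {j : ℕ} :
    ∀ d : ℕ, d ≤ j → (∀ i < d, ∀ x y, (Gs i).Adj x y → p i x = p i y) →
      (∀ i i', i < i' → i' ≤ j → ∀ x y, p i x = p i y → p i' x = p i' y) →
      ∀ x : Conf M U d, cwp Gs W μ q M d x ≠ 0 →
        (∀ u, p j (wv d x u) = p j (root d x)) ∧ (∀ h, p j (hv d x h) = p j (root d x))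
  | 0, _, _, _, x, _ => ⟨fun _ => rfl, fun h => h.elim⟩
  | d + 1, hd, hG, href, x, hx => by
    obtain ⟨-, h1⟩ := Pool.Agent.Lib.FGP.cwp_succ_ne hx
    have ih' := fun e => kcls d (Nat.le_of_succ_le hd) (fun i hi => hG i (Nat.lt_succ_of_lt hi))
      href (x.2 e) (h1 e).1
    have h2 : ∀ e, p j x.1 = p j (root d (x.2 e)) := fun e =>
      href d j hd le_rfl _ _ (hG d (Nat.lt_succ_self d) _ _ (h1 e).2)
    have h3 : ∀ e, p j (root d (x.2 e)) = p j (root (d + 1) x) := fun e => (h2 e).symm.trans (h2 0)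
    refine ⟨fun u => ((ih' u.1).1 u.2).trans (h3 u.1), fun h => ?_⟩
    cases h with
    | none => exact h2 0
    | some h => exact ((ih' h.1).2 h.2).trans (h3 h.1)

/-! ### Links -/

section links

variable {V U ι Λ : Type} [Fintype U] [Fintype Λ] {G : SimpleGraph V} {pr : U → V} {p : ℕ → U → ι}
  {Gs : ℕ → SimpleGraph U} {W : Finset U} {μ : U → ℝ} {r : ℕ} {J : Finset V} {q : ℕ → U → ℝ}
  {b : ℕ → U → ℝ} {φ : ℕ → U → Λ → ℝ} {T H xi e0 e1 : ℝ}

omit [Fintype U] in
theorem kk_nonneg {ψ : U → Λ → ℝ} (h : ∀ x g, 0 ≤ ψ x g) (x x' : U) : 0 ≤ kk ψ x x' :=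
  Finset.sum_nonneg fun g _ => mul_nonneg (h x g) (h x' g)

/-- The mean of the kernel of the root and another vertex. -/
theorem kop (M : ℕ) (hS : KSys G pr p Gs W μ r J q b φ T H xi e0 e1) {d : ℕ} (hd : d < r)
    (u : WN M d) (hu : u ≠ rn M d) :
    ∑ x, cwp Gs W μ q M d x * kk (φ d) (root d x) (wv d x u) ≤ Real.sqrt (e1 * H) := by
  have h1 := stPKer
  have h2 := stPMarg h1
  have hB := hS.bas
  obtain ⟨i, hi, hkey⟩ := Pool.Agent.Lib.FGP.POp.key h1 h2 M hB d hd.le u hu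
  set ψ := φ d with hψ
  have hψ0 : ∀ x g, 0 ≤ ψ x g := hS.φ0 d hd
  have hZ : ∑ x, cwp Gs W μ q M d x * kk ψ (root d x) (wv d x u) =
      ∑ y, ∑ x, cwp Gs W μ q M d x * (ψ (root d x) y * ψ (wv d x u) y) := by
    rw [sum_comm]
    refine sum_congr rfl fun x _ => ?_
    unfold kk
    rw [mul_sum]
  rw [hZ]
  refine (le_abs_self _).trans (Real.abs_le_sqrt ?_)
  have hi' : i < r := hi.trans hd
  set A : Λ → ℝ := fun y =>
    ∑ x ∈ W, ∑ x' ∈ W, mt (Gs i) W μ (q i) x x' * ψ x y * ψ x' y with hA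
  set B : Λ → ℝ := fun y => ∑ v ∈ W, μ v * ψ v y ^ 2 with hBdef
  have hmt : ∀ x x', 0 ≤ mt (Gs i) W μ (q i) x x' := fun x x' =>
    Pool.Agent.Lib.FGP.POp.mt_nonneg hB hi' x x'
  have hA0 : ∀ y, 0 ≤ A y := fun y => sum_nonneg fun x _ => sum_nonneg fun x' _ =>
    mul_nonneg (mul_nonneg (hmt x x') (hψ0 x y)) (hψ0 x' y)
  have hB0 : ∀ y, 0 ≤ B y := fun y => sum_nonneg fun v _ =>
    mul_nonneg (hB.μ0 v) (sq_nonneg _)
  have hCS := sum_sq_le_sum_mul_sum_of_sq_le_mul univ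
    (r := fun y => ∑ x, cwp Gs W μ q M d x * (ψ (root d x) y * ψ (wv d x u) y))
    (f := A) (g := B) (fun y _ => hA0 y) (fun y _ => hB0 y)
    (fun y _ => hkey (fun x => ψ x y) (fun x => ψ x y))
  refine hCS.trans ?_
  have hSA : ∑ y, A y ≤ e1 := by
    have h3 : ∑ y, A y = ∑ x ∈ W, ∑ x' ∈ W, mt (Gs i) W μ (q i) x x' * kk ψ x x' := by
      simp only [hA]
      rw [sum_comm]
      refine sum_congr rfl fun x _ => ?_
      rw [sum_comm]
      refine sum_congr rfl fun x' _ => ?_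
      unfold kk
      rw [mul_sum]
      exact sum_congr rfl fun y _ => by ring
    rw [h3]
    exact hS.lam i d hi hd
  have hSB : ∑ y, B y ≤ H := by
    have h3 : ∑ y, B y = ∑ v ∈ W, μ v * ∑ y, ψ v y ^ 2 := by
      simp only [hBdef, mul_sum]
      rw [sum_comm]
    rw [h3]
    calc ∑ v ∈ W, μ v * ∑ y, ψ v y ^ 2 ≤ ∑ v ∈ W, μ v * H :=
          sum_le_sum fun v hv => mul_le_mul_of_nonneg_left (hS.φH d hd v hv) (hS.μ0 v)
      _ = H := by rw [← sum_mul, hS.μ1, one_mul]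
  have hSA0 : 0 ≤ ∑ y, A y := sum_nonneg fun y _ => hA0 y
  have hSB0 : 0 ≤ ∑ y, B y := sum_nonneg fun y _ => hB0 y
  exact mul_le_mul hSA hSB hSB0 (hSA0.trans hSA)

end links

/-! ### Conflicts between two copies -/

section two

variable {V U ι Λ : Type} [Fintype U] [Fintype Λ] {G : SimpleGraph V} {pr : U → V} {p : ℕ → U → ι}
  {Gs : ℕ → SimpleGraph U} {W : Finset U} {μ : U → ℝ} {r : ℕ} {J : Finset V} {q : ℕ → U → ℝ}
  {b : ℕ → U → ℝ} {φ : ℕ → U → Λ → ℝ} {T H xi e0 e1 : ℝ}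

open Pool.Agent.Lib.FGL.LTwoAux (aw_eq Dw_eq aw_nonneg ind ind_pos ind_neg ind_nonneg ind_and
  prb_eq)

/-- The law of a vertex of the copy near a given vertex. -/
theorem near_le (M : ℕ) (hS : KSys G pr p Gs W μ r J q b φ T H xi e0 e1) (hxi : 0 ≤ xi)
    (hT : 0 < T) {d : ℕ} (hd : d < r) {eta : ℝ} (heta : 0 < eta) (u : WN M d) {g : U}
    (hg : q d g ≠ 0) (hgD : eta ≤ Dw (Gs d) W μ (q d) g) {z : U}
    (hz : z ∈ W ∨ ∃ j < d, q j z ≠ 0) :
    ∑ f, kw (Gs d) W μ (q d) (root d) (cwp Gs W μ q M d) g f *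
      ind (Top (Gs d) (q d) d f ∧ Cf G pr (p d) (wv d f u) z) ≤ xi * T / eta := by
  have hB := hS.bas
  have hcw : ∀ x, 0 ≤ cwp Gs W μ q M d x := ((stPKer M U Gs W μ r q hB).1 d hd.le).1
  obtain ⟨m1, -, -, -, -, m6, m7⟩ := stPMarg stPKer M U Gs W μ r q hB d hd.le
  have hb := hS.bpos d hd g hg
  have hbe : 0 < b d g * eta := mul_pos hb heta
  have hTb : 0 < T * b d g := mul_pos hT hb
  set E : U → Prop := fun v => Cf G pr (p d) v z ∧ aw (Gs d) (q d) v ≤ T * b d g with hE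
  have key : ∀ f : Conf M U d, kw (Gs d) W μ (q d) (root d) (cwp Gs W μ q M d) g f *
      ind (Top (Gs d) (q d) d f ∧ Cf G pr (p d) (wv d f u) z) ≤
        cwp Gs W μ q M d f * (ind (E (wv d f u)) / (b d g * eta)) := by
    intro f
    have hR : 0 ≤ cwp Gs W μ q M d f * (ind (E (wv d f u)) / (b d g * eta)) :=
      mul_nonneg (hcw f) (div_nonneg (ind_nonneg _) hbe.le)
    by_cases h0 : cwp Gs W μ q M d f = 0
    · have : kw (Gs d) W μ (q d) (root d) (cwp Gs W μ q M d) g f = 0 := by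
        unfold kw
        rw [h0, zero_mul, zero_div]
      rw [this, zero_mul]
      exact hR
    by_cases ha : (Gs d).Adj g (root d f)
    · by_cases hC : Top (Gs d) (q d) d f ∧ Cf G pr (p d) (wv d f u) z
      · obtain ⟨hW, -, -⟩ := m7 f h0
        have hrW : root d f ∈ W := by
          rw [m6 f]
          exact hW _
        have h1 := hS.sc1 d hd _ hrW g ha.symm hg
        have h2 := hS.sc2 d hd _ hrW g ha.symm hg
        have hEu : E (wv d f u) := ⟨hC.2, (hC.1 u).trans h2⟩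
        rw [ind_pos hC, ind_pos hEu, mul_one]
        unfold kw
        rw [if_pos ha, mul_one, mul_one_div]
        refine div_le_div_of_nonneg_left (hcw f) hbe ?_
        exact mul_le_mul h1 hgD heta.le (hb.le.trans h1)
      · rw [ind_neg hC, mul_zero]
        exact hR
    · have : kw (Gs d) W μ (q d) (root d) (cwp Gs W μ q M d) g f = 0 := by
        unfold kw
        rw [if_neg ha, mul_zero, zero_div]
      rw [this, zero_mul]
      exact hR
  refine (Finset.sum_le_sum fun f _ => key f).trans ?_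
  have h3 := m1 u (fun v => ind (E v) / (b d g * eta))
  rw [h3]
  have h4 : ∑ v ∈ W, μ v * (ind (E v) / (b d g * eta)) =
      (∑ v ∈ W.filter (fun v => E v), μ v) / (b d g * eta) := by
    rw [Finset.sum_filter, Finset.sum_div]
    refine Finset.sum_congr rfl fun v _ => ?_
    by_cases hv : E v
    · rw [ind_pos hv, if_pos hv]
      ring
    · rw [ind_neg hv, if_neg hv]
      ring
  rw [h4, div_le_div_iff₀ hbe heta]
  have h5 := hS.thin d hd z hz (T * b d g) hTb
  calc (∑ v ∈ W.filter (fun v => E v), μ v) * eta ≤ xi * (T * b d g) * eta :=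
        mul_le_mul_of_nonneg_right h5 heta.le
    _ = xi * T * (b d g * eta) := by ring

theorem ktwo (M : ℕ) (hS : KSys G pr p Gs W μ r J q b φ T H xi e0 e1) (hxi : 0 ≤ xi)
    (hT : 0 < T) {d : ℕ} (hd : d < r) {eta : ℝ} (heta : 0 < eta) (e e' : Fin (M + 1))
    (hne : e ≠ e') :
    (∀ u u' : WN M d, prb (cwp Gs W μ q M (d + 1)) (fun x =>
      eta ≤ Dw (Gs d) W μ (q d) x.1 ∧
      Top (Gs d) (q d) d (x.2 e) ∧ Cf G pr (p d) (wv d (x.2 e) u) (wv d (x.2 e') u')) ≤
        xi * T / eta) ∧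
    (∀ (u : WN M d) (h' : HN M d), prb (cwp Gs W μ q M (d + 1)) (fun x =>
      eta ≤ Dw (Gs d) W μ (q d) x.1 ∧ Top (Gs d) (q d) d (x.2 e) ∧
        Cf G pr (p d) (wv d (x.2 e) u) (hv d (x.2 e') h')) ≤ xi * T / eta) := by
  have h1 := stPKer
  have h2 := stPMarg h1
  have hB := hS.bas
  obtain ⟨m1, -, mh, ml, -, -, ms⟩ := h2 M U Gs W μ r q hB d hd.le
  obtain ⟨k0, D0, kD, kF, -, kM, k2, -, -⟩ := (h1 M U Gs W μ r q hB).2 d hd
  have hmain : ∀ (u : WN M d) (bb : Conf M U d → U),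
      (∀ f, cwp Gs W μ q M d f ≠ 0 → (bb f ∈ W ∨ ∃ j < d, q j (bb f) ≠ 0)) →
      prb (cwp Gs W μ q M (d + 1)) (fun x => eta ≤ Dw (Gs d) W μ (q d) x.1 ∧
        Top (Gs d) (q d) d (x.2 e) ∧ Cf G pr (p d) (wv d (x.2 e) u) (bb (x.2 e'))) ≤
          xi * T / eta := by
    intro u bb hbb
    rw [prb_eq]
    have h3 := k2 e e' hne (fun g f f' => ind (eta ≤ Dw (Gs d) W μ (q d) g ∧
      Top (Gs d) (q d) d f ∧ Cf G pr (p d) (wv d f u) (bb f')))
    refine (le_of_eq h3).trans ?_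
    -- compare with the total mass
    have h4 : ∑ g, q d g * Dw (Gs d) W μ (q d) g *
        ∑ f', kw (Gs d) W μ (q d) (root d) (cwp Gs W μ q M d) g f' * (xi * T / eta) =
        xi * T / eta := by
      have h5 := kF e' (fun _ _ => xi * T / eta)
      rw [← h5, ← Finset.sum_mul, ((h1 M U Gs W μ r q hB).1 (d + 1) hd).2.1, one_mul]
    rw [← h4]
    refine Finset.sum_le_sum fun g _ => ?_
    by_cases hq : q d g = 0
    · rw [hq, zero_mul, zero_mul, zero_mul]
    refine mul_le_mul_of_nonneg_left ?_ (mul_nonneg (hS.q0 d hd g) (D0 g))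
    refine Finset.sum_le_sum fun f' _ => ?_
    by_cases hf : cwp Gs W μ q M d f' = 0
    · have : kw (Gs d) W μ (q d) (root d) (cwp Gs W μ q M d) g f' = 0 := by
        unfold kw
        rw [hf, zero_mul, zero_div]
      rw [this, zero_mul, zero_mul]
    refine mul_le_mul_of_nonneg_left ?_ (k0 g f')
    by_cases hg : eta ≤ Dw (Gs d) W μ (q d) g
    · refine le_trans (le_of_eq ?_) (near_le M hS hxi hT hd heta u hq hg (hbb f' hf))
      refine Finset.sum_congr rfl fun f _ => ?_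
      rw [ind_and hg]
    · have : ∑ f, kw (Gs d) W μ (q d) (root d) (cwp Gs W μ q M d) g f *
          ind (eta ≤ Dw (Gs d) W μ (q d) g ∧
            Top (Gs d) (q d) d f ∧ Cf G pr (p d) (wv d f u) (bb f')) = 0 := by
        refine Finset.sum_eq_zero fun f _ => ?_
        rw [ind_neg fun h => hg h.1, mul_zero]
      rw [this]
      positivity
  refine ⟨fun u u' => ?_, fun u h' => ?_⟩
  · exact hmain u (fun f' => wv d f' u') fun f' hf' => Or.inl ((ms f' hf').1 u')
  · exact hmain u (fun f' => hv d f' h') fun f' hf' =>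
      Or.inr ⟨lev d h', ml h', (ms f' hf').2.1 h'⟩

end two

/-! ### Conflicts between the outer hub and a copy -/

section one

variable {V U ι Λ : Type} [Fintype U] [Fintype Λ] {G : SimpleGraph V} {pr : U → V} {p : ℕ → U → ι}
  {Gs : ℕ → SimpleGraph U} {W : Finset U} {μ : U → ℝ} {r : ℕ} {J : Finset V} {q : ℕ → U → ℝ}
  {b : ℕ → U → ℝ} {φ : ℕ → U → Λ → ℝ} {T H xi e0 e1 : ℝ}

open Pool.Agent.Lib.FGL.LTwoAux (aw_eq Dw_eq aw_nonneg ind ind_pos ind_neg ind_nonneg ind_and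
  prb_eq)

theorem kone (M : ℕ) (hS : KSys G pr p Gs W μ r J q b φ T H xi e0 e1) (hxi : 0 ≤ xi)
    (he0 : 0 ≤ e0) {d : ℕ} (hd : d < r) {eta : ℝ} (heta : 0 < eta) :
    prb (cwp Gs W μ q M (d + 1)) (fun x => Dw (Gs d) W μ (q d) x.1 < eta) ≤ eta ∧
      ∀ e : Fin (M + 1),
      (∀ u : WN M d, u ≠ rn M d → prb (cwp Gs W μ q M (d + 1)) (fun x =>
        Top (Gs d) (q d) d (x.2 e) ∧ G.Adj (pr x.1) (pr (wv d (x.2 e) u))) ≤
          e0 + Real.sqrt (e1 * H)) ∧
      (∀ u : WN M d, prb (cwp Gs W μ q M (d + 1))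
        (fun x => pr x.1 = pr (wv d (x.2 e) u)) ≤ xi) ∧
      (∀ h : HN M d, prb (cwp Gs W μ q M (d + 1))
        (fun x => pr x.1 = pr (hv d (x.2 e) h)) ≤ xi) := by
  have hB := hS.bas
  obtain ⟨k1, k2⟩ := stPKer M U Gs W μ r q hB
  obtain ⟨c0, c1, c2⟩ := k1 d hd.le
  obtain ⟨w0, D0, w1, f1, f2, f3, _⟩ := k2 d hd
  obtain ⟨m1, m2, m3, m4, m5, m6, m7⟩ := stPMarg stPKer M U Gs W μ r q hB d hd.le
  have hcl : ∀ f, cwp Gs W μ q M d f ≠ 0 → (∀ u, p d (wv d f u) = p d (root d f)) ∧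
      (∀ h, p d (hv d f h) = p d (root d f)) := fun f hf =>
    kcls d le_rfl (fun i hi x y hxy => (hS.inc i (hi.trans hd) x y hxy).2)
      (fun i i' hi hi' => hS.ref i i' hi (lt_of_le_of_lt hi' hd)) f hf
  -- the probability that the outer hub is a given vertex of the copy
  have heq : ∀ (e : Fin (M + 1)) (bb : Conf M U d → U),
      (∀ f, cwp Gs W μ q M d f ≠ 0 → (bb f ∈ W ∨ ∃ i < d, q i (bb f) ≠ 0) ∧
        p d (bb f) = p d (root d f)) →
      prb (cwp Gs W μ q M (d + 1)) (fun x => pr x.1 = pr (bb (x.2 e))) ≤ xi := by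
    intro e bb hb
    rw [prb_eq]
    refine (f2 e (fun g f => ind (pr g = pr (bb f)))).le.trans ?_
    have hle : ∀ f ∈ (univ : Finset (Conf M U d)),
        cwp Gs W μ q M d f / aw (Gs d) (q d) (root d f) *
        (∑ g, if (Gs d).Adj (root d f) g then q d g * ind (pr g = pr (bb f)) else 0) ≤
          xi * cwp Gs W μ q M d f := by
      intro f _
      by_cases hc : cwp Gs W μ q M d f = 0
      · rw [hc, zero_div, zero_mul, mul_zero]
      obtain ⟨hW, _, _⟩ := m7 f hc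
      have hr : root d f ∈ W := by
        rw [m6 f]
        exact hW _
      have ha : 0 < aw (Gs d) (q d) (root d f) := hS.apos d hd _ hr
      have h5 : (∑ g, if (Gs d).Adj (root d f) g then q d g * ind (pr g = pr (bb f)) else 0) ≤
          xi * aw (Gs d) (q d) (root d f) := by
        refine le_trans (le_of_eq ?_) (hS.own d hd _ hr (bb f) (hb f hc).1 (hb f hc).2.symm)
        refine Finset.sum_congr rfl fun g _ => ?_
        by_cases h6 : (Gs d).Adj (root d f) g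
        · by_cases h7 : pr g = pr (bb f)
          · rw [if_pos h6, if_pos ⟨h6, h7⟩, ind_pos h7, mul_one]
          · rw [if_pos h6, if_neg fun h => h7 h.2, ind_neg h7, mul_zero]
        · rw [if_neg h6, if_neg fun h => h6 h.1]
      calc cwp Gs W μ q M d f / aw (Gs d) (q d) (root d f) *
            (∑ g, if (Gs d).Adj (root d f) g then q d g * ind (pr g = pr (bb f)) else 0)
          ≤ cwp Gs W μ q M d f / aw (Gs d) (q d) (root d f) *
              (xi * aw (Gs d) (q d) (root d f)) :=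
            mul_le_mul_of_nonneg_left h5 (div_nonneg (c0 f) ha.le)
        _ = xi * cwp Gs W μ q M d f := by
            field_simp
    refine (sum_le_sum hle).trans ?_
    rw [← mul_sum, c1, mul_one]
  refine ⟨?_, fun e => ⟨fun u hu => ?_, fun u => ?_, fun h => ?_⟩⟩
  · -- (1)
    rw [prb_eq]
    refine (f1 0 (fun g _ => ind (Dw (Gs d) W μ (q d) g < eta))).le.trans ?_
    have hle : ∀ g ∈ (univ : Finset U), q d g * Dw (Gs d) W μ (q d) g *
        ∑ f, kw (Gs d) W μ (q d) (root d) (cwp Gs W μ q M d) g f *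
          ind (Dw (Gs d) W μ (q d) g < eta) ≤ eta * q d g := by
      intro g _
      rw [← sum_mul]
      by_cases hg : Dw (Gs d) W μ (q d) g < eta
      · rw [ind_pos hg, mul_one]
        rcases (D0 g).eq_or_lt with hD | hD
        · rw [← hD, mul_zero, zero_mul]
          exact mul_nonneg heta.le (hS.q0 d hd g)
        · rw [w1 g hD, mul_one, mul_comm]
          exact mul_le_mul_of_nonneg_right hg.le (hS.q0 d hd g)
      · rw [ind_neg hg, mul_zero, mul_zero]
        exact mul_nonneg heta.le (hS.q0 d hd g)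
    refine (sum_le_sum hle).trans ?_
    rw [← mul_sum]
    calc eta * ∑ g, q d g ≤ eta * 1 := mul_le_mul_of_nonneg_left (hS.q1 d hd) heta.le
      _ = eta := mul_one _
  · -- (2)
    rw [prb_eq]
    refine (f2 e (fun g f => ind (Top (Gs d) (q d) d f ∧
      G.Adj (pr g) (pr (wv d f u))))).le.trans ?_
    have h4 := kop M hS hd u hu
    have h5 : ∑ f, cwp Gs W μ q M d f * (e0 + kk (φ d) (root d f) (wv d f u)) ≤
        e0 + Real.sqrt (e1 * H) := by
      rw [Finset.sum_congr rfl fun f _ => mul_add _ _ _, Finset.sum_add_distrib,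
        ← Finset.sum_mul, c1, one_mul]
      linarith
    refine le_trans ?_ h5
    refine sum_le_sum fun f _ => ?_
    have hkk : 0 ≤ kk (φ d) (root d f) (wv d f u) := kk_nonneg (hS.φ0 d hd) _ _
    by_cases hc : cwp Gs W μ q M d f = 0
    · rw [hc, zero_div, zero_mul, zero_mul]
    by_cases hT : Top (Gs d) (q d) d f
    · obtain ⟨hW, _, _⟩ := m7 f hc
      have hr : root d f ∈ W := by
        rw [m6 f]
        exact hW _
      have ha : 0 < aw (Gs d) (q d) (root d f) := hS.apos d hd _ hr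
      have h6 := hS.sh d hd _ hr _ (hW u) ((hcl f hc).1 u).symm (hT u)
      have h7 : (∑ g, if (Gs d).Adj (root d f) g then q d g *
          ind (Top (Gs d) (q d) d f ∧ G.Adj (pr g) (pr (wv d f u))) else 0) =
          ∑ g, (if (Gs d).Adj (root d f) g ∧ G.Adj (pr g) (pr (wv d f u)) then q d g else 0) := by
        refine Finset.sum_congr rfl fun g _ => ?_
        rw [ind_and hT]
        by_cases h8 : (Gs d).Adj (root d f) g
        · by_cases h9 : G.Adj (pr g) (pr (wv d f u))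
          · rw [if_pos h8, if_pos ⟨h8, h9⟩, ind_pos h9, mul_one]
          · rw [if_pos h8, if_neg fun h => h9 h.2, ind_neg h9, mul_zero]
        · rw [if_neg h8, if_neg fun h => h8 h.1]
      rw [h7, div_mul_eq_mul_div, div_le_iff₀ ha, mul_assoc]
      exact mul_le_mul_of_nonneg_left h6 (c0 f)
    · have h7 : (∑ g, if (Gs d).Adj (root d f) g then q d g *
          ind (Top (Gs d) (q d) d f ∧ G.Adj (pr g) (pr (wv d f u))) else 0) = 0 := by
        refine sum_eq_zero fun g _ => ?_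
        rw [ind_neg fun h : Top (Gs d) (q d) d f ∧ G.Adj (pr g) (pr (wv d f u)) => hT h.1,
          mul_zero, ite_self]
      rw [h7, mul_zero]
      exact mul_nonneg (c0 f) (add_nonneg he0 hkk)
  · -- (3)
    exact heq e (fun f => wv d f u) fun f hf => ⟨Or.inl ((m7 f hf).1 u), (hcl f hf).1 u⟩
  · -- (4)
    exact heq e (fun f => hv d f h) fun f hf =>
      ⟨Or.inr ⟨lev d h, m4 h, (m7 f hf).2.1 h⟩, (hcl f hf).2 h⟩

end one

end Pool.Agent.Lib.FGK
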