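import Pool.Agent.Lib.FGK.UItem
import Pool.Agent.Lib.GSLE.Thin

/-!
# Suppliers for the hypotheses of `US`
-/

set_option autoImplicit false

namespace Pool.Agent.Lib.FGK

open Finset Classical
open Pool.Agent.Lib.GSLE (alp sc mass_high mass_near Low)

/-- The field `hi` for the scale of the localised equilibrium. -/
theorem us_hi {V L : Type} [Fintype V] [Fintype L] {G : SimpleGraph V} {vy : L → V} {b : L → ℝ}
    {e : V → ℝ} {π : L → ℝ} (he : ∀ x, 0 < e x) (hb : ∀ l, 0 < b l) (hπ : ∀ l, 0 ≤ π l) (x : V)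
    (Γ : ℝ) (hΓ : 1 ≤ Γ) (S : Finset L)
    (hS : ∀ l ∈ S, G.Adj x (vy l) ∧
      Γ * alp e (fun x l => if G.Adj x (vy l) then 1 else 0) π b x ≤ b l) :
    ∑ l ∈ S, π l / b l ≤ 1 / Real.sqrt Γ := by
  have h := Pool.Agent.Lib.GSLE.high_le (c := fun x l => if G.Adj x (vy l) then 1 else 0) (b := b) he
    (fun x l => by positivity) hπ hb hΓ x S (fun l hl => (hS l hl).2)
  refine le_trans (le_of_eq ?_) h
  refine Finset.sum_congr rfl fun l hl => ?_
  rw [if_pos (hS l hl).1, one_mul]

/-- The field `nr` for the scale of the localised equilibrium. -/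
theorem us_nr {V L : Type} [Fintype V] [Fintype L] {G : SimpleGraph V} {vy : L → V} {b : L → ℝ}
    {e : V → ℝ} {π : L → ℝ} (he : ∀ x, 0 < e x) (hb : ∀ l, 0 < b l) (hπ : ∀ l, 0 ≤ π l) (x : V)
    (Υ : ℝ) (hΥ : 1 ≤ Υ) (S : Finset L)
    (hS : ∀ l ∈ S, G.Adj x (vy l) ∧
      alp e (fun x l => if G.Adj x (vy l) then 1 else 0) π b x ≤ Υ * b l) :
    ∑ l ∈ S, π l / b l ≤ Υ * Real.sqrt Υ := by
  have h := Pool.Agent.Lib.GSLE.near_le (c := fun x l => if G.Adj x (vy l) then 1 else 0) (b := b) he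
    (fun x l => by positivity) hπ hb hΥ x S (fun l hl => (hS l hl).2)
  refine le_trans (le_of_eq ?_) h
  refine Finset.sum_congr rfl fun l hl => ?_
  rw [if_pos (hS l hl).1, one_mul]

/-- The field `thn` from `Low` and the atom bound for the normalised node law. -/
theorem us_thn {V : Type} [Fintype V] {G : SimpleGraph V} {n a : V → ℝ} {z : V} {C : ℝ}
    (hL : Low G n a C z) (hz : n z ≤ C * a z) (hC : 0 ≤ C) (hn : ∀ v, 0 ≤ n v) {t : ℝ}
    (ht : 0 < t) :
    ∑ v ∈ Finset.univ.filter (fun v => (v = z ∨ G.Adj v z) ∧ a v ≤ t), n v ≤ 2 * C * t := by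
  have h1 := hL t ht.le
  have h2 : ∑ v ∈ Finset.univ.filter (fun v => (v = z ∨ G.Adj v z) ∧ a v ≤ t), n v ≤
      ∑ v ∈ Finset.univ.filter (fun v => G.Adj z v ∧ a v ≤ t), n v +
        ∑ v ∈ Finset.univ.filter (fun v => v = z ∧ a v ≤ t), n v := by
    rw [Finset.sum_filter, Finset.sum_filter, Finset.sum_filter, ← Finset.sum_add_distrib]
    refine Finset.sum_le_sum fun v _ => ?_
    have hv := hn v
    by_cases h3 : a v ≤ t
    · by_cases h4 : v = z
      · have e1 : (if v = z ∧ a v ≤ t then n v else 0) = n v := if_pos ⟨h4, h3⟩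
        rw [if_pos ⟨Or.inl h4, h3⟩, e1]
        have : 0 ≤ (if G.Adj z v ∧ a v ≤ t then n v else 0) := by
          split_ifs
          · exact hv
          · exact le_rfl
        linarith
      · by_cases h5 : G.Adj v z
        · rw [if_pos ⟨Or.inr h5, h3⟩, if_pos ⟨h5.symm, h3⟩, if_neg fun h => h4 h.1, add_zero]
        · rw [if_neg, if_neg fun h => h5 h.1.symm, if_neg fun h => h4 h.1, add_zero]
          rintro ⟨h6 | h6, -⟩
          · exact h4 h6
          · exact h5 h6
    · rw [if_neg fun h => h3 h.2, if_neg fun h => h3 h.2, if_neg fun h => h3 h.2, add_zero]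
  have h3 : ∑ v ∈ Finset.univ.filter (fun v => v = z ∧ a v ≤ t), n v ≤ C * t := by
    by_cases h4 : a z ≤ t
    · have h5 : Finset.univ.filter (fun v => v = z ∧ a v ≤ t) = {z} := by
        ext v
        simp only [Finset.mem_filter, Finset.mem_univ, true_and, Finset.mem_singleton]
        constructor
        · exact fun h => h.1
        · rintro rfl
          exact ⟨rfl, h4⟩
      rw [h5, Finset.sum_singleton]
      exact hz.trans (mul_le_mul_of_nonneg_left h4 hC)
    · have h5 : Finset.univ.filter (fun v => v = z ∧ a v ≤ t) = ∅ := by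
        rw [Finset.filter_eq_empty_iff]
        rintro v - ⟨rfl, h6⟩
        exact h4 h6
      rw [h5, Finset.sum_empty]
      positivity
  linarith

end Pool.Agent.Lib.FGK
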