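import Pool.Agent.Lib.FGK.Low

/-!
# Theorem L with labels: the probability of a conflict, the theorem
-/

set_option autoImplicit false

namespace Pool.Agent.Lib.FGK

open Finset Classical
open Pool.Agent.Lib.FracGS (nb wnb om TAdj)
open Pool.Agent.Lib.GSR3 (Stab Tree)
open Pool.Agent.Lib.FGL (aw Dw mt Conf root WN wv rn HN hv lev hr kw prb Top Clean)
open Pool.Agent.Lib.FGP (cwp OKp PBas stPKer stPMarg stPOK)

open Pool.Agent.Lib.FGL.LRecAux in
/-- The probability of a conflict. -/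
theorem krec (M d : ℕ) : ∃ C : ℝ, 0 ≤ C ∧ ∀ (V U ι Λ : Type) [Fintype U] [Fintype Λ]
    (G : SimpleGraph V) (pr : U → V) (p : ℕ → U → ι) (Gs : ℕ → SimpleGraph U) (W : Finset U) (μ : U → ℝ)
    (J : Finset V) (q b : ℕ → U → ℝ) (φ : ℕ → U → Λ → ℝ) (T H xi e0 e1 : ℝ),
    KSys G pr p Gs W μ d J q b φ T H xi e0 e1 → 0 ≤ xi → 0 < T → 0 ≤ e0 → ∀ eta : ℝ, 0 < eta →
      prb (cwp Gs W μ q M d) (fun x => OKp Gs q d x ∧ ¬ Clean G d (cmap pr d x)) ≤
        C * (eta + (e0 + Real.sqrt (e1 * H)) + xi + xi * T / eta) := by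
  induction d with
  | zero =>
    refine ⟨0, le_rfl, ?_⟩
    intro V U ι Λ _ _ G pr p Gs W μ J q b φ T H xi e0 e1 _ _ _ _ eta _
    rw [zero_mul]
    apply le_of_eq
    apply prb_false
    rintro x ⟨-, hx⟩
    exact hx trivial
  | succ d ih =>
    obtain ⟨C, hC, ihC⟩ := ih
    set nM : ℝ := (Fintype.card (Fin (M + 1)) : ℝ) with hnM
    set nW : ℝ := (Fintype.card (WN M d) : ℝ) with hnW
    set nH : ℝ := (Fintype.card (HN M d) : ℝ) with hnH
    have hnM0 : 0 ≤ nM := Nat.cast_nonneg _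
    have hnW0 : 0 ≤ nW := Nat.cast_nonneg _
    have hnH0 : 0 ≤ nH := Nat.cast_nonneg _
    refine ⟨1 + nM * C + nM * nW + nM * nW + nM * nH + nM * (nM * (nW * nW)) +
      nM * (nM * (nW * nH)), by positivity, ?_⟩
    intro V U ι Λ _ _ G pr p Gs W μ J q b φ T H xi e0 e1 hS hxi hT0 he0 eta heta
    have hSd : KSys G pr p Gs W μ d J q b φ T H xi e0 e1 :=
      hS.sub (c := id) (fun i hi => Nat.lt_succ_of_lt hi) (fun i j hij _ => hij)
    have ihd := ihC V U ι Λ G pr p Gs W μ J q b φ T H xi e0 e1 hSd hxi hT0 he0 eta heta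
    -- the bound
    set B : ℝ := eta + (e0 + Real.sqrt (e1 * H)) + xi + xi * T / eta with hBdef
    have hsq : 0 ≤ Real.sqrt (e1 * H) := Real.sqrt_nonneg _
    have hxe : 0 ≤ xi * T / eta := by positivity
    have hB0 : 0 ≤ B := by linarith
    have b1 : eta ≤ B := by linarith
    have b3 : e0 + Real.sqrt (e1 * H) ≤ B := by linarith
    have b4 : xi ≤ B := by linarith
    have b6 : xi * T / eta ≤ B := by linarith
    -- the facts on the law
    have hB := hS.bas
    obtain ⟨hK1, hK2⟩ := stPKer M U Gs W μ (d + 1) q hB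
    have hw : ∀ x, 0 ≤ cwp Gs W μ q M (d + 1) x := (hK1 (d + 1) le_rfl).1
    obtain ⟨-, -, -, -, -, hcopy, -⟩ := hK2 d (Nat.lt_succ_self d)
    obtain ⟨-, -, -, hlevd, hhrd, hrootd, hsuppd⟩ :=
      stPMarg stPKer M U Gs W μ (d + 1) q hB d (Nat.le_succ d)
    obtain ⟨hO1, hO2⟩ := kone M hS hxi he0 (Nat.lt_succ_self d) heta
    have hT := fun e e' hee => ktwo M hS hxi hT0 (Nat.lt_succ_self d) heta e e' hee
    -- the events
    set w := cwp Gs W μ q M (d + 1) with hwdef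
    let A0 : Conf M U (d + 1) → Prop := fun x => Dw (Gs d) W μ (q d) x.1 < eta
    let A1 : Fin (M + 1) → Conf M U (d + 1) → Prop := fun e x =>
      OKp Gs q d (x.2 e) ∧ ¬ Clean G d (cmap pr d (x.2 e))
    let A2 : Fin (M + 1) → WN M d → Conf M U (d + 1) → Prop := fun e u x =>
      pr x.1 = pr (wv d (x.2 e) u)
    let A3 : Fin (M + 1) → WN M d → Conf M U (d + 1) → Prop := fun e u x =>
      u ≠ rn M d ∧ Top (Gs d) (q d) d (x.2 e) ∧ G.Adj (pr x.1) (pr (wv d (x.2 e) u))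
    let A4 : Fin (M + 1) → HN M d → Conf M U (d + 1) → Prop := fun e h x =>
      pr x.1 = pr (hv d (x.2 e) h)
    let A5 : Fin (M + 1) → Fin (M + 1) → WN M d → WN M d → Conf M U (d + 1) → Prop :=
      fun e e' u u' x => e ≠ e' ∧ eta ≤ Dw (Gs d) W μ (q d) x.1 ∧
        Top (Gs d) (q d) d (x.2 e) ∧ Cf G pr (p d) (wv d (x.2 e) u) (wv d (x.2 e') u')
    let A6 : Fin (M + 1) → Fin (M + 1) → WN M d → HN M d → Conf M U (d + 1) → Prop :=
      fun e e' u h' x => e ≠ e' ∧ eta ≤ Dw (Gs d) W μ (q d) x.1 ∧ Top (Gs d) (q d) d (x.2 e) ∧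
          Cf G pr (p d) (wv d (x.2 e) u) (hv d (x.2 e') h')
    -- their probabilities
    have p0 : prb w A0 ≤ B := hO1.trans b1
    have p1 : ∀ e, prb w (A1 e) ≤ C * B := by
      intro e
      refine le_trans (le_of_eq ?_) ihd
      have h3 := hcopy e (fun f => if OKp Gs q d f ∧ ¬ Clean G d (cmap pr d f) then 1 else 0)
      have g1 : prb w (A1 e) = ∑ x, w x *
          (if OKp Gs q d (x.2 e) ∧ ¬ Clean G d (cmap pr d (x.2 e)) then (1 : ℝ) else 0) := by
        unfold prb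
        apply Finset.sum_congr rfl
        intro x _
        exact ite_aux _ _ _ _
      have g2 : prb (cwp Gs W μ q M d) (fun x => OKp Gs q d x ∧ ¬ Clean G d (cmap pr d x)) =
          ∑ f, cwp Gs W μ q M d f *
            (if OKp Gs q d f ∧ ¬ Clean G d (cmap pr d f) then (1 : ℝ) else 0) := by
        unfold prb
        apply Finset.sum_congr rfl
        intro x _
        exact ite_aux _ _ _ _
      rw [g1, g2]
      exact h3
    have p2 : ∀ e u, prb w (A2 e u) ≤ B := fun e u => ((hO2 e).2.1 u).trans b4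
    have p3 : ∀ e u, prb w (A3 e u) ≤ B := by
      intro e u
      by_cases hu : u = rn M d
      · rw [prb_false]
        · exact hB0
        · rintro x ⟨hx, -⟩
          exact hx hu
      · refine le_trans (prb_mono hw ?_) (((hO2 e).1 u hu).trans b3)
        rintro x - ⟨-, hx⟩
        exact hx
    have p4 : ∀ e h, prb w (A4 e h) ≤ B := fun e h => ((hO2 e).2.2 h).trans b4
    have p5 : ∀ e e' u u', prb w (A5 e e' u u') ≤ B := by
      intro e e' u u'
      by_cases hee : e = e'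
      · rw [prb_false]
        · exact hB0
        · rintro x ⟨hx, -⟩
          exact hx hee
      · refine le_trans (prb_mono hw ?_) (((hT e e' hee).1 u u').trans b6)
        rintro x - ⟨-, hx⟩
        exact hx
    have p6 : ∀ e e' u h', prb w (A6 e e' u h') ≤ B := by
      intro e e' u h'
      by_cases hee : e = e'
      · rw [prb_false]
        · exact hB0
        · rintro x ⟨hx, -⟩
          exact hx hee
      · refine le_trans (prb_mono hw ?_) (((hT e e' hee).2 u h').trans b6)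
        rintro x - ⟨-, hx⟩
        exact hx
    -- the inclusion
    have hincl : ∀ x, w x ≠ 0 → (OKp Gs q (d + 1) x ∧ ¬ Clean G (d + 1) (cmap pr (d + 1) x)) →
        A0 x ∨ (∃ e, A1 e x) ∨ (∃ e u, A2 e u x) ∨ (∃ e u, A3 e u x) ∨ (∃ e h, A4 e h x) ∨
        (∃ e e' u u', A5 e e' u u' x) ∨ (∃ e e' u h', A6 e e' u h' x) := by
      rintro x hx ⟨hOK, hNC⟩
      by_contra hno
      simp only [not_or, not_exists] at hno
      obtain ⟨n0, n1, n2, n3, n4, n5, n6⟩ := hno
      apply hNC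
      have hD : eta ≤ Dw (Gs d) W μ (q d) x.1 := not_lt.1 n0
      obtain ⟨hq0, hcwe⟩ := Pool.Agent.Lib.FGP.cwp_succ_ne hx
      have hcw : ∀ e, cwp Gs W μ q M d (x.2 e) ≠ 0 := fun e => (hcwe e).1
      have hadj : ∀ e, (Gs d).Adj x.1 (root d (x.2 e)) := fun e => (hcwe e).2
      have hdd : d < d + 1 := Nat.lt_succ_self d
      have hxJ : pr x.1 ∈ J := hS.qJ d hdd x.1 hq0
      have hhJ : ∀ e h, pr (hv d (x.2 e) h) ∈ J := by
        intro e h
        exact hS.qJ (lev d h) ((hlevd h).trans hdd) _ ((hsuppd (x.2 e) (hcw e)).2.1 h)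
      have hhadj : ∀ e h, G.Adj (pr (hr d (x.2 e) h)) (pr (hv d (x.2 e) h)) := fun e h =>
        (hS.inc _ ((hlevd h).trans hdd) _ _ ((hsuppd (x.2 e) (hcw e)).2.2 h)).1
      have hcl := fun e => kcls (W := W) (μ := μ) (q := q) (j := d) d le_rfl
        (fun i hi a c hac => (hS.inc i (hi.trans hdd) a c hac).2)
        (fun i i' hi hi' => hS.ref i i' hi (Nat.lt_succ_of_le hi')) (x.2 e) (hcw e)
      have hgr : ∀ e, p d x.1 = p d (root d (x.2 e)) := fun e => (hS.inc d hdd _ _ (hadj e)).2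
      have hrr : ∀ e e', p d (root d (x.2 e)) = p d (root d (x.2 e')) := fun e e' =>
        (hgr e).symm.trans (hgr e')
      have hTop : ∀ e, Top (Gs d) (q d) d (x.2 e) := fun e => (hOK e).2
      have hww : ∀ e e', e ≠ e' → ∀ u u',
          ¬ Cf G pr (p d) (wv d (x.2 e) u) (wv d (x.2 e') u') := by
        intro e e' hee u u' h3
        exact n5 e e' u u' ⟨hee, hD, hTop e, h3⟩
      have hpw : ∀ e e' u u', p d (wv d (x.2 e) u) = p d (wv d (x.2 e') u') := fun e e' u u' =>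
        (((hcl e).1 u).trans (hrr e e')).trans ((hcl e').1 u').symm
      have hph : ∀ e e' u h, p d (wv d (x.2 e) u) = p d (hv d (x.2 e') h) := fun e e' u h =>
        (((hcl e).1 u).trans (hrr e e')).trans ((hcl e').2 h).symm
      have hwh : ∀ e e', e ≠ e' → ∀ u h,
          ¬ Cf G pr (p d) (wv d (x.2 e) u) (hv d (x.2 e') h) := by
        intro e e' hee u h h3
        exact n6 e e' u h ⟨hee, hD, hTop e, h3⟩
      change (∀ e, Clean G d (cmap pr d (x.2 e))) ∧
        (∀ e, G.Adj (pr x.1) (root d (cmap pr d (x.2 e)))) ∧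
        (∀ e u, u ≠ rn M d → ¬ G.Adj (pr x.1) (wv d (cmap pr d (x.2 e)) u)) ∧
        (∀ e u, pr x.1 ≠ wv d (cmap pr d (x.2 e)) u) ∧
        (∀ e h, ¬ G.Adj (pr x.1) (hv d (cmap pr d (x.2 e)) h)) ∧
        (∀ e h, pr x.1 ≠ hv d (cmap pr d (x.2 e)) h) ∧
        (∀ e e', e ≠ e' → ∀ u u', wv d (cmap pr d (x.2 e)) u ≠ wv d (cmap pr d (x.2 e')) u' ∧
          ¬ G.Adj (wv d (cmap pr d (x.2 e)) u) (wv d (cmap pr d (x.2 e')) u')) ∧
        (∀ e e', e ≠ e' → ∀ u h, wv d (cmap pr d (x.2 e)) u ≠ hv d (cmap pr d (x.2 e')) h ∧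
          ¬ G.Adj (wv d (cmap pr d (x.2 e)) u) (hv d (cmap pr d (x.2 e')) h)) ∧
        (∀ e e', e ≠ e' → ∀ h h', hv d (cmap pr d (x.2 e)) h ≠ hv d (cmap pr d (x.2 e')) h' ∧
          ¬ G.Adj (hv d (cmap pr d (x.2 e)) h) (hv d (cmap pr d (x.2 e')) h'))
      simp only [root_cmap, wv_cmap, hv_cmap]
      refine ⟨?_, fun e => (hS.inc d hdd _ _ (hadj e)).1, ?_, ?_, ?_, ?_, ?_, ?_, ?_⟩
      · intro e
        by_contra h3
        exact n1 e ⟨(hOK e).1, h3⟩
      · intro e u hu h3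
        exact n3 e u ⟨hu, hTop e, h3⟩
      · intro e u h3
        exact n2 e u h3
      · intro e h h3
        exact hS.stab _ hxJ _ (hhJ e h) h3
      · intro e h h3
        exact n4 e h h3
      · intro e e' hee u u'
        refine ⟨fun h3 => ?_, fun h3 => ?_⟩
        · exact hww e e' hee u u' ⟨hpw e e' u u', Or.inl h3⟩
        · exact hww e e' hee u u' ⟨hpw e e' u u', Or.inr h3⟩
      · intro e e' hee u h
        refine ⟨fun h3 => ?_, fun h3 => ?_⟩
        · exact hwh e e' hee u h ⟨hph e e' u h, Or.inl h3⟩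
        · exact hwh e e' hee u h ⟨hph e e' u h, Or.inr h3⟩
      · intro e e' hee h h'
        refine ⟨fun h3 => ?_, fun h3 => ?_⟩
        · obtain ⟨u, hu⟩ := hhrd h
          have h4 := hhadj e h
          rw [hu (x.2 e), h3] at h4
          exact hwh e e' hee u h' ⟨hph e e' u h', Or.inr h4⟩
        · exact hS.stab _ (hhJ e h) _ (hhJ e' h') h3
    -- the union bound
    refine (prb_mono hw hincl).trans ?_
    have u1 : prb w (fun x => ∃ e, A1 e x) ≤ nM * (C * B) := prb_ex hw A1 p1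
    have u2 : prb w (fun x => ∃ e u, A2 e u x) ≤ nM * (nW * B) :=
      prb_ex hw (fun e x => ∃ u, A2 e u x) (fun e => prb_ex hw (A2 e) (p2 e))
    have u3 : prb w (fun x => ∃ e u, A3 e u x) ≤ nM * (nW * B) :=
      prb_ex hw (fun e x => ∃ u, A3 e u x) (fun e => prb_ex hw (A3 e) (p3 e))
    have u4 : prb w (fun x => ∃ e h, A4 e h x) ≤ nM * (nH * B) :=
      prb_ex hw (fun e x => ∃ h, A4 e h x) (fun e => prb_ex hw (A4 e) (p4 e))
    have u5 : prb w (fun x => ∃ e e' u u', A5 e e' u u' x) ≤ nM * (nM * (nW * (nW * B))) :=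
      prb_ex hw (fun e x => ∃ e' u u', A5 e e' u u' x) (fun e =>
        prb_ex hw (fun e' x => ∃ u u', A5 e e' u u' x) (fun e' =>
          prb_ex hw (fun u x => ∃ u', A5 e e' u u' x) (fun u =>
            prb_ex hw (A5 e e' u) (p5 e e' u))))
    have u6 : prb w (fun x => ∃ e e' u h', A6 e e' u h' x) ≤ nM * (nM * (nW * (nH * B))) :=
      prb_ex hw (fun e x => ∃ e' u h', A6 e e' u h' x) (fun e =>
        prb_ex hw (fun e' x => ∃ u h', A6 e e' u h' x) (fun e' =>
          prb_ex hw (fun u x => ∃ h', A6 e e' u h' x) (fun u =>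
            prb_ex hw (A6 e e' u) (p6 e e' u))))
    refine (prb_or hw _ _).trans ?_
    refine (add_le_add p0 ((prb_or hw _ _).trans (add_le_add u1 ((prb_or hw _ _).trans
      (add_le_add u2 ((prb_or hw _ _).trans (add_le_add u3 ((prb_or hw _ _).trans
      (add_le_add u4 ((prb_or hw _ _).trans (add_le_add u5 u6))))))))))).trans (le_of_eq ?_)
    ring

open Pool.Agent.Lib.FGL.LThmAux in
/-- Theorem L with labels. -/
theorem stKThm (M h : ℕ) : ∃ (r : ℕ) (e0 : ℝ), 0 < e0 ∧ ∀ T H : ℝ, 0 < T → 0 < H →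
    ∃ e1 xi : ℝ, 0 < e1 ∧ 0 < xi ∧ ∀ (V U ι Λ : Type) [Fintype U] [Fintype Λ]
      (G : SimpleGraph V) (pr : U → V) (p : ℕ → U → ι) (Gs : ℕ → SimpleGraph U) (W : Finset U) (μ : U → ℝ)
      (J : Finset V) (q b : ℕ → U → ℝ) (φ : ℕ → U → Λ → ℝ),
      KSys G pr p Gs W μ r J q b φ T H xi e0 e1 → ∃ φ : List (Fin M) → V, Tree G h M φ := by
  obtain ⟨r, κ, hκ, hOK⟩ := stPOK stPKer M (M * h) 0
  obtain ⟨C, hC, hRec⟩ := krec M (M * h)
  set κ' : ℝ := min κ 1 with hκ'
  have hk1 : κ' ≤ κ := min_le_left _ _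
  have hk2 : κ' ≤ 1 := min_le_right _ _
  have hk0 : 0 < κ' := lt_min hκ one_pos
  set eta : ℝ := κ' / (8 * (C + 1)) with heta
  have hC1 : 0 < 8 * (C + 1) := by linarith
  have he0 : 0 < eta := div_pos hk0 hC1
  have he1 : eta ≤ 1 := by
    rw [heta, div_le_one hC1]
    linarith
  have heq : eta * (8 * (C + 1)) = κ' := div_mul_cancel₀ _ hC1.ne'
  refine ⟨r, eta, he0, ?_⟩
  intro T H hT hH
  set xi : ℝ := min eta (eta ^ 2 / T) with hxi
  have hxi0 : 0 < xi := lt_min he0 (by positivity)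
  have hxi1 : xi ≤ eta := min_le_left _ _
  have hxi2 : xi * T / eta ≤ eta := by
    rw [div_le_iff₀ he0, ← sq]
    have : xi ≤ eta ^ 2 / T := min_le_right _ _
    rwa [le_div_iff₀ hT] at this
  refine ⟨eta ^ 2 / H, xi, by positivity, hxi0, ?_⟩
  intro V U ι Λ _ _ G pr p Gs W μ J q b φ hS
  obtain ⟨c, R, hc1, hc2, -, hR, hκp⟩ := hOK U Gs W μ q hS.bas
  have hR0 : R = ∅ := Finset.card_eq_zero.1 hR
  have hS' := hS.sub (d := M * h) hc1 hc2
  have hle := hRec V U ι Λ G pr _ _ W μ J _ _ _ T H _ _ _ hS' hxi0.le hT he0.le eta he0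
  have hbound : C * (eta + (eta + Real.sqrt (eta ^ 2 / H * H)) + xi + xi * T / eta) ≤
      5 * C * eta := by
    rw [div_mul_cancel₀ _ hH.ne', Real.sqrt_sq he0.le]
    nlinarith
  have hlt : 5 * C * eta < κ := by
    have : 5 * C * eta < κ' := by
      rw [← heq]
      nlinarith
    linarith
  have hex : ∃ x : Conf M V (M * h), Clean G (M * h) x := by
    by_contra hcon
    push Not at hcon
    have h1 := prb_congr (cwp (fun i => Gs (c i)) W μ (fun i => q (c i)) M (M * h))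
      (E := fun x => OKp (fun i => Gs (c i)) (fun i => q (c i)) (M * h) x ∧
        ∀ s ∈ R, Top (Gs s) (q s) (M * h) x)
      (E' := fun x => OKp (fun i => Gs (c i)) (fun i => q (c i)) (M * h) x ∧
        ¬ Clean G (M * h) (cmap pr (M * h) x)) (by
        intro x
        rw [hR0]
        constructor
        · rintro ⟨h1, -⟩
          exact ⟨h1, hcon _⟩
        · rintro ⟨h1, -⟩
          exact ⟨h1, by simp⟩)
    rw [h1] at hκp
    linarith
  obtain ⟨x, hx⟩ := hex
  obtain ⟨φ, hφ⟩ := Pool.Agent.Lib.FGL.stLEmb M h (M * h) le_rfl V G x hx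
  exact ⟨φ, fun u w hu hw => hφ.inj u w (by omega) (by omega),
    fun u w hu hw => hφ.adj u w (by omega) (by omega)⟩

end Pool.Agent.Lib.FGK
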