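import Pool.Agent.Lib.FGK.Thm

/-!
# Pools of unlinked stages with labels (statement)

The nodes `x : X` and the labels `g : Ω` have histories `hX x`, `hO g` and vertices `vX x`, `vO g`
of the graph `G`; `P c` is the part of a history before the stage `c`.  The node `x` owns the labels
`g` with `own c x g`.  The stages are numbered from the early ones to the late ones.
-/

set_option autoImplicit false

namespace Pool.Agent.Lib.FGK

open Finset Classical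
open Pool.Agent.Lib.GSR3 (Stab Tree)
open Pool.Agent.Lib.FGF (ms Frac)

section defs

variable {X Ω : Type} [Fintype X] [Fintype Ω] (own : X → Ω → Prop)

/-- The weight of the own labels of `x`. -/
noncomputable def aO (q : Ω → ℝ) (x : X) : ℝ := ∑ g, if own x g then q g else 0

/-- The weight `ν / a` on `W`. -/
noncomputable def zO (ν : X → ℝ) (q : Ω → ℝ) (W : Finset X) (x : X) : ℝ :=
  if x ∈ W then ν x / aO own q x else 0

/-- The sum of the weights `ν / a` of the own nodes of `g` in `W`. -/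
noncomputable def dO (ν : X → ℝ) (q : Ω → ℝ) (W : Finset X) (g : Ω) : ℝ :=
  ∑ x, if own x g then zO own ν q W x else 0

/-- The sum of `K x x'` over the mates `x`, `x'` in `W` with the labels `g` of weight `q`; the total
weight of the mates is `ν W`. -/
noncomputable def lO (ν : X → ℝ) (q : Ω → ℝ) (W : Finset X) (K : X → X → ℝ) : ℝ :=
  ∑ g, q g / dO own ν q W g * ∑ x, ∑ x', (if own x g then zO own ν q W x else 0) *
    (if own x' g then zO own ν q W x' else 0) * K x x'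

/-- The vertex `u` is thin for the nodes of the class `k`. -/
def Thin {V ι : Type} (G : SimpleGraph V) (vX : X → V) (cl : X → ι) (ν : X → ℝ) (q : Ω → ℝ)
    (W : Finset X) (ξ : ℝ) (k : ι) (u : V) : Prop :=
  ∀ t, 0 < t → ∑ v ∈ W.filter (fun v => cl v = k ∧ (vX v = u ∨ G.Adj (vX v) u) ∧
    aO own q v ≤ t), ν v ≤ ξ * t

end defs

/-- The stages `c ∈ A` with the weights `ρ c` of the labels, and the node measure `ν` on `W`. -/
structure UK {V X Ω Λ Hi ι : Type} [Fintype X] [Fintype Ω] [Fintype Λ] (G : SimpleGraph V)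
    (vX : X → V) (vO : Ω → V) (hX : X → Hi) (hO : Ω → Hi) (P : ℕ → Hi → ι)
    (own : ℕ → X → Ω → Prop) (W : Finset X) (ν : X → ℝ) (ρ b : ℕ → Ω → ℝ)
    (φ : ℕ → X → Λ → ℝ) (A : Finset ℕ) (Γ T H e0 ξ : ℝ) : Prop where
  ref : ∀ c ∈ A, ∀ s ∈ A, c < s → ∀ h h', P s h = P s h' → P c h = P c h'
  inc : ∀ c ∈ A, ∀ x g, own c x g → G.Adj (vX x) (vO g) ∧ P c (hX x) = P c (hO g)
  ν0 : ∀ x, 0 ≤ ν x
  ρ0 : ∀ c ∈ A, ∀ y, 0 ≤ ρ c y
  ρ1 : ∀ c ∈ A, ∑ y, ρ c y ≤ 1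
  ap : ∀ c ∈ A, ∀ x ∈ W, 0 < aO (own c) (ρ c) x
  /-- the scales of the labels -/
  bp : ∀ c ∈ A, ∀ g, ρ c g ≠ 0 → 0 < b c g
  sc1 : ∀ c ∈ A, ∀ x ∈ W, ∀ g, own c x g → ρ c g ≠ 0 → b c g ≤ aO (own c) (ρ c) x
  sc2 : ∀ c ∈ A, ∀ x ∈ W, ∀ g, own c x g → ρ c g ≠ 0 → aO (own c) (ρ c) x ≤ T * b c g
  /-- nodes and later hubs are thin -/
  thX : ∀ c ∈ A, ∀ z ∈ W, Thin (own c) G vX (fun v => P c (hX v)) ν (ρ c) W ξ (P c (hX z)) (vX z)
  thO : ∀ c ∈ A, ∀ s ∈ A, c < s → ∀ g, ρ s g ≠ 0 →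
    Thin (own c) G vX (fun v => P c (hX v)) ν (ρ c) W ξ (P c (hO g)) (vO g)
  /-- nodes and later hubs are no hubs -/
  neX : ∀ c ∈ A, ∀ g, ρ c g ≠ 0 → ∀ z ∈ W, P c (hO g) = P c (hX z) → vO g ≠ vX z
  neO : ∀ c ∈ A, ∀ g, ρ c g ≠ 0 → ∀ s ∈ A, c < s → ∀ g', ρ s g' ≠ 0 →
    P c (hO g) = P c (hO g') → vO g ≠ vO g'
  /-- the share of the own labels of `x` which `u` sees -/
  sh : ∀ c ∈ A, ∀ x ∈ W, ∀ u ∈ W, P c (hX x) = P c (hX u) →
    aO (own c) (ρ c) u ≤ Γ * aO (own c) (ρ c) x →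
      ∑ g, (if own c x g ∧ G.Adj (vO g) (vX u) then ρ c g else 0) ≤
        (e0 + kk (φ c) x u) * aO (own c) (ρ c) x
  φ0 : ∀ c ∈ A, ∀ x g, 0 ≤ φ c x g
  φH : ∀ c ∈ A, ∀ x ∈ W, ∑ g, φ c x g ^ 2 ≤ H

/-- All items `(S, s)` with `|S| = m` are unlinked, for all parts `W'` of the nodes which are not
small and all weights `q ≤ ρ s` of the labels which keep a part of the own labels of the nodes in
`W'`. -/
def UnlkK {X Ω Λ : Type} [Fintype X] [Fintype Ω] [Fintype Λ] (own : ℕ → X → Ω → Prop)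
    (W : Finset X) (ν : X → ℝ) (ρ : ℕ → Ω → ℝ) (φ : ℕ → X → Λ → ℝ) (A : Finset ℕ) (m : ℕ)
    (th c1 ε : ℝ) : Prop :=
  ∀ s ∈ A, ∀ S, S ⊆ A → (∀ c ∈ S, c < s) → S.card = m → ∀ W', W' ⊆ W →
    th * ms ν W ≤ ms ν W' → ∀ q : Ω → ℝ, (∀ y, 0 ≤ q y) → (∀ y, q y ≤ ρ s y) →
      (∀ x ∈ W', c1 * aO (own s) (ρ s) x ≤ aO (own s) q x) →
        lO (own s) ν q W' (fun x x' => ∏ c ∈ S, kk (φ c) x x') ≤ ε * ms ν W'

/-- Pools of unlinked stages with labels. -/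
def StKUJ : Prop :=
  ∀ (M h m : ℕ) (F : ℝ), 1 ≤ F → ∃ e0 : ℝ, 0 < e0 ∧ ∀ T H : ℝ, 1 ≤ T → 1 ≤ H →
    ∃ (R : ℕ) (th ε : ℝ), 0 < th ∧ 0 < ε ∧ ∀ κ : ℝ, 0 < κ → ∃ ξ : ℝ, 0 < ξ ∧
      ∀ (V X Ω Λ Hi ι : Type) [Fintype V] [Fintype X] [Fintype Ω] [Fintype Λ]
        (G : SimpleGraph V) (vX : X → V) (vO : Ω → V) (hX : X → Hi) (hO : Ω → Hi)
        (P : ℕ → Hi → ι) (own : ℕ → X → Ω → Prop) (W : Finset X) (ν : X → ℝ)
        (ρ b : ℕ → Ω → ℝ) (φ : ℕ → X → Λ → ℝ) (A : Finset ℕ),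
        Frac G F → R ≤ A.card →
        UK G vX vO hX hO P own W ν ρ b φ A (2 * F) T H e0 ξ → κ ≤ ms ν W →
        UnlkK own W ν ρ φ A m th (1 / (2 * F)) ε →
          ∃ φ : List (Fin M) → V, Tree G h M φ

end Pool.Agent.Lib.FGK
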