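import Pool.Agent.Lib.FGK.ULE

/-!
# Pools of unlinked stages of localised equilibria on histories: the items
-/

set_option autoImplicit false

namespace Pool.Agent.Lib.FGK

open Finset Classical
open Pool.Agent.Lib.GSR3 (Stab Tree)
open Pool.Agent.Lib.FGF (ms Frac)
open Pool.Agent.Lib.GSLE (AM lkM lkM_le rhoM CM)

namespace UItem

open ULE KUJ

section one

variable {V Hi ι L : Type} [Fintype V] [Fintype Hi] [Fintype L]

/-- The node law of the class `p` inside `W`. -/
noncomputable def νp (P : Hi → ι) (Q : Hi → V → ℝ) (W : Finset (Hi × V)) (p : ι) (v : V) : ℝ :=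
  ∑ h, if P h = p ∧ (h, v) ∈ W then Q h v else 0

/-- The own mass for weights on the histories. -/
noncomputable def αq (P : Hi → ι) (own : ι → V → L → Prop) (q : Hi × L → ℝ) (p : ι) (v : V) :
    ℝ :=
  ∑ g : Hi × L, if P g.1 = p ∧ own p v g.2 then q g else 0

/-- The own kernel as a number. -/
noncomputable def kO (own : V → L → Prop) (v : V) (l : L) : ℝ := if own v l then 1 else 0

/-- The vertices of the nodes of the class `p` in `W`. -/
noncomputable def Wp (P : Hi → ι) (W : Finset (Hi × V)) (p : ι) : Finset V :=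
  Finset.univ.filter fun v => ∃ h, P h = p ∧ (h, v) ∈ W

variable {P : Hi → ι} {Q : Hi → V → ℝ} {W : Finset (Hi × V)} {own : ι → V → L → Prop}

omit [Fintype L] in
lemma νp_nonneg (hQ : ∀ h v, 0 ≤ Q h v) (p : ι) (v : V) : 0 ≤ νp P Q W p v :=
  Finset.sum_nonneg fun h _ => by
    split_ifs
    · exact hQ h v
    · exact le_rfl

omit [Fintype L] in
lemma νp_le (hQ : ∀ h v, 0 ≤ Q h v) (p : ι) (v : V) : νp P Q W p v ≤ nQ P Q p v := by
  unfold νp nQ
  refine Finset.sum_le_sum fun h _ => ?_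
  by_cases h1 : P h = p
  · rw [if_pos h1]
    split_ifs
    · exact le_rfl
    · exact hQ h v
  · rw [if_neg h1, if_neg fun h2 => h1 h2.1]

omit [Fintype V] in
lemma aO_eq_αq (q : Hi × L → ℝ) (x : Hi × V) :
    aO (oH P own) q x = αq P own q (P x.1) x.2 := by
  unfold aO αq
  refine Finset.sum_congr rfl fun g _ => ?_
  by_cases h : P g.1 = P x.1 ∧ own (P x.1) x.2 g.2
  · rw [if_pos h]
    exact if_pos ⟨h.1.symm, h.2⟩
  · rw [if_neg h]
    exact if_neg fun h' => h ⟨h'.1.symm, h'.2⟩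

/-- The own nodes over one vertex. -/
lemma sum_fib (q : Hi × L → ℝ) (h0 : Hi) (l : L) (v : V) :
    ∑ h, (if oH P own (h, v) (h0, l) then zO (oH P own) (fun z => Q z.1 z.2) q W (h, v) else 0) =
      νp P Q W (P h0) v * kO (own (P h0)) v l / αq P own q (P h0) v := by
  unfold νp kO
  rw [Finset.sum_mul, Finset.sum_div]
  refine Finset.sum_congr rfl fun h _ => ?_
  by_cases h1 : P h = P h0
  · by_cases h2 : own (P h0) v l
    · have h3 : oH P own (h, v) (h0, l) := ⟨h1, by simpa only [h1] using h2⟩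
      rw [if_pos h3, if_pos h2, mul_one]
      unfold zO
      by_cases h4 : (h, v) ∈ W
      · rw [if_pos h4, if_pos ⟨h1, h4⟩, aO_eq_αq]
        simp only [h1]
      · rw [if_neg h4, if_neg fun h5 => h4 h5.2, zero_div]
    · have h3 : ¬ oH P own (h, v) (h0, l) := fun h4 => h2 (by
        have := h4.2
        simpa only [h1] using this)
      rw [if_neg h3, if_neg h2]
      simp
  · have h3 : ¬ oH P own (h, v) (h0, l) := fun h4 => h1 h4.1
    rw [if_neg h3, if_neg fun h5 => h1 h5.1]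
    simp

lemma νp_ne {p : ι} {v : V} (h : νp P Q W p v ≠ 0) : v ∈ Wp P W p := by
  unfold νp at h
  obtain ⟨x, -, hx⟩ := Finset.exists_ne_zero_of_sum_ne_zero h
  rw [ne_eq, ite_eq_right_iff, Classical.not_imp] at hx
  unfold Wp
  rw [Finset.mem_filter]
  exact ⟨Finset.mem_univ _, x, hx.1⟩

/-- The weight of the linked mates is a sum over the histories. -/
lemma lO_eq_lkM (q : Hi × L → ℝ) (e : ι → V → V → ℝ) :
    lO (oH P own) (fun z : Hi × V => Q z.1 z.2) q W (fun x x' => e (P x.1) x.2 x'.2) =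
      ∑ h0, lkM (νp P Q W (P h0)) (αq P own q (P h0)) (fun l => q (h0, l))
        (kO (own (P h0))) (e (P h0)) (Wp P W (P h0)) := by
  unfold lO lkM
  rw [Fintype.sum_prod_type]
  refine Finset.sum_congr rfl fun h0 _ => Finset.sum_congr rfl fun l _ => ?_
  have hzero : ∀ v, v ∉ Wp P W (P h0) → νp P Q W (P h0) v = 0 := fun v hv => by
    by_contra h
    exact hv (νp_ne h)
  have hD : dO (oH P own) (fun z : Hi × V => Q z.1 z.2) q W (h0, l) =
      ∑ x ∈ Wp P W (P h0), νp P Q W (P h0) x * kO (own (P h0)) x l / αq P own q (P h0) x := by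
    unfold dO
    rw [Fintype.sum_prod_type_right, Finset.sum_congr rfl fun v _ => sum_fib q h0 l v]
    symm
    refine Finset.sum_subset (Finset.subset_univ _) fun v _ hv => ?_
    rw [hzero v hv]
    simp
  rw [hD]
  congr 1
  -- the double sum
  have h1 : ∀ x x' : Hi × V, (if oH P own x (h0, l) then
        zO (oH P own) (fun z : Hi × V => Q z.1 z.2) q W x else 0) *
      (if oH P own x' (h0, l) then
        zO (oH P own) (fun z : Hi × V => Q z.1 z.2) q W x' else 0) * e (P x.1) x.2 x'.2 =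
      (if oH P own x (h0, l) then
        zO (oH P own) (fun z : Hi × V => Q z.1 z.2) q W x else 0) *
      (if oH P own x' (h0, l) then
        zO (oH P own) (fun z : Hi × V => Q z.1 z.2) q W x' else 0) * e (P h0) x.2 x'.2 := by
    intro x x'
    by_cases h2 : oH P own x (h0, l)
    · have h3 : P x.1 = P h0 := h2.1
      rw [h3]
    · rw [if_neg h2]
      ring
  rw [Finset.sum_congr rfl fun x _ => Finset.sum_congr rfl fun x' _ => h1 x x']
  rw [Fintype.sum_prod_type_right]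
  have h2 : ∀ v, ∑ h, ∑ x' : Hi × V, (if oH P own (h, v) (h0, l) then
        zO (oH P own) (fun z : Hi × V => Q z.1 z.2) q W (h, v) else 0) *
      (if oH P own x' (h0, l) then
        zO (oH P own) (fun z : Hi × V => Q z.1 z.2) q W x' else 0) * e (P h0) v x'.2 =
      ∑ v', (νp P Q W (P h0) v * kO (own (P h0)) v l / αq P own q (P h0) v) *
        (νp P Q W (P h0) v' * kO (own (P h0)) v' l / αq P own q (P h0) v') * e (P h0) v v' := by
    intro v
    rw [← sum_fib q h0 l v]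
    have h3 : ∀ h, ∑ x' : Hi × V, (if oH P own (h, v) (h0, l) then
          zO (oH P own) (fun z : Hi × V => Q z.1 z.2) q W (h, v) else 0) *
        (if oH P own x' (h0, l) then
          zO (oH P own) (fun z : Hi × V => Q z.1 z.2) q W x' else 0) * e (P h0) v x'.2 =
        ∑ v', (if oH P own (h, v) (h0, l) then
          zO (oH P own) (fun z : Hi × V => Q z.1 z.2) q W (h, v) else 0) *
          (νp P Q W (P h0) v' * kO (own (P h0)) v' l / αq P own q (P h0) v') *
            e (P h0) v v' := by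
      intro h
      rw [Fintype.sum_prod_type_right]
      refine Finset.sum_congr rfl fun v' _ => ?_
      rw [← sum_fib q h0 l v', Finset.mul_sum, Finset.sum_mul]
    rw [Finset.sum_congr rfl fun h _ => h3 h, Finset.sum_comm]
    refine Finset.sum_congr rfl fun v' _ => ?_
    rw [Finset.sum_mul, Finset.sum_mul]
  rw [Finset.sum_congr rfl fun v _ => h2 v]
  symm
  refine Eq.trans (Finset.sum_subset (Finset.subset_univ (Wp P W (P h0)))
    (f := fun v => ∑ z ∈ Wp P W (P h0),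
      νp P Q W (P h0) v * kO (own (P h0)) v l / αq P own q (P h0) v *
        (νp P Q W (P h0) z * kO (own (P h0)) z l / αq P own q (P h0) z) * e (P h0) v z)
    fun v _ hv => ?_) ?_
  · refine Finset.sum_eq_zero fun z _ => ?_
    rw [hzero v hv]
    simp
  · refine Finset.sum_congr rfl fun v _ => ?_
    refine Finset.sum_subset (Finset.subset_univ (Wp P W (P h0))) fun z _ hz => ?_
    rw [hzero z hz]
    simp

/-- The node law of the classes, summed over the histories. -/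
lemma sum_νp (hQ : ∀ h v, 0 ≤ Q h v) :
    ∑ h0, mH Q h0 / MQ P Q (P h0) * ∑ x ∈ Wp P W (P h0), νp P Q W (P h0) x ≤
      ∑ z ∈ W, Q z.1 z.2 := by
  have h1 : ∀ h0, ∑ x ∈ Wp P W (P h0), νp P Q W (P h0) x =
      ∑ z ∈ W, if P z.1 = P h0 then Q z.1 z.2 else 0 := by
    intro h0
    have h2 : ∑ x ∈ Wp P W (P h0), νp P Q W (P h0) x = ∑ x, νp P Q W (P h0) x :=
      Finset.sum_subset (Finset.subset_univ _) fun v _ hv => by
        by_contra h
        exact hv (νp_ne h)
    rw [h2]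
    unfold νp
    have h3 : ∑ x, ∑ h, (if P h = P h0 ∧ (h, x) ∈ W then Q h x else 0) =
        ∑ z : Hi × V, if P z.1 = P h0 ∧ z ∈ W then Q z.1 z.2 else 0 := by
      rw [Fintype.sum_prod_type_right]
    rw [h3, ← Finset.sum_subset (Finset.subset_univ W)]
    · refine Finset.sum_congr rfl fun z hz => ?_
      by_cases h4 : P z.1 = P h0
      · rw [if_pos h4, if_pos ⟨h4, hz⟩]
      · rw [if_neg h4, if_neg fun h5 => h4 h5.1]
    · intro z _ hz
      rw [if_neg fun h5 => hz h5.2]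
  rw [Finset.sum_congr rfl fun h0 _ => by rw [h1 h0, Finset.mul_sum], Finset.sum_comm]
  refine Finset.sum_le_sum fun z _ => ?_
  have h4 : ∀ h0, mH Q h0 / MQ P Q (P h0) * (if P z.1 = P h0 then Q z.1 z.2 else 0) =
      (if P h0 = P z.1 then mH Q h0 else 0) * (Q z.1 z.2 / MQ P Q (P z.1)) := by
    intro h0
    by_cases h5 : P z.1 = P h0
    · rw [if_pos h5, if_pos h5.symm, ← h5]
      ring
    · rw [if_neg h5, if_neg fun h6 => h5 h6.symm]
      ring
  rw [Finset.sum_congr rfl fun h0 _ => h4 h0, ← Finset.sum_mul]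
  change MQ P Q (P z.1) * (Q z.1 z.2 / MQ P Q (P z.1)) ≤ Q z.1 z.2
  by_cases h5 : MQ P Q (P z.1) = 0
  · rw [h5, zero_mul]
    exact hQ _ _
  · rw [mul_div_cancel₀ _ h5]

end one

section main

variable {V Hi ι L : Type} [Fintype V] [Fintype Hi] [Fintype L] {G : SimpleGraph V}
  {vy : L → V} {b : L → ℝ} {P : ℕ → Hi → ι} {Q : Hi → V → ℝ} {W : Finset (Hi × V)}
  {a : ℕ → ι → V → ℝ} {π ρ : ℕ → ι → L → ℝ} {own : ℕ → ι → V → L → Prop}
  {Zt : ℕ → ι → V → Prop} {A : Finset ℕ} {T0 ca ξ : ℝ}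

/-- One history. -/
lemma one_hist (hS : US G vy b P Q W a π ρ own Zt A T0 ca ξ) (hT0 : 1 ≤ T0) {S : Finset ℕ}
    {s : ℕ} (hs : s ∈ A) {k : ι → V → L → ℝ} {lo : ι → L → V → ℝ} {e : ι → V → V → ℝ}
    {w ε3 ε1 : ℝ} (hI : NoI P Q W a π own A S s k lo e T0 w ε3 ε1) {W' : Finset (Hi × V)}
    (hW : W' ⊆ W) {q : Hi × L → ℝ} (hq0 : ∀ g, 0 ≤ q g)
    (hqρ : ∀ g, q g ≤ rH (P s) Q (ρ s) g) {c1 : ℝ} (hc1 : 0 < c1)
    (hqa : ∀ x ∈ W', c1 * (MQ (P s) Q (P s x.1) * a s (P s x.1) x.2) ≤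
      aO (oH (P s) (own s)) q x) {η : ℝ} (hη : 0 < η) (h0 : Hi) :
    lkM (νp (P s) Q W' (P s h0)) (αq (P s) (own s) q (P s h0)) (fun l => q (h0, l))
        (kO (own s (P s h0))) (e (P s h0)) (Wp (P s) W' (P s h0)) ≤
      η * ∑ l, q (h0, l) + (T0 ^ 2 * ε1 / (c1 ^ 2 * η) + T0 * ε3 / c1) *
        (mH Q h0 / MQ (P s) Q (P s h0) *
          ∑ x ∈ Wp (P s) W' (P s h0), νp (P s) Q W' (P s h0) x) := by
  have hT00 : 0 < T0 := by linarith
  have hQ0 := hS.Q0
  rcases (mH_nonneg hQ0 h0).eq_or_lt with hm | hm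
  · -- a history of mass zero
    have hq : ∀ l, q (h0, l) = 0 := by
      intro l
      refine le_antisymm ?_ (hq0 _)
      refine (hqρ (h0, l)).trans (le_of_eq ?_)
      unfold rH
      simp only
      rw [← hm, zero_mul]
    have h1 : lkM (νp (P s) Q W' (P s h0)) (αq (P s) (own s) q (P s h0)) (fun l => q (h0, l))
        (kO (own s (P s h0))) (e (P s h0)) (Wp (P s) W' (P s h0)) = 0 := by
      unfold lkM
      refine Finset.sum_eq_zero fun l _ => ?_
      simp only
      rw [hq l, zero_div, zero_mul]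
    rw [h1, ← hm]
    simp only [hq, Finset.sum_const_zero, mul_zero, zero_div, zero_mul, add_zero, le_refl]
  set p := P s h0 with hp
  set Mp := MQ (P s) Q p with hMp
  have hM : 0 < Mp := lt_of_lt_of_le hm (le_MQ hQ0 h0)
  have hasp : ∀ x, 0 < a s p x := fun x => hS.a0 s hs p x
  have hπ0 : ∀ l, 0 ≤ π s p l := fun l => (hS.ρ0 s hs p l).trans (hS.ρπ s hs p l)
  have hkO0 : ∀ x l, 0 ≤ kO (own s p) x l := fun x l => by
    unfold kO
    split_ifs <;> norm_num
  have hkOk : ∀ x l, kO (own s p) x l ≤ T0 * k p x l := fun x l => by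
    unfold kO
    split_ifs with h
    · exact hI.kown p x l h
    · exact mul_nonneg hT00.le (hI.k0 p x l)
  have hWmem : ∀ x ∈ Wp (P s) W' p, ∃ h, P s h = p ∧ (h, x) ∈ W' := fun x hx =>
    (Finset.mem_filter.1 hx).2
  have key := lkM_le (n := nQ (P s) Q p) (a := fun x => Mp * a s p x)
    (π := fun l => mH Q h0 * π s p l) (k := kO (own s p)) (lo := lo p) (e := e p)
    (fun x => mul_pos hM (hasp x)) (fun x => nQ_nonneg hQ0 p x) hkO0 (fun l x => hI.lo0 p l x)
    (fun l x => hI.lo1 p l x) (fun x z => hI.e0 p x z) (fun x z => hI.e1 p x z)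
    (ν := νp (P s) Q W' p) (aq := αq (P s) (own s) q p) (q := fun l => q (h0, l))
    (fun x => νp_nonneg hQ0 p x) (fun x => νp_le hQ0 p x) (fun l => hq0 _)
    (fun l => by
      refine (hqρ (h0, l)).trans ?_
      unfold rH
      exact mul_le_mul_of_nonneg_left (hS.ρπ s hs _ l) hm.le)
    (W := Wp (P s) W' p) (c₁ := c1) hc1
    (fun x hx => by
      obtain ⟨h, hh, hxW⟩ := hWmem x hx
      have h1 := hqa (h, x) hxW
      rw [aO_eq_αq] at h1
      simp only [hh] at h1
      exact h1)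
    (ε := mH Q h0 / Mp * (T0 ^ 2 * ε1))
    (fun x hx => by
      obtain ⟨h, hh, hxW⟩ := hWmem x hx
      have h1 := hI.no (h, x) (hW hxW)
      simp only [hh] at h1
      have h2 : AM (nQ (P s) Q p) (fun x => Mp * a s p x) (fun l => mH Q h0 * π s p l)
          (kO (own s p)) (lo p) (e p) x ≤ mH Q h0 * T0 ^ 2 *
          AM (fun x => nQ (P s) Q p x / MQ (P s) Q p) (a s p) (π s p) (k p) (lo p) (e p) x := by
        unfold AM
        rw [Finset.mul_sum]
        refine Finset.sum_le_sum fun g _ => ?_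
        unfold rhoM CM
        have h3 : nQ (P s) Q p g.2 / (Mp * a s p g.2) =
            nQ (P s) Q p g.2 / MQ (P s) Q p / a s p g.2 := by
          rw [← hMp, div_div]
        rw [h3]
        have h4 : 0 ≤ nQ (P s) Q p g.2 / MQ (P s) Q p / a s p g.2 :=
          div_nonneg (div_nonneg (nQ_nonneg hQ0 p _) hM.le) (hasp _).le
        have h5 := hI.lo0 p g.1 g.2
        have h6 := hI.e0 p x g.2
        have h7 := hπ0 g.1
        have h8 : kO (own s p) g.2 g.1 * kO (own s p) x g.1 ≤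
            (T0 * k p g.2 g.1) * (T0 * k p x g.1) :=
          mul_le_mul (hkOk _ _) (hkOk _ _) (hkO0 _ _) (mul_nonneg hT00.le (hI.k0 _ _ _))
        have h9 : 0 ≤ mH Q h0 * π s p g.1 *
            (nQ (P s) Q p g.2 / MQ (P s) Q p / a s p g.2 * lo p g.1 g.2 * e p x g.2) :=
          mul_nonneg (mul_nonneg hm.le h7) (mul_nonneg (mul_nonneg h4 h5) h6)
        calc mH Q h0 * π s p g.1 * (nQ (P s) Q p g.2 / MQ (P s) Q p / a s p g.2 *
              kO (own s p) g.2 g.1 * lo p g.1 g.2) * (kO (own s p) x g.1 * e p x g.2) =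
            mH Q h0 * π s p g.1 * (nQ (P s) Q p g.2 / MQ (P s) Q p / a s p g.2 *
              lo p g.1 g.2 * e p x g.2) * (kO (own s p) g.2 g.1 * kO (own s p) x g.1) := by
              ring
          _ ≤ mH Q h0 * π s p g.1 * (nQ (P s) Q p g.2 / MQ (P s) Q p / a s p g.2 *
              lo p g.1 g.2 * e p x g.2) * ((T0 * k p g.2 g.1) * (T0 * k p x g.1)) :=
              mul_le_mul_of_nonneg_left h8 h9
          _ = _ := by ring
      refine h2.trans ?_
      have h10 : 0 ≤ mH Q h0 * T0 ^ 2 := by positivity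
      refine (mul_le_mul_of_nonneg_left h1 h10).trans (le_of_eq ?_)
      field_simp)
    (ε₃ := mH Q h0 / Mp * (T0 * ε3))
    (fun x hx => by
      obtain ⟨h, hh, hxW⟩ := hWmem x hx
      have h1 := hI.low (h, x) (hW hxW)
      simp only [hh] at h1
      have h2 : ∑ l, mH Q h0 * π s p l * kO (own s p) x l * (1 - lo p l x) ≤
          mH Q h0 * T0 * ∑ l, π s p l * k p x l * (1 - lo p l x) := by
        rw [Finset.mul_sum]
        refine Finset.sum_le_sum fun l _ => ?_
        have h3 : 0 ≤ 1 - lo p l x := by linarith [hI.lo1 p l x]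
        have h4 : 0 ≤ mH Q h0 * π s p l * (1 - lo p l x) :=
          mul_nonneg (mul_nonneg hm.le (hπ0 l)) h3
        calc mH Q h0 * π s p l * kO (own s p) x l * (1 - lo p l x) =
            mH Q h0 * π s p l * (1 - lo p l x) * kO (own s p) x l := by ring
          _ ≤ mH Q h0 * π s p l * (1 - lo p l x) * (T0 * k p x l) :=
              mul_le_mul_of_nonneg_left (hkOk x l) h4
          _ = _ := by ring
      refine h2.trans ?_
      have h5 : 0 ≤ mH Q h0 * T0 := by positivity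
      refine (mul_le_mul_of_nonneg_left h1 h5).trans (le_of_eq ?_)
      field_simp)
    hη
  refine key.trans (le_of_eq ?_)
  ring

/-- The items. -/
lemma item_le (hS : US G vy b P Q W a π ρ own Zt A T0 ca ξ) (hT0 : 1 ≤ T0) (hca : 0 < ca)
    {S : Finset ℕ} {s m : ℕ} (hs : s ∈ A) (hSA : S ⊆ A) (hSs : ∀ c ∈ S, c < s)
    (hSm : S.card = m) {k : ι → V → L → ℝ} {lo : ι → L → V → ℝ} {e : ι → V → V → ℝ}
    {w ε3 ε1 F Υ H η : ℝ} (hF : 1 ≤ F) (hΥ : 1 ≤ Υ) (hw : w = Υ ^ 2)
    (hH : T0 / ca * (Υ * Real.sqrt Υ) = H) (hη : 0 < η)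
    (hI : NoI P Q W a π own A S s k lo e T0 w ε3 ε1) {W' : Finset (Hi × V)}
    (hW : W' ⊆ W) {q : Hi × L → ℝ} (hq0 : ∀ g, 0 ≤ q g)
    (hqρ : ∀ g, q g ≤ rH (P s) Q (ρ s) g)
    (hqa : ∀ x ∈ W', 1 / (2 * F) * aO (oH (P s) (own s)) (rH (P s) Q (ρ s)) x ≤
      aO (oH (P s) (own s)) q x) :
    lO (oH (P s) (own s)) (fun z : Hi × V => Q z.1 z.2) q W'
      (fun x x' => ∏ c ∈ S, kk (ph G vy b (P c) (a c) (π c) (T0 / ca) Υ) x x') ≤
      H ^ m * (η + (T0 ^ 2 * ε1 / ((ca / (2 * F)) ^ 2 * η) + T0 * ε3 / (ca / (2 * F))) *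
        ∑ z ∈ W', Q z.1 z.2) := by
  have hT00 : 0 < T0 := by linarith
  have hQ0 := hS.Q0
  have hH0 : 0 ≤ H := by
    rw [← hH]
    positivity
  have hΥ0 : 0 ≤ Υ := by linarith
  have hkk0 : ∀ c ∈ A, ∀ x x' : Hi × V,
      0 ≤ kk (ph G vy b (P c) (a c) (π c) (T0 / ca) Υ) x x' := fun c _ x x' =>
    Finset.sum_nonneg fun l _ => mul_nonneg (ph_nonneg _ _ _ _ _ _ _) (ph_nonneg _ _ _ _ _ _ _)
  have hkkH : ∀ c ∈ A, ∀ x x' : Hi × V,
      kk (ph G vy b (P c) (a c) (π c) (T0 / ca) Υ) x x' ≤ H := by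
    intro c hc x x'
    have h1 := ph_sq (K := T0 / ca) hS (by positivity) hΥ hc x
    have h2 := ph_sq (K := T0 / ca) hS (by positivity) hΥ hc x'
    rw [hH] at h1 h2
    unfold kk
    have h3 : ∑ l, ph G vy b (P c) (a c) (π c) (T0 / ca) Υ x l *
        ph G vy b (P c) (a c) (π c) (T0 / ca) Υ x' l ≤
        ∑ l, (ph G vy b (P c) (a c) (π c) (T0 / ca) Υ x l ^ 2 +
          ph G vy b (P c) (a c) (π c) (T0 / ca) Υ x' l ^ 2) / 2 := by
      refine Finset.sum_le_sum fun l _ => ?_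
      nlinarith [sq_nonneg (ph G vy b (P c) (a c) (π c) (T0 / ca) Υ x l -
        ph G vy b (P c) (a c) (π c) (T0 / ca) Υ x' l)]
    rw [← Finset.sum_div, Finset.sum_add_distrib] at h3
    linarith
  -- comparison of the kernels
  have hstep1 : lO (oH (P s) (own s)) (fun z : Hi × V => Q z.1 z.2) q W'
      (fun x x' => ∏ c ∈ S, kk (ph G vy b (P c) (a c) (π c) (T0 / ca) Υ) x x') ≤
      H ^ m * lO (oH (P s) (own s)) (fun z : Hi × V => Q z.1 z.2) q W'
        (fun x x' => e (P s x.1) x.2 x'.2) := by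
    rw [lO_eq, lO_eq, Finset.mul_sum]
    refine Finset.sum_le_sum fun t _ => ?_
    have hpw := pw_nonneg (own := oH (P s) (own s)) (ν := fun z : Hi × V => Q z.1 z.2)
      (fun z => hQ0 z.1 z.2) hq0 W' t
    by_cases ht : pw (oH (P s) (own s)) (fun z : Hi × V => Q z.1 z.2) q W' t = 0
    · rw [ht]
      simp
    · have ho1 : oH (P s) (own s) t.2.1 t.1 := by
        by_contra h
        apply ht
        unfold pw
        rw [if_neg h]
        simp
      have ho2 : oH (P s) (own s) t.2.2 t.1 := by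
        by_contra h
        apply ht
        unfold pw
        rw [if_neg h]
        simp
      have hcl : P s t.2.1.1 = P s t.2.2.1 := ho1.1.trans ho2.1.symm
      have hK : ∏ c ∈ S, kk (ph G vy b (P c) (a c) (π c) (T0 / ca) Υ) t.2.1 t.2.2 ≤
          H ^ m * e (P s t.2.1.1) t.2.1.2 t.2.2.2 := by
        by_cases hall : ∀ c ∈ S, kk (ph G vy b (P c) (a c) (π c) (T0 / ca) Υ) t.2.1 t.2.2 ≠ 0
        · have he : e (P s t.2.1.1) t.2.1.2 t.2.2.2 = 1 := by
            refine hI.ew t.2.1.1 t.2.2.1 _ _ hcl fun c hc => ?_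
            have h1 := kk_ph_ne hΥ0 (hall c hc)
            have h2 : P c t.2.1.1 = P c t.2.2.1 := hS.ref c (hSA hc) s hs (hSs c hc) _ _ hcl
            rw [hw, h2]
            rw [h2] at h1
            exact h1
          rw [he, mul_one, ← hSm, ← Finset.prod_const]
          exact Finset.prod_le_prod (fun c hc => hkk0 c (hSA hc) _ _)
            fun c hc => hkkH c (hSA hc) _ _
        · push Not at hall
          obtain ⟨c, hc, h1⟩ := hall
          rw [Finset.prod_eq_zero hc h1]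
          exact mul_nonneg (pow_nonneg hH0 m) (hI.e0 _ _ _)
      calc _ ≤ _ := mul_le_mul_of_nonneg_left hK hpw
        _ = _ := by ring
  refine hstep1.trans (mul_le_mul_of_nonneg_left ?_ (pow_nonneg hH0 m))
  rw [lO_eq_lkM]
  have hc1 : 0 < ca / (2 * F) := by positivity
  have hqa' : ∀ x ∈ W', ca / (2 * F) * (MQ (P s) Q (P s x.1) * a s (P s x.1) x.2) ≤
      aO (oH (P s) (own s)) q x := by
    intro x hx
    refine le_trans ?_ (hqa x hx)
    rw [aO_eq]
    have h1 := hS.sha s hs x (hW hx)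
    have h2 := MQ_nonneg (P := P s) hQ0 (P s x.1)
    calc ca / (2 * F) * (MQ (P s) Q (P s x.1) * a s (P s x.1) x.2) =
        1 / (2 * F) * (MQ (P s) Q (P s x.1) * (ca * a s (P s x.1) x.2)) := by ring
      _ ≤ _ := by
          refine mul_le_mul_of_nonneg_left ?_ (by positivity)
          exact mul_le_mul_of_nonneg_left h1 h2
  have h1 := fun h0 => one_hist hS hT0 hs hI hW hq0 hqρ hc1 hqa' hη h0
  refine (Finset.sum_le_sum fun h0 _ => h1 h0).trans ?_
  rw [Finset.sum_add_distrib, ← Finset.mul_sum, ← Finset.mul_sum]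
  refine add_le_add ?_ ?_
  · have h2 : ∑ h0, ∑ l, q (h0, l) ≤ 1 := by
      refine le_trans (Finset.sum_le_sum fun h0 _ => ?_) hS.Q1
      calc ∑ l, q (h0, l) ≤ ∑ l, mH Q h0 * ρ s (P s h0) l :=
            Finset.sum_le_sum fun l _ => hqρ (h0, l)
        _ = mH Q h0 * ∑ l, ρ s (P s h0) l := by rw [Finset.mul_sum]
        _ ≤ mH Q h0 * 1 := by
            refine mul_le_mul_of_nonneg_left ?_ (mH_nonneg hQ0 h0)
            exact (Finset.sum_le_sum fun l _ => hS.ρπ s hs _ l).trans (hS.π1 s hs _)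
        _ = mH Q h0 := mul_one _
    calc η * ∑ h0, ∑ l, q (h0, l) ≤ η * 1 := mul_le_mul_of_nonneg_left h2 hη.le
      _ = η := mul_one _
  · by_cases hneg : 0 ≤ T0 ^ 2 * ε1 / ((ca / (2 * F)) ^ 2 * η) + T0 * ε3 / (ca / (2 * F))
    · exact mul_le_mul_of_nonneg_left (sum_νp hQ0) hneg
    · -- impossible unless `W'` is empty
      push Not at hneg
      by_cases hne : W'.Nonempty
      · exfalso
        obtain ⟨z, hz⟩ := hne
        have hzW := hW hz
        have ha := hS.a0 s hs (P s z.1) z.2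
        have h3 : 0 ≤ ε3 * a s (P s z.1) z.2 := by
          refine le_trans (Finset.sum_nonneg fun l _ => ?_) (hI.low z hzW)
          refine mul_nonneg (mul_nonneg ((hS.ρ0 s hs _ l).trans (hS.ρπ s hs _ l))
            (hI.k0 _ _ _)) ?_
          linarith [hI.lo1 (P s z.1) l z.2]
        have h4 : 0 ≤ ε1 * a s (P s z.1) z.2 := by
          refine le_trans (Finset.sum_nonneg fun g _ => ?_) (hI.no z hzW)
          refine mul_nonneg (mul_nonneg ((hS.ρ0 s hs _ _).trans (hS.ρπ s hs _ _))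
            (mul_nonneg (mul_nonneg (div_nonneg (div_nonneg (nQ_nonneg hQ0 _ _)
              (MQ_nonneg hQ0 _)) (hS.a0 s hs _ _).le) (hI.k0 _ _ _)) (hI.lo0 _ _ _)))
            (mul_nonneg (hI.k0 _ _ _) (hI.e0 _ _ _))
        have h5 : 0 ≤ ε3 := le_of_mul_le_mul_right (by rw [zero_mul]; exact h3) ha
        have h6 : 0 ≤ ε1 := le_of_mul_le_mul_right (by rw [zero_mul]; exact h4) ha
        have h7 : 0 ≤ T0 ^ 2 * ε1 / ((ca / (2 * F)) ^ 2 * η) + T0 * ε3 / (ca / (2 * F)) := by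
          positivity
        linarith
      · rw [Finset.not_nonempty_iff_eq_empty] at hne
        subst hne
        have h3 : ∀ h0, ∑ x ∈ Wp (P s) (∅ : Finset (Hi × V)) (P s h0),
            νp (P s) Q ∅ (P s h0) x = 0 := fun h0 =>
          Finset.sum_eq_zero fun x _ => Finset.sum_eq_zero fun h _ => by simp
        simp [h3]

end main

end UItem

open ULE KUJ UItem in
/-- Pools of unlinked stages of localised equilibria on histories. -/
theorem stULE : StULE := by
  intro M h m F T0 ca hF hT0 hca hca1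
  have hT00 : 0 < T0 := by linarith
  have hF0 : 0 < F := by linarith
  obtain ⟨e0, he0, hL⟩ := stKUJ M h m F hF
  set δ : ℝ := min (1 / T0) ((ca * e0 / T0) ^ 2 / T0) with hδdef
  have hδ : 0 < δ := lt_min (by positivity) (by positivity)
  have hδT : δ * T0 ≤ 1 := by
    have := min_le_left (1 / T0) ((ca * e0 / T0) ^ 2 / T0)
    rw [← hδdef, le_div_iff₀ hT00] at this
    exact this
  have hδe : T0 * Real.sqrt (δ * T0) ≤ ca * e0 := by
    have h1 := min_le_right (1 / T0) ((ca * e0 / T0) ^ 2 / T0)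
    rw [← hδdef, le_div_iff₀ hT00] at h1
    have h2 : Real.sqrt (δ * T0) ≤ ca * e0 / T0 := by
      rw [Real.sqrt_le_left (by positivity)]
      exact h1
    rw [le_div_iff₀ hT00] at h2
    linarith
  set CT : ℝ := 2 * F * (T0 * (T0 * Real.sqrt T0)) / ca * T0 with hCT
  set Υ : ℝ := max (max 1 (T0 / δ)) CT with hΥdef
  have hΥ : 1 ≤ Υ := (le_max_left _ _).trans (le_max_left _ _)
  have hΥ1 : T0 ≤ Υ * δ := by
    have : T0 / δ ≤ Υ := (le_max_right _ _).trans (le_max_left _ _)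
    rwa [div_le_iff₀ hδ] at this
  have hΥ2 : CT ≤ Υ := le_max_right _ _
  have hΥ0 : 0 < Υ := by linarith
  set T : ℝ := T0 * (T0 * Real.sqrt T0) * T0 * T0 / ca with hTdef
  set H : ℝ := T0 / ca * (Υ * Real.sqrt Υ) with hHdef
  have hsq1 : 1 ≤ Real.sqrt T0 := Real.one_le_sqrt.mpr hT0
  have hsqΥ : 1 ≤ Real.sqrt Υ := Real.one_le_sqrt.mpr hΥ
  have hT : 1 ≤ T := by
    rw [hTdef, le_div_iff₀ hca, one_mul]
    refine hca1.trans ?_
    have h1 : 1 ≤ T0 * Real.sqrt T0 := by nlinarith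
    have h2 : 1 ≤ T0 * (T0 * Real.sqrt T0) := by nlinarith
    have h3 : 1 ≤ T0 * (T0 * Real.sqrt T0) * T0 := by nlinarith
    nlinarith
  have hH : 1 ≤ H := by
    have h1 : 1 ≤ T0 / ca := by
      rw [le_div_iff₀ hca]
      linarith
    have h2 : 1 ≤ Υ * Real.sqrt Υ := by nlinarith
    rw [hHdef]
    nlinarith
  obtain ⟨R, th, ε, hth, hε, hL⟩ := hL T H hT hH
  set E : ℝ := ε / (3 * H ^ m) with hE
  have hHm : 0 < H ^ m := by positivity
  have hE0 : 0 < E := by positivity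
  set c1 : ℝ := ca / (2 * F) with hc1
  have hc10 : 0 < c1 := by positivity
  refine ⟨Υ ^ 2, R, c1 * E / T0, one_le_pow₀ hΥ, by positivity, ?_⟩
  intro κ hκ
  set η : ℝ := E * (th * κ) with hη
  have hη0 : 0 < η := by positivity
  obtain ⟨ξ, hξ, hL⟩ := hL κ hκ
  refine ⟨c1 ^ 2 * η * E / T0 ^ 2, ξ * ca, by positivity, by positivity, ?_⟩
  intro V Hi ι L _ _ _ G vy b P Q W a π ρ own Zt A k lo e hG hA hS hκW hI
  have huk := uk_of_us hS hT0 hca hF hδ hδT hδe he0.le hΥ hΥ1 hΥ2 (by positivity)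
  have hξca : ξ * ca / ca = ξ := mul_div_cancel_right₀ _ hca.ne'
  rw [hξca] at huk
  refine hL V (Hi × V) (Hi × L) L Hi ι G _ _ _ _ P _ W _ _ _ _ A hG hA huk hκW ?_
  intro s hs S hSA hSs hSm W' hW' hthW q hq0 hqρ hqa
  have h1 := item_le hS hT0 hca hs hSA hSs hSm hF hΥ rfl hHdef.symm hη0
    (hI s hs S hSA hSs hSm) hW' hq0 hqρ hqa
  refine h1.trans ?_
  have hms : ms (fun z : Hi × V => Q z.1 z.2) W' = ∑ z ∈ W', Q z.1 z.2 := rfl
  rw [hms]
  have hηW : η ≤ E * ∑ z ∈ W', Q z.1 z.2 := by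
    rw [hη]
    refine mul_le_mul_of_nonneg_left ?_ hE0.le
    refine le_trans ?_ hthW
    exact mul_le_mul_of_nonneg_left hκW hth.le
  have h2 : T0 ^ 2 * (c1 ^ 2 * η * E / T0 ^ 2) / ((ca / (2 * F)) ^ 2 * η) = E := by
    rw [← hc1]
    field_simp
  have h3 : T0 * (c1 * E / T0) / (ca / (2 * F)) = E := by
    rw [← hc1]
    field_simp
  rw [h2, h3]
  have h4 : η + (E + E) * ∑ z ∈ W', Q z.1 z.2 ≤ 3 * E * ∑ z ∈ W', Q z.1 z.2 := by linarith
  calc H ^ m * (η + (E + E) * ∑ z ∈ W', Q z.1 z.2)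
      ≤ H ^ m * (3 * E * ∑ z ∈ W', Q z.1 z.2) := mul_le_mul_of_nonneg_left h4 hHm.le
    _ = ε * ∑ z ∈ W', Q z.1 z.2 := by
        rw [hE]
        field_simp

end Pool.Agent.Lib.FGK
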