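import Pool.Agent.Lib.FGK.LDefs

/-!
# Pools of unlinked stages of localised equilibria on histories
-/

set_option autoImplicit false

namespace Pool.Agent.Lib.FGK

open Finset Classical
open Pool.Agent.Lib.GSR3 (Stab Tree)
open Pool.Agent.Lib.FGF (ms Frac)
open Pool.Agent.Lib.GSLE (AM lkM lkM_le rhoM CM)

namespace ULE

section defs

variable {V Hi ι L : Type} [Fintype V] [Fintype Hi] [Fintype L]

/-- The weights of the labels on the histories. -/
noncomputable def rH (P : Hi → ι) (Q : Hi → V → ℝ) (ρ : ι → L → ℝ) (g : Hi × L) : ℝ :=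
  mH Q g.1 * ρ (P g.1) g.2

/-- The own relation on the histories. -/
def oH (P : Hi → ι) (own : ι → V → L → Prop) (x : Hi × V) (g : Hi × L) : Prop :=
  P x.1 = P g.1 ∧ own (P x.1) x.2 g.2

/-- The own mass of the vertex `x` in the class `p`. -/
noncomputable def aL (own : V → L → Prop) (ρ : L → ℝ) (x : V) : ℝ :=
  ∑ l, if own x l then ρ l else 0

lemma mH_nonneg {Q : Hi → V → ℝ} (h : ∀ h v, 0 ≤ Q h v) (x : Hi) : 0 ≤ mH Q x :=
  Finset.sum_nonneg fun v _ => h x v

lemma MQ_nonneg {P : Hi → ι} {Q : Hi → V → ℝ} (h : ∀ h v, 0 ≤ Q h v) (p : ι) :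
    0 ≤ MQ P Q p :=
  Finset.sum_nonneg fun x _ => by
    split_ifs
    · exact mH_nonneg h x
    · exact le_rfl

lemma nQ_nonneg {P : Hi → ι} {Q : Hi → V → ℝ} (h : ∀ h v, 0 ≤ Q h v) (p : ι) (v : V) :
    0 ≤ nQ P Q p v :=
  Finset.sum_nonneg fun x _ => by
    split_ifs
    · exact h x v
    · exact le_rfl

lemma le_MQ {P : Hi → ι} {Q : Hi → V → ℝ} (h : ∀ h v, 0 ≤ Q h v) (x : Hi) :
    mH Q x ≤ MQ P Q (P x) := by
  unfold MQ
  refine le_trans (le_of_eq ?_) (Finset.single_le_sum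
    (f := fun y => if P y = P x then mH Q y else 0) (fun y _ => ?_) (Finset.mem_univ x))
  · rw [if_pos rfl]
  · split_ifs
    · exact mH_nonneg h y
    · exact le_rfl

lemma le_mH {Q : Hi → V → ℝ} (h : ∀ h v, 0 ≤ Q h v) (x : Hi) (v : V) : Q x v ≤ mH Q x :=
  Finset.single_le_sum (f := fun v => Q x v) (fun v _ => h x v) (Finset.mem_univ v)

/-- The sum over the labels of one class. -/
lemma sum_class {P : Hi → ι} {Q : Hi → V → ℝ} (ρ : ι → L → ℝ) (R : L → Prop) (p : ι) :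
    ∑ g : Hi × L, (if p = P g.1 ∧ R g.2 then rH P Q ρ g else 0) =
      MQ P Q p * ∑ l, if R l then ρ p l else 0 := by
  rw [Fintype.sum_prod_type]
  unfold MQ
  rw [Finset.sum_mul]
  refine Finset.sum_congr rfl fun h _ => ?_
  by_cases hp : P h = p
  · rw [if_pos hp, Finset.mul_sum]
    refine Finset.sum_congr rfl fun l _ => ?_
    by_cases hR : R l
    · rw [if_pos ⟨hp.symm, hR⟩, if_pos hR]
      unfold rH
      simp only
      rw [hp]
    · rw [if_neg fun h' => hR h'.2, if_neg hR, mul_zero]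
  · rw [if_neg hp, zero_mul]
    refine Finset.sum_eq_zero fun l _ => ?_
    rw [if_neg fun h' => hp h'.1.symm]

lemma aO_eq {P : Hi → ι} {Q : Hi → V → ℝ} (own : ι → V → L → Prop) (ρ : ι → L → ℝ)
    (x : Hi × V) :
    aO (oH P own) (rH P Q ρ) x = MQ P Q (P x.1) * aL (own (P x.1)) (ρ (P x.1)) x.2 := by
  unfold aO aL
  rw [← sum_class ρ (fun l => own (P x.1) x.2 l) (P x.1)]
  refine Finset.sum_congr rfl fun g _ => ?_
  by_cases h : P x.1 = P g.1 ∧ own (P x.1) x.2 g.2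
  · rw [if_pos h]
    exact if_pos h
  · rw [if_neg h]
    exact if_neg h

end defs

section uk

variable {V Hi ι L : Type} [Fintype V] [Fintype Hi] [Fintype L] {G : SimpleGraph V}
  {vy : L → V} {b : L → ℝ} {P : ℕ → Hi → ι} {Q : Hi → V → ℝ} {W : Finset (Hi × V)}
  {a : ℕ → ι → V → ℝ} {π ρ : ℕ → ι → L → ℝ} {own : ℕ → ι → V → L → Prop}
  {Zt : ℕ → ι → V → Prop} {A : Finset ℕ} {T0 ca ξ : ℝ}

/-- The link functions: the square roots of the weights of the labels of comparable scale. -/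
noncomputable def ph (G : SimpleGraph V) (vy : L → V) (b : L → ℝ) (P : Hi → ι) (a : ι → V → ℝ)
    (π : ι → L → ℝ) (K Υ : ℝ) (x : Hi × V) (l : L) : ℝ :=
  if G.Adj x.2 (vy l) ∧ a (P x.1) x.2 ≤ Υ * b l ∧ b l ≤ Υ * a (P x.1) x.2 then
    Real.sqrt (K * (π (P x.1) l / b l)) else 0

lemma ph_nonneg (P : Hi → ι) (a : ι → V → ℝ) (π : ι → L → ℝ) (K Υ : ℝ) (x : Hi × V) (l : L) :
    0 ≤ ph G vy b P a π K Υ x l := by
  unfold ph
  split_ifs
  · exact Real.sqrt_nonneg _
  · exact le_rfl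

/-- The bound of the own mass by the scale. -/
lemma aL_le (hS : US G vy b P Q W a π ρ own Zt A T0 ca ξ) (hT0 : 1 ≤ T0) {c : ℕ} (hc : c ∈ A)
    (p : ι) (x : V) : aL (own c p) (ρ c p) x ≤ T0 * (T0 * Real.sqrt T0) * a c p x := by
  have h1 := hS.nr c hc p x T0 hT0 (Finset.univ.filter fun l => own c p x l) (by
    intro l hl
    have h2 := hS.own1 c hc p x l (Finset.mem_filter.1 hl).2
    exact ⟨h2.1, h2.2.2⟩)
  have ha := hS.a0 c hc p x
  unfold aL
  rw [← Finset.sum_filter]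
  calc ∑ l ∈ univ.filter (fun l => own c p x l), ρ c p l
      ≤ ∑ l ∈ univ.filter (fun l => own c p x l), T0 * a c p x * (π c p l / b l) := by
        refine Finset.sum_le_sum fun l hl => ?_
        have h2 := hS.own1 c hc p x l (Finset.mem_filter.1 hl).2
        have h3 := hS.b0 l
        have h4 : 0 ≤ π c p l := (hS.ρ0 c hc p l).trans (hS.ρπ c hc p l)
        refine (hS.ρπ c hc p l).trans ?_
        rw [← mul_div_assoc, le_div_iff₀ h3, mul_comm (T0 * a c p x)]
        exact mul_le_mul_of_nonneg_left h2.2.1 h4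
    _ = T0 * a c p x * ∑ l ∈ univ.filter (fun l => own c p x l), π c p l / b l := by
        rw [Finset.mul_sum]
    _ ≤ T0 * a c p x * (T0 * Real.sqrt T0) := mul_le_mul_of_nonneg_left h1 (by positivity)
    _ = T0 * (T0 * Real.sqrt T0) * a c p x := by ring

/-- The share of the own labels of `x` which `u` sees. -/
lemma share_le (hS : US G vy b P Q W a π ρ own Zt A T0 ca ξ) (hT0 : 1 ≤ T0) (hca : 0 < ca)
    {δ Γ e0 Υ : ℝ} (hδ : 0 < δ) (hδT : δ * T0 ≤ 1) (hδe : T0 * Real.sqrt (δ * T0) ≤ ca * e0)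
    (hΥ1 : T0 ≤ Υ * δ) (hΥ2 : Γ * T0 ≤ Υ) {c : ℕ} (hc : c ∈ A) {p : ι} {x u : V}
    (hx : ca * a c p x ≤ aL (own c p) (ρ c p) x) (hux : a c p u ≤ Γ * a c p x)
    {h h' : Hi} (hh : P c h = p) (hh' : P c h' = p) (he0 : 0 ≤ e0) :
    ∑ l, (if own c p x l ∧ G.Adj (vy l) u then ρ c p l else 0) ≤
      (e0 + kk (ph G vy b (P c) (a c) (π c) (T0 / ca) Υ) (h, x) (h', u)) *
        aL (own c p) (ρ c p) x := by
  have hT00 : 0 < T0 := by linarith
  have hax := hS.a0 c hc p x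
  have hau := hS.a0 c hc p u
  have hkk0 : 0 ≤ kk (ph G vy b (P c) (a c) (π c) (T0 / ca) Υ) (h, x) (h', u) :=
    Finset.sum_nonneg fun l _ => mul_nonneg (ph_nonneg _ _ _ _ _ _ _) (ph_nonneg _ _ _ _ _ _ _)
  have haL : 0 < aL (own c p) (ρ c p) x := lt_of_lt_of_le (mul_pos hca hax) hx
  have hπ0 : ∀ l, 0 ≤ π c p l := fun l => (hS.ρ0 c hc p l).trans (hS.ρπ c hc p l)
  -- the labels
  have hterm : ∀ l, own c p x l → ρ c p l ≤ T0 * a c p x * (π c p l / b l) := by
    intro l hl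
    have h2 := hS.own1 c hc p x l hl
    have h3 := hS.b0 l
    refine (hS.ρπ c hc p l).trans ?_
    rw [← mul_div_assoc, le_div_iff₀ h3, mul_comm (T0 * a c p x)]
    exact mul_le_mul_of_nonneg_left h2.2.1 (hπ0 l)
  set S : Finset L := Finset.univ.filter fun l => own c p x l ∧ G.Adj (vy l) u with hSdef
  have hsum : ∑ l, (if own c p x l ∧ G.Adj (vy l) u then ρ c p l else 0) ≤
      T0 * a c p x * ∑ l ∈ S, π c p l / b l := by
    rw [← Finset.sum_filter, Finset.mul_sum]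
    exact Finset.sum_le_sum fun l hl => hterm l (Finset.mem_filter.1 hl).2.1
  refine hsum.trans ?_
  rcases le_total (a c p u) (δ * a c p x) with hcase | hcase
  · -- `u` is lower
    have h1 := hS.hi c hc p u (1 / (δ * T0)) (by
      rw [le_div_iff₀ (by positivity)]
      linarith) S (by
      intro l hl
      obtain ⟨-, h2, h3⟩ := Finset.mem_filter.1 hl
      refine ⟨h3.symm, ?_⟩
      have h4 := (hS.own1 c hc p x l h2).2.2
      rw [one_div, inv_mul_le_iff₀ (by positivity)]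
      calc a c p u ≤ δ * a c p x := hcase
        _ ≤ δ * (T0 * b l) := mul_le_mul_of_nonneg_left h4 hδ.le
        _ = δ * T0 * b l := by ring)
    have h5 : (1 : ℝ) / Real.sqrt (1 / (δ * T0)) = Real.sqrt (δ * T0) := by
      rw [Real.sqrt_div zero_le_one, Real.sqrt_one, one_div_one_div]
    rw [h5] at h1
    calc T0 * a c p x * ∑ l ∈ S, π c p l / b l ≤ T0 * a c p x * Real.sqrt (δ * T0) :=
          mul_le_mul_of_nonneg_left h1 (by positivity)
      _ = T0 * Real.sqrt (δ * T0) * a c p x := by ring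
      _ ≤ ca * e0 * a c p x := mul_le_mul_of_nonneg_right hδe hax.le
      _ = e0 * (ca * a c p x) := by ring
      _ ≤ e0 * aL (own c p) (ρ c p) x := mul_le_mul_of_nonneg_left hx he0
      _ ≤ _ := mul_le_mul_of_nonneg_right (by linarith) haL.le
  · -- comparable scales
    have h1 : T0 / ca * ∑ l ∈ S, π c p l / b l ≤
        kk (ph G vy b (P c) (a c) (π c) (T0 / ca) Υ) (h, x) (h', u) := by
      rw [Finset.mul_sum]
      unfold kk
      refine (Finset.sum_le_sum fun l hl => ?_).trans (Finset.sum_le_sum_of_subset_of_nonneg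
        (Finset.subset_univ S) fun l _ _ =>
          mul_nonneg (ph_nonneg _ _ _ _ _ _ _) (ph_nonneg _ _ _ _ _ _ _))
      obtain ⟨-, h2, h3⟩ := Finset.mem_filter.1 hl
      obtain ⟨h4, h5, h6⟩ := hS.own1 c hc p x l h2
      have hb := hS.b0 l
      have hδ1 : δ ≤ 1 := by nlinarith
      have hΥ0 : T0 ≤ Υ := by
        have : Υ * δ ≤ Υ := by
          have hΥp : 0 ≤ Υ := by
            by_contra hneg
            push Not at hneg
            nlinarith
          nlinarith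
        linarith
      have hx1 : a c p x ≤ Υ * b l := h6.trans (mul_le_mul_of_nonneg_right hΥ0 hb.le)
      have hx2 : b l ≤ Υ * a c p x := h5.trans (mul_le_mul_of_nonneg_right hΥ0 hax.le)
      have hΓ0 : 0 ≤ Γ := by
        by_contra hneg
        push Not at hneg
        nlinarith
      have hu1 : a c p u ≤ Υ * b l := by
        calc a c p u ≤ Γ * a c p x := hux
          _ ≤ Γ * (T0 * b l) := mul_le_mul_of_nonneg_left h6 hΓ0
          _ = Γ * T0 * b l := by ring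
          _ ≤ Υ * b l := mul_le_mul_of_nonneg_right hΥ2 hb.le
      have hu2 : b l ≤ Υ * a c p u := by
        calc b l ≤ T0 * a c p x := h5
          _ ≤ Υ * δ * a c p x := mul_le_mul_of_nonneg_right hΥ1 hax.le
          _ = Υ * (δ * a c p x) := by ring
          _ ≤ Υ * a c p u := mul_le_mul_of_nonneg_left hcase (by linarith)
      unfold ph
      simp only
      rw [hh, hh', if_pos ⟨h4, hx1, hx2⟩, if_pos ⟨h3.symm, hu1, hu2⟩]
      rw [Real.mul_self_sqrt]
      exact mul_nonneg (by positivity) (div_nonneg (hπ0 l) hb.le)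
    calc T0 * a c p x * ∑ l ∈ S, π c p l / b l =
        (T0 / ca * ∑ l ∈ S, π c p l / b l) * (ca * a c p x) := by
          field_simp
      _ ≤ kk (ph G vy b (P c) (a c) (π c) (T0 / ca) Υ) (h, x) (h', u) *
          aL (own c p) (ρ c p) x :=
          mul_le_mul h1 hx (mul_pos hca hax).le hkk0
      _ ≤ _ := mul_le_mul_of_nonneg_right (by linarith) haL.le

lemma ph_sq (hS : US G vy b P Q W a π ρ own Zt A T0 ca ξ) {K Υ : ℝ} (hK : 0 ≤ K) (hΥ : 1 ≤ Υ)
    {c : ℕ} (hc : c ∈ A) (x : Hi × V) :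
    ∑ l, ph G vy b (P c) (a c) (π c) K Υ x l ^ 2 ≤ K * (Υ * Real.sqrt Υ) := by
  have h1 := hS.nr c hc (P c x.1) x.2 Υ hΥ (Finset.univ.filter fun l =>
    G.Adj x.2 (vy l) ∧ a c (P c x.1) x.2 ≤ Υ * b l ∧ b l ≤ Υ * a c (P c x.1) x.2) (by
    intro l hl
    have h2 := (Finset.mem_filter.1 hl).2
    exact ⟨h2.1, h2.2.1⟩)
  refine le_trans (le_of_eq ?_) (mul_le_mul_of_nonneg_left h1 hK)
  rw [Finset.mul_sum, Finset.sum_filter]
  refine Finset.sum_congr rfl fun l _ => ?_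
  unfold ph
  split_ifs
  · rw [Real.sq_sqrt]
    have h4 : 0 ≤ π c (P c x.1) l := (hS.ρ0 c hc _ l).trans (hS.ρπ c hc _ l)
    exact mul_nonneg hK (div_nonneg h4 (hS.b0 l).le)
  · norm_num

/-- The kernel vanishes for nodes whose scales are not comparable. -/
lemma kk_ph_ne {K Υ : ℝ} {P : Hi → ι} {a : ι → V → ℝ} {π : ι → L → ℝ} (hΥ : 0 ≤ Υ) {x x' : Hi × V}
    (h : kk (ph G vy b P a π K Υ) x x' ≠ 0) :
    a (P x.1) x.2 ≤ Υ ^ 2 * a (P x'.1) x'.2 ∧ a (P x'.1) x'.2 ≤ Υ ^ 2 * a (P x.1) x.2 := by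
  unfold kk at h
  obtain ⟨l, -, hl⟩ := Finset.exists_ne_zero_of_sum_ne_zero h
  have h1 : ph G vy b P a π K Υ x l ≠ 0 := left_ne_zero_of_mul hl
  have h2 : ph G vy b P a π K Υ x' l ≠ 0 := right_ne_zero_of_mul hl
  unfold ph at h1 h2
  rw [ne_eq, ite_eq_right_iff, Classical.not_imp] at h1 h2
  obtain ⟨⟨-, h3, h4⟩, -⟩ := h1
  obtain ⟨⟨-, h5, h6⟩, -⟩ := h2
  constructor
  · calc a (P x.1) x.2 ≤ Υ * b l := h3
      _ ≤ Υ * (Υ * a (P x'.1) x'.2) := mul_le_mul_of_nonneg_left h6 hΥ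
      _ = Υ ^ 2 * a (P x'.1) x'.2 := by ring
  · calc a (P x'.1) x'.2 ≤ Υ * b l := h5
      _ ≤ Υ * (Υ * a (P x.1) x.2) := mul_le_mul_of_nonneg_left h4 hΥ
      _ = Υ ^ 2 * a (P x.1) x.2 := by ring

lemma MQ_pos (hS : US G vy b P Q W a π ρ own Zt A T0 ca ξ) {z : Hi × V} (hz : z ∈ W) (c : ℕ) :
    0 < MQ (P c) Q (P c z.1) :=
  lt_of_lt_of_le (lt_of_lt_of_le (hS.Wp z hz) (le_mH hS.Q0 z.1 z.2)) (le_MQ hS.Q0 z.1)

/-- The structure for the U-case with labels. -/
lemma uk_of_us (hS : US G vy b P Q W a π ρ own Zt A T0 ca ξ) (hT0 : 1 ≤ T0) (hca : 0 < ca)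
    {F δ e0 Υ : ℝ} (hF : 1 ≤ F)
    (hδ : 0 < δ) (hδT : δ * T0 ≤ 1) (hδe : T0 * Real.sqrt (δ * T0) ≤ ca * e0) (he0 : 0 ≤ e0)
    (hΥ : 1 ≤ Υ) (hΥ1 : T0 ≤ Υ * δ)
    (hΥ2 : 2 * F * (T0 * (T0 * Real.sqrt T0)) / ca * T0 ≤ Υ) (hξ : 0 ≤ ξ) :
    UK (Λ := L) G (fun x : Hi × V => x.2) (fun g : Hi × L => vy g.2) (fun x => x.1)
      (fun g => g.1) P (fun c => oH (P c) (own c)) W (fun z => Q z.1 z.2)
      (fun c => rH (P c) Q (ρ c)) (fun c g => MQ (P c) Q (P c g.1) * (ca / T0 * b g.2))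
      (fun c => ph G vy b (P c) (a c) (π c) (T0 / ca) Υ) A (2 * F)
      (T0 * (T0 * Real.sqrt T0) * T0 * T0 / ca) (T0 / ca * (Υ * Real.sqrt Υ)) e0 (ξ / ca) := by
  have hT00 : 0 < T0 := by linarith
  have hQ0 := hS.Q0
  have hrH0 : ∀ c ∈ A, ∀ g : Hi × L, 0 ≤ rH (P c) Q (ρ c) g := fun c hc g =>
    mul_nonneg (mH_nonneg hQ0 g.1) (hS.ρ0 c hc _ _)
  have hrHne : ∀ c, ∀ g : Hi × L, rH (P c) Q (ρ c) g ≠ 0 →
      mH Q g.1 ≠ 0 ∧ ρ c (P c g.1) g.2 ≠ 0 := fun c g hg =>
    ⟨left_ne_zero_of_mul hg, right_ne_zero_of_mul hg⟩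
  have hMpos : ∀ c, ∀ g : Hi × L, mH Q g.1 ≠ 0 → 0 < MQ (P c) Q (P c g.1) := fun c g hg =>
    lt_of_lt_of_le (lt_of_le_of_ne (mH_nonneg hQ0 g.1) hg.symm) (le_MQ hQ0 g.1)
  have hsha : ∀ c ∈ A, ∀ z ∈ W, ca * a c (P c z.1) z.2 ≤
      aL (own c (P c z.1)) (ρ c (P c z.1)) z.2 := fun c hc z hz => hS.sha c hc z hz
  have hap : ∀ c ∈ A, ∀ x ∈ W, 0 < aO (oH (P c) (own c)) (rH (P c) Q (ρ c)) x := by
    intro c hc x hx
    rw [aO_eq]
    exact mul_pos (MQ_pos hS hx c)
      (lt_of_lt_of_le (mul_pos hca (hS.a0 c hc _ _)) (hsha c hc x hx))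
  -- thin vertices
  have hthin : ∀ c ∈ A, ∀ p z, Zt c p z →
      Thin (oH (P c) (own c)) G (fun x : Hi × V => x.2) (fun v => P c v.1)
        (fun z => Q z.1 z.2) (rH (P c) Q (ρ c)) W (ξ / ca) p z := by
    intro c hc p z hz t ht
    by_cases hM : MQ (P c) Q p = 0
    · -- the class has mass zero
      have h0 : ∑ v ∈ W.filter (fun v => P c v.1 = p ∧ (v.2 = z ∨ G.Adj v.2 z) ∧
          aO (oH (P c) (own c)) (rH (P c) Q (ρ c)) v ≤ t), Q v.1 v.2 = 0 := by
        refine Finset.sum_eq_zero fun v hv => ?_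
        obtain ⟨hvW, hvp, -⟩ := Finset.mem_filter.1 hv
        have := MQ_pos hS hvW c
        rw [hvp, hM] at this
        exact absurd this (lt_irrefl 0)
      rw [h0]
      positivity
    · have hM0 : 0 < MQ (P c) Q p := lt_of_le_of_ne (MQ_nonneg hQ0 p) (Ne.symm hM)
      have h1 := hS.thn c hc p z hz (t / (ca * MQ (P c) Q p)) (by positivity)
      have h2 : ∑ v ∈ W.filter (fun v => P c v.1 = p ∧ (v.2 = z ∨ G.Adj v.2 z) ∧
          aO (oH (P c) (own c)) (rH (P c) Q (ρ c)) v ≤ t), Q v.1 v.2 ≤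
          ∑ v ∈ Finset.univ.filter (fun v => (v = z ∨ G.Adj v z) ∧
            a c p v ≤ t / (ca * MQ (P c) Q p)), nQ (P c) Q p v := by
        have h3 : ∑ v ∈ Finset.univ.filter (fun v => (v = z ∨ G.Adj v z) ∧
            a c p v ≤ t / (ca * MQ (P c) Q p)), nQ (P c) Q p v =
            ∑ y : Hi × V, (if P c y.1 = p ∧ (y.2 = z ∨ G.Adj y.2 z) ∧
              a c p y.2 ≤ t / (ca * MQ (P c) Q p) then Q y.1 y.2 else 0) := by
          rw [Fintype.sum_prod_type_right, Finset.sum_filter]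
          refine Finset.sum_congr rfl fun v _ => ?_
          unfold nQ
          by_cases hv : (v = z ∨ G.Adj v z) ∧ a c p v ≤ t / (ca * MQ (P c) Q p)
          · rw [if_pos hv]
            refine Finset.sum_congr rfl fun y _ => ?_
            by_cases hy : P c y = p
            · rw [if_pos hy, if_pos ⟨hy, hv⟩]
            · rw [if_neg hy, if_neg fun h => hy h.1]
          · rw [if_neg hv]
            symm
            refine Finset.sum_eq_zero fun y _ => ?_
            rw [if_neg fun h => hv h.2]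
        rw [h3, Finset.sum_filter]
        refine (Finset.sum_le_sum fun v hv => ?_).trans
          (Finset.sum_le_sum_of_subset_of_nonneg (Finset.subset_univ W) fun v _ _ => ?_)
        · by_cases h4 : P c v.1 = p ∧ (v.2 = z ∨ G.Adj v.2 z) ∧
              aO (oH (P c) (own c)) (rH (P c) Q (ρ c)) v ≤ t
          · rw [if_pos h4, if_pos]
            refine ⟨h4.1, h4.2.1, ?_⟩
            have h5 := h4.2.2
            rw [aO_eq, h4.1] at h5
            have h6 := hsha c hc v hv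
            rw [h4.1] at h6
            rw [le_div_iff₀ (by positivity)]
            calc a c p v.2 * (ca * MQ (P c) Q p) = MQ (P c) Q p * (ca * a c p v.2) := by ring
              _ ≤ MQ (P c) Q p * aL (own c p) (ρ c p) v.2 :=
                  mul_le_mul_of_nonneg_left h6 hM0.le
              _ ≤ t := h5
          · rw [if_neg h4]
            split_ifs
            · exact hQ0 _ _
            · exact le_rfl
        · split_ifs
          · exact hQ0 _ _
          · exact le_rfl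
      refine h2.trans (h1.trans (le_of_eq ?_))
      field_simp
  constructor
  · exact hS.ref
  · -- inc
    intro c hc x g hg
    exact ⟨(hS.own1 c hc _ _ _ hg.2).1, hg.1⟩
  · exact fun z => hQ0 z.1 z.2
  · exact hrH0
  · -- ρ1
    intro c hc
    rw [Fintype.sum_prod_type]
    refine le_trans (Finset.sum_le_sum fun h _ => ?_) hS.Q1
    unfold rH
    simp only
    rw [← Finset.mul_sum]
    refine mul_le_of_le_one_right (mH_nonneg hQ0 h) ?_
    exact (Finset.sum_le_sum fun l _ => hS.ρπ c hc _ l).trans (hS.π1 c hc _)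
  · exact hap
  · -- bp
    intro c hc g hg
    have h1 := hMpos c g (hrHne c g hg).1
    have h2 := hS.b0 g.2
    positivity
  · -- sc1
    intro c hc x hx g hg hρ
    rw [aO_eq]
    obtain ⟨h1, h2, h3⟩ := hS.own1 c hc _ _ _ hg.2
    have h4 := MQ_pos hS hx c
    rw [← hg.1]
    refine mul_le_mul_of_nonneg_left ?_ h4.le
    refine le_trans ?_ (hsha c hc x hx)
    rw [div_mul_eq_mul_div, div_le_iff₀ hT00, mul_assoc]
    refine mul_le_mul_of_nonneg_left ?_ hca.le
    rw [mul_comm]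
    exact h2
  · -- sc2
    intro c hc x hx g hg hρ
    rw [aO_eq]
    obtain ⟨h1, h2, h3⟩ := hS.own1 c hc _ _ _ hg.2
    have h4 := MQ_pos hS hx c
    rw [← hg.1]
    have h5 := aL_le hS hT0 hc (P c x.1) x.2
    have h6 : 0 < T0 * (T0 * Real.sqrt T0) := by positivity
    calc MQ (P c) Q (P c x.1) * aL (own c (P c x.1)) (ρ c (P c x.1)) x.2
        ≤ MQ (P c) Q (P c x.1) * (T0 * (T0 * Real.sqrt T0) * (T0 * b g.2)) := by
          refine mul_le_mul_of_nonneg_left (h5.trans ?_) h4.le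
          exact mul_le_mul_of_nonneg_left h3 h6.le
      _ = T0 * (T0 * Real.sqrt T0) * T0 * T0 / ca *
          (MQ (P c) Q (P c x.1) * (ca / T0 * b g.2)) := by
          field_simp
  · -- thX
    intro c hc z hz
    exact hthin c hc _ _ (hS.zW c hc z hz)
  · -- thO
    intro c hc s hs hcs g hg
    obtain ⟨h1, h2⟩ := hrHne s g hg
    exact hthin c hc _ _ (hS.zO c hc s hs hcs g.1 g.2 h1 h2)
  · -- neX
    intro c hc g hg z hz hgz
    have h1 := hS.zW c hc z hz
    rw [← hgz] at h1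
    exact hS.ne c hc _ _ h1 _ (hrHne c g hg).2
  · -- neO
    intro c hc g hg s hs hcs g' hg' hgz
    obtain ⟨h1, h2⟩ := hrHne s g' hg'
    have h3 := hS.zO c hc s hs hcs g'.1 g'.2 h1 h2
    rw [← hgz] at h3
    exact hS.ne c hc _ _ h3 _ (hrHne c g hg).2
  · -- sh
    intro c hc x hx u hu hxu hau
    rw [aO_eq, aO_eq, ← hxu] at hau
    have hM := MQ_pos hS hx c
    have hau' : aL (own c (P c x.1)) (ρ c (P c x.1)) u.2 ≤
        2 * F * aL (own c (P c x.1)) (ρ c (P c x.1)) x.2 := by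
      have h1 : MQ (P c) Q (P c x.1) * aL (own c (P c x.1)) (ρ c (P c x.1)) u.2 ≤
          MQ (P c) Q (P c x.1) * (2 * F * aL (own c (P c x.1)) (ρ c (P c x.1)) x.2) := by
        calc _ ≤ _ := hau
          _ = _ := by ring
      exact le_of_mul_le_mul_left h1 hM
    have h2 := hsha c hc u hu
    rw [← hxu] at h2
    have h3 := aL_le hS hT0 hc (P c x.1) x.2
    have h4 : a c (P c x.1) u.2 ≤ 2 * F * (T0 * (T0 * Real.sqrt T0)) / ca * a c (P c x.1) x.2 := by
      rw [div_mul_eq_mul_div, le_div_iff₀ hca, mul_comm]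
      calc ca * a c (P c x.1) u.2 ≤ aL (own c (P c x.1)) (ρ c (P c x.1)) u.2 := h2
        _ ≤ 2 * F * aL (own c (P c x.1)) (ρ c (P c x.1)) x.2 := hau'
        _ ≤ 2 * F * (T0 * (T0 * Real.sqrt T0) * a c (P c x.1) x.2) :=
            mul_le_mul_of_nonneg_left h3 (by linarith)
        _ = _ := by ring
    have h5 := share_le hS hT0 hca hδ hδT hδe hΥ1 hΥ2 hc (hsha c hc x hx) h4 (h := x.1)
      (h' := u.1) rfl hxu.symm he0
    have h6 : ∑ g : Hi × L, (if oH (P c) (own c) x g ∧ G.Adj (vy g.2) u.2 then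
        rH (P c) Q (ρ c) g else 0) = MQ (P c) Q (P c x.1) *
        ∑ l, if own c (P c x.1) x.2 l ∧ G.Adj (vy l) u.2 then ρ c (P c x.1) l else 0 := by
      have h7 := sum_class (P := P c) (Q := Q) (ρ c)
        (fun l => own c (P c x.1) x.2 l ∧ G.Adj (vy l) u.2) (P c x.1)
      refine Eq.trans (Finset.sum_congr rfl fun g _ => ?_) (h7.trans ?_)
      · by_cases h : P c x.1 = P c g.1 ∧ own c (P c x.1) x.2 g.2 ∧ G.Adj (vy g.2) u.2
        · rw [if_pos h, if_pos ⟨⟨h.1, h.2.1⟩, h.2.2⟩]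
        · rw [if_neg h, if_neg fun h' => h ⟨h'.1.1, h'.1.2, h'.2⟩]
      · congr 1
        refine Finset.sum_congr rfl fun l _ => ?_
        by_cases h : own c (P c x.1) x.2 l ∧ G.Adj (vy l) u.2
        · rw [if_pos h, if_pos h]
        · rw [if_neg h, if_neg h]
    rw [h6, aO_eq]
    calc MQ (P c) Q (P c x.1) *
        ∑ l, (if own c (P c x.1) x.2 l ∧ G.Adj (vy l) u.2 then ρ c (P c x.1) l else 0)
        ≤ MQ (P c) Q (P c x.1) * ((e0 + kk (ph G vy b (P c) (a c) (π c) (T0 / ca) Υ)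
            (x.1, x.2) (u.1, u.2)) * aL (own c (P c x.1)) (ρ c (P c x.1)) x.2) :=
          mul_le_mul_of_nonneg_left h5 hM.le
      _ = _ := by
          simp only [Prod.mk.eta]
          ring
  · -- φ0
    intro c _ x l
    exact ph_nonneg _ _ _ _ _ _ _
  · -- φH
    intro c hc x _
    exact ph_sq hS (by positivity) hΥ hc x

end uk

end ULE

end Pool.Agent.Lib.FGK
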