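import Pool.Agent.Lib.FGK.UDefs

/-!
# Pools of unlinked stages with labels
-/

set_option autoImplicit false

namespace Pool.Agent.Lib.FGK

open Finset Classical
open Pool.Agent.Lib.FracGS (nb wnb om TAdj wnb_eq_sum_ite)
open Pool.Agent.Lib.GSR3 (Stab Tree)
open Pool.Agent.Lib.FGF (ms Frac stJen stRam)
open Pool.Agent.Lib.FGL (aw Dw mt)

namespace KUJ

/-! ### The weights -/

section basic

variable {X Ω : Type} [Fintype X] [Fintype Ω] {own : X → Ω → Prop}

omit [Fintype X] in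
lemma aO_nonneg {q : Ω → ℝ} (h : ∀ g, 0 ≤ q g) (x : X) : 0 ≤ aO own q x :=
  Finset.sum_nonneg fun g _ => by
    split_ifs
    · exact h g
    · exact le_rfl

omit [Fintype X] in
lemma aO_mono {q q' : Ω → ℝ} (h : ∀ g, q g ≤ q' g) (x : X) : aO own q x ≤ aO own q' x := by
  unfold aO
  refine Finset.sum_le_sum fun g _ => ?_
  split_ifs
  · exact h g
  · exact le_rfl

omit [Fintype X] in
lemma zO_nonneg {ν : X → ℝ} {q : Ω → ℝ} (hν : ∀ x, 0 ≤ ν x) (h : ∀ g, 0 ≤ q g) (W : Finset X)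
    (x : X) : 0 ≤ zO own ν q W x := by
  unfold zO
  split_ifs
  · exact div_nonneg (hν x) (aO_nonneg h x)
  · exact le_rfl

lemma dO_nonneg {ν : X → ℝ} {q : Ω → ℝ} (hν : ∀ x, 0 ≤ ν x) (h : ∀ g, 0 ≤ q g) (W : Finset X)
    (g : Ω) : 0 ≤ dO own ν q W g :=
  Finset.sum_nonneg fun x _ => by
    split_ifs
    · exact zO_nonneg hν h W x
    · exact le_rfl

/-- Double counting. -/
lemma flux (ν : X → ℝ) (q q' : Ω → ℝ) (W : Finset X) :
    ∑ g, q' g * dO own ν q W g = ∑ x ∈ W, ν x * (aO own q' x / aO own q x) := by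
  have h1 : ∀ g, q' g * dO own ν q W g =
      ∑ x, if own x g then q' g * zO own ν q W x else 0 := by
    intro g
    unfold dO
    rw [Finset.mul_sum]
    refine Finset.sum_congr rfl fun x _ => ?_
    split_ifs <;> ring
  rw [Finset.sum_congr rfl fun g _ => h1 g, Finset.sum_comm,
    ← Finset.sum_subset (Finset.subset_univ W)]
  · refine Finset.sum_congr rfl fun x hx => ?_
    have h2 : ∀ g, (if own x g then q' g * zO own ν q W x else 0) =
        (if own x g then q' g else 0) * zO own ν q W x := by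
      intro g
      split_ifs <;> ring
    rw [Finset.sum_congr rfl fun g _ => h2 g, ← Finset.sum_mul]
    unfold zO
    rw [if_pos hx]
    unfold aO
    ring
  · intro x _ hx
    refine Finset.sum_eq_zero fun y _ => ?_
    unfold zO
    rw [if_neg hx]
    simp

/-- The weights of the mates. -/
noncomputable def pw (own : X → Ω → Prop) (ν : X → ℝ) (q : Ω → ℝ) (W : Finset X)
    (t : Ω × X × X) : ℝ :=
  q t.1 / dO own ν q W t.1 * ((if own t.2.1 t.1 then zO own ν q W t.2.1 else 0) *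
    (if own t.2.2 t.1 then zO own ν q W t.2.2 else 0))

lemma pw_nonneg {ν : X → ℝ} {q : Ω → ℝ} (hν : ∀ x, 0 ≤ ν x) (h : ∀ g, 0 ≤ q g) (W : Finset X)
    (t : Ω × X × X) : 0 ≤ pw own ν q W t := by
  unfold pw
  refine mul_nonneg (div_nonneg (h _) (dO_nonneg hν h W _)) (mul_nonneg ?_ ?_)
  · split_ifs
    · exact zO_nonneg hν h W _
    · exact le_rfl
  · split_ifs
    · exact zO_nonneg hν h W _
    · exact le_rfl

lemma lO_eq (ν : X → ℝ) (q : Ω → ℝ) (W : Finset X) (K : X → X → ℝ) :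
    lO own ν q W K = ∑ t, pw own ν q W t * K t.2.1 t.2.2 := by
  unfold lO pw
  rw [Fintype.sum_prod_type]
  refine Finset.sum_congr rfl fun g _ => ?_
  rw [Fintype.sum_prod_type, Finset.mul_sum]
  refine Finset.sum_congr rfl fun x _ => ?_
  rw [Finset.mul_sum]
  refine Finset.sum_congr rfl fun x' _ => ?_
  ring

lemma sum_pw {ν : X → ℝ} {q : Ω → ℝ} {W : Finset X} (hν : ∀ x, 0 ≤ ν x) (h : ∀ g, 0 ≤ q g)
    (ha : ∀ x ∈ W, 0 < aO own q x) : ∑ t, pw own ν q W t = ms ν W := by
  have h1 := lO_eq (own := own) ν q W (fun _ _ => 1)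
  simp only [mul_one] at h1
  rw [← h1]
  unfold lO
  have h2 : ∀ g, q g / dO own ν q W g * ∑ x, ∑ x', (if own x g then zO own ν q W x else 0) *
      (if own x' g then zO own ν q W x' else 0) * (1 : ℝ) = q g * dO own ν q W g := by
    intro g
    simp only [mul_one]
    rw [← Finset.sum_mul_sum]
    have h3 : (∑ x, if own x g then zO own ν q W x else 0) = dO own ν q W g := rfl
    rw [h3]
    by_cases hd : dO own ν q W g = 0
    · rw [hd]
      simp
    · field_simp
  rw [Finset.sum_congr rfl fun g _ => h2 g, flux]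
  unfold ms
  refine Finset.sum_congr rfl fun x hx => ?_
  rw [div_self (ha x hx).ne', mul_one]

lemma lO_mono {ν : X → ℝ} {q : Ω → ℝ} {W : Finset X} (hν : ∀ x, 0 ≤ ν x) (h : ∀ g, 0 ≤ q g)
    {K K' : X → X → ℝ} (hK : ∀ x x', K x x' ≤ K' x x') :
    lO own ν q W K ≤ lO own ν q W K' := by
  rw [lO_eq, lO_eq]
  exact Finset.sum_le_sum fun t _ => mul_le_mul_of_nonneg_left (hK _ _) (pw_nonneg hν h W t)

lemma lO_smul {ν : X → ℝ} {q : Ω → ℝ} {W : Finset X} (a : ℝ) (K : X → X → ℝ) :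
    lO own ν q W (fun x x' => a * K x x') = a * lO own ν q W K := by
  rw [lO_eq, lO_eq, Finset.mul_sum]
  exact Finset.sum_congr rfl fun t _ => by ring

end basic

/-! ### The common stable set -/

/-- Averaging over the stages. -/
lemma avg {X : Type} {W : Finset X} {ν : X → ℝ} (hν : ∀ x, 0 ≤ ν x) {A : Finset ℕ}
    {P : ℕ → X → ℝ} (hP1 : ∀ c ∈ A, ∀ x ∈ W, P c x ≤ 1) {F : ℝ} (hF : 1 ≤ F)
    (hsum : (A.card : ℝ) * ms ν W ≤ F * ∑ x ∈ W, ν x * ∑ c ∈ A, P c x) {r : ℕ}
    (hA : 0 < A.card) (hr : 4 * F * r ≤ A.card) :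
    ∃ T, T ⊆ A ∧ T.card = r ∧ ∃ Y, Y ⊆ W ∧ (∀ x ∈ Y, ∀ c ∈ T, 1 / (2 * F) ≤ P c x) ∧
      ms ν W ≤ 4 * F * 2 ^ A.card * ms ν Y := by
  have hF0 : 0 < F := by linarith
  set T : X → Finset ℕ := fun x => A.filter fun c => 1 / (2 * F) ≤ P c x with hT
  have hmsW : ∀ Y : Finset X, 0 ≤ ms ν Y := fun Y => Finset.sum_nonneg fun x _ => hν x
  have h3 : ∀ x ∈ W, ∑ c ∈ A, P c x ≤ (T x).card + A.card / (2 * F) := by
    intro x hx
    rw [← Finset.sum_filter_add_sum_filter_not A (fun c => 1 / (2 * F) ≤ P c x)]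
    refine add_le_add ?_ ?_
    · calc ∑ c ∈ A.filter (fun c => 1 / (2 * F) ≤ P c x), P c x
          ≤ ∑ c ∈ A.filter (fun c => 1 / (2 * F) ≤ P c x), (1 : ℝ) :=
            Finset.sum_le_sum fun c hc => hP1 c (Finset.mem_filter.1 hc).1 x hx
        _ = (T x).card := by
            rw [Finset.sum_const, nsmul_eq_mul, mul_one]
    · calc ∑ c ∈ A.filter (fun c => ¬ 1 / (2 * F) ≤ P c x), P c x
          ≤ ∑ c ∈ A.filter (fun c => ¬ 1 / (2 * F) ≤ P c x), (1 / (2 * F)) :=
            Finset.sum_le_sum fun c hc => (not_le.1 (Finset.mem_filter.1 hc).2).le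
        _ ≤ ∑ _c ∈ A, (1 / (2 * F)) :=
            Finset.sum_le_sum_of_subset_of_nonneg (Finset.filter_subset _ _)
              fun _ _ _ => by positivity
        _ = A.card / (2 * F) := by
            rw [Finset.sum_const, nsmul_eq_mul]
            ring
  have hAc : (0 : ℝ) < A.card := by exact_mod_cast hA
  have h4 : (A.card : ℝ) * ms ν W ≤ 2 * F * ∑ x ∈ W, ν x * (T x).card := by
    have h5 : (A.card : ℝ) * ms ν W ≤ F * ∑ x ∈ W, ν x * ((T x).card + A.card / (2 * F)) := by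
      refine hsum.trans ?_
      refine mul_le_mul_of_nonneg_left ?_ hF0.le
      exact Finset.sum_le_sum fun x hx => mul_le_mul_of_nonneg_left (h3 x hx) (hν x)
    have h6 : ∑ x ∈ W, ν x * ((T x).card + A.card / (2 * F)) =
        ∑ x ∈ W, ν x * (T x).card + A.card / (2 * F) * ms ν W := by
      unfold ms
      rw [Finset.mul_sum, ← Finset.sum_add_distrib]
      refine Finset.sum_congr rfl fun x _ => ?_
      ring
    rw [h6] at h5
    have h7 : F * (A.card / (2 * F) * ms ν W) = A.card * ms ν W / 2 := by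
      field_simp
    nlinarith
  set X1 := W.filter (fun x => r ≤ (T x).card) with hX1
  have hTA : ∀ x, ((T x).card : ℝ) ≤ A.card := fun x => by
    exact_mod_cast Finset.card_le_card (Finset.filter_subset _ _)
  have h5 : ∑ x ∈ W, ν x * (T x).card ≤ A.card * ms ν X1 + r * ms ν W := by
    rw [← Finset.sum_filter_add_sum_filter_not W (fun x => r ≤ (T x).card)]
    refine add_le_add ?_ ?_
    · unfold ms
      rw [Finset.mul_sum]
      refine Finset.sum_le_sum fun x _ => ?_
      rw [mul_comm]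
      exact mul_le_mul_of_nonneg_right (hTA x) (hν x)
    · calc ∑ x ∈ W.filter (fun x => ¬ r ≤ (T x).card), ν x * (T x).card
          ≤ ∑ x ∈ W.filter (fun x => ¬ r ≤ (T x).card), r * ν x := by
            refine Finset.sum_le_sum fun x hx => ?_
            have h6 := (Finset.mem_filter.1 hx).2
            rw [mul_comm]
            refine mul_le_mul_of_nonneg_right ?_ (hν x)
            exact_mod_cast (not_le.1 h6).le
        _ ≤ ∑ x ∈ W, r * ν x :=
            Finset.sum_le_sum_of_subset_of_nonneg (Finset.filter_subset _ _)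
              fun x _ _ => mul_nonneg (Nat.cast_nonneg _) (hν x)
        _ = r * ms ν W := by
            unfold ms
            rw [Finset.mul_sum]
  have h6 : ms ν W ≤ 4 * F * ms ν X1 := by
    have h7 : (A.card : ℝ) * ms ν W ≤ 2 * F * (A.card * ms ν X1 + r * ms ν W) :=
      h4.trans (mul_le_mul_of_nonneg_left h5 (by positivity))
    have h8 : 2 * F * (r * ms ν W) ≤ A.card * ms ν W / 2 := by
      have := mul_le_mul_of_nonneg_right hr (hmsW W)
      linarith
    have h9 : (A.card : ℝ) * ms ν W ≤ A.card * (4 * F * ms ν X1) := by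
      nlinarith
    exact le_of_mul_le_mul_left h9 hAc
  -- pigeonhole
  have h7 : ms ν X1 ≤ ∑ S ∈ A.powersetCard r, ms ν (W.filter fun x => S ⊆ T x) := by
    unfold ms
    have h8 : ∀ x ∈ X1, ν x ≤ ∑ S ∈ A.powersetCard r, if S ⊆ T x then ν x else 0 := by
      intro x hx
      obtain ⟨S, hS, hSc⟩ := Finset.exists_subset_card_eq (Finset.mem_filter.1 hx).2
      refine le_trans (le_of_eq ?_) (Finset.single_le_sum
        (f := fun S => if S ⊆ T x then ν x else 0) (fun S' _ => ?_)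
        (Finset.mem_powersetCard.2 ⟨hS.trans (Finset.filter_subset _ _), hSc⟩))
      · rw [if_pos hS]
      · split_ifs
        · exact hν x
        · exact le_rfl
    refine (Finset.sum_le_sum h8).trans ?_
    rw [Finset.sum_comm]
    refine Finset.sum_le_sum fun S _ => ?_
    rw [Finset.sum_filter (s := W) (fun x => S ⊆ T x)]
    refine Finset.sum_le_sum_of_subset_of_nonneg (Finset.filter_subset _ _) fun x _ _ => ?_
    split_ifs
    · exact hν x
    · exact le_rfl
  have hne : (A.powersetCard r).Nonempty := by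
    rw [Finset.powersetCard_nonempty]
    have h8 : (r : ℝ) ≤ A.card := by
      have h9 : (r : ℝ) ≤ 4 * F * r := by
        have : (0 : ℝ) ≤ r := Nat.cast_nonneg _
        nlinarith
      linarith
    exact_mod_cast h8
  obtain ⟨S, hS, hSmax⟩ := Finset.exists_max_image (A.powersetCard r)
    (fun S => ms ν (W.filter fun x => S ⊆ T x)) hne
  obtain ⟨hSA, hSc⟩ := Finset.mem_powersetCard.1 hS
  refine ⟨S, hSA, hSc, W.filter fun x => S ⊆ T x, Finset.filter_subset _ _, ?_, ?_⟩
  · intro x hx c hc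
    exact (Finset.mem_filter.1 ((Finset.mem_filter.1 hx).2 hc)).2
  · have h8 : ms ν X1 ≤ 2 ^ A.card * ms ν (W.filter fun x => S ⊆ T x) := by
      refine h7.trans ((Finset.sum_le_card_nsmul _ _ _ fun S' hS' => hSmax S' hS').trans ?_)
      rw [nsmul_eq_mul]
      refine mul_le_mul_of_nonneg_right ?_ (hmsW _)
      have h9 : (A.powersetCard r).card ≤ 2 ^ A.card := by
        rw [Finset.card_powersetCard]
        exact Nat.choose_le_two_pow _ _
      exact_mod_cast h9
    calc ms ν W ≤ 4 * F * ms ν X1 := h6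
      _ ≤ 4 * F * (2 ^ A.card * ms ν (W.filter fun x => S ⊆ T x)) :=
          mul_le_mul_of_nonneg_left h8 (by positivity)
      _ = 4 * F * 2 ^ A.card * ms ν (W.filter fun x => S ⊆ T x) := by ring

section stable

variable {V X Ω : Type} [Fintype V] [Fintype X] [Fintype Ω] {G : SimpleGraph V} {vO : Ω → V}
  {own : ℕ → X → Ω → Prop}

/-- The weights of the labels whose vertices lie in `J`. -/
noncomputable def qJ (vO : Ω → V) (ρ : Ω → ℝ) (J : Finset V) (g : Ω) : ℝ :=
  if vO g ∈ J then ρ g else 0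

omit [Fintype V] [Fintype Ω] in
lemma qJ_nonneg {ρ : Ω → ℝ} (h : ∀ y, 0 ≤ ρ y) (J : Finset V) (y : Ω) : 0 ≤ qJ vO ρ J y := by
  unfold qJ
  split_ifs
  · exact h y
  · exact le_rfl

omit [Fintype V] [Fintype Ω] in
lemma qJ_le {ρ : Ω → ℝ} (h : ∀ y, 0 ≤ ρ y) (J : Finset V) (y : Ω) : qJ vO ρ J y ≤ ρ y := by
  unfold qJ
  split_ifs
  · exact le_rfl
  · exact h y

/-- The common stable set. -/
lemma exists_JO {F : ℝ} (hF : 1 ≤ F) (hG : Frac G F) {W : Finset X} {ν : X → ℝ}
    {ρ : ℕ → Ω → ℝ} {A : Finset ℕ} (hν : ∀ x, 0 ≤ ν x) (hρ : ∀ c ∈ A, ∀ y, 0 ≤ ρ c y)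
    (hap : ∀ c ∈ A, ∀ x ∈ W, 0 < aO (own c) (ρ c) x) {r : ℕ} (hA : 0 < A.card)
    (hr : 4 * F * r ≤ A.card) :
    ∃ J : Finset V, Stab G J ∧ ∃ T, T ⊆ A ∧ T.card = r ∧ ∃ Y, Y ⊆ W ∧
      (∀ x ∈ Y, ∀ c ∈ T, aO (own c) (ρ c) x ≤ 2 * F * aO (own c) (qJ vO (ρ c) J) x) ∧
      ms ν W ≤ 4 * F * 2 ^ A.card * ms ν Y := by
  have hF0 : 0 < F := by linarith
  obtain ⟨J, hJ, hJw⟩ := hG (fun y => ∑ c ∈ A, ∑ g, if vO g = y then
      ρ c g * dO (own c) ν (ρ c) W g else 0) (by
    intro y
    refine Finset.sum_nonneg fun c hc => Finset.sum_nonneg fun g _ => ?_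
    split_ifs
    · exact mul_nonneg (hρ c hc g) (dO_nonneg hν (hρ c hc) W g)
    · exact le_rfl)
  set P : ℕ → X → ℝ := fun c x => aO (own c) (qJ vO (ρ c) J) x / aO (own c) (ρ c) x with hP
  have hP1 : ∀ c ∈ A, ∀ x ∈ W, P c x ≤ 1 := by
    intro c hc x hx
    rw [hP]
    exact (div_le_one (hap c hc x hx)).2 (aO_mono (qJ_le (hρ c hc) J) x)
  have h1 : ∑ y, ∑ c ∈ A, ∑ g, (if vO g = y then ρ c g * dO (own c) ν (ρ c) W g else 0) =
      A.card * ms ν W := by
    rw [Finset.sum_comm]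
    have h2 : ∀ c ∈ A, ∑ y, ∑ g, (if vO g = y then ρ c g * dO (own c) ν (ρ c) W g else 0) =
        ms ν W := by
      intro c hc
      rw [Finset.sum_comm]
      have h3 : ∀ g, ∑ y, (if vO g = y then ρ c g * dO (own c) ν (ρ c) W g else 0) =
          ρ c g * dO (own c) ν (ρ c) W g := by
        intro g
        rw [Finset.sum_ite_eq, if_pos (Finset.mem_univ _)]
      rw [Finset.sum_congr rfl fun g _ => h3 g, flux]
      unfold ms
      refine Finset.sum_congr rfl fun x hx => ?_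
      rw [div_self (hap c hc x hx).ne', mul_one]
    rw [Finset.sum_congr rfl h2, Finset.sum_const, nsmul_eq_mul]
  have h2 : ∑ y ∈ J, ∑ c ∈ A, ∑ g, (if vO g = y then ρ c g * dO (own c) ν (ρ c) W g else 0) =
      ∑ x ∈ W, ν x * ∑ c ∈ A, P c x := by
    rw [Finset.sum_comm]
    have h3 : ∀ c ∈ A, ∑ y ∈ J, ∑ g, (if vO g = y then ρ c g * dO (own c) ν (ρ c) W g else 0) =
        ∑ x ∈ W, ν x * P c x := by
      intro c hc
      rw [← flux (own := own c) ν (ρ c) (qJ vO (ρ c) J) W, Finset.sum_comm]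
      refine Finset.sum_congr rfl fun g _ => ?_
      rw [Finset.sum_ite_eq]
      unfold qJ
      split_ifs
      · rfl
      · rw [zero_mul]
    rw [Finset.sum_congr rfl h3, Finset.sum_comm]
    refine Finset.sum_congr rfl fun x _ => ?_
    rw [Finset.mul_sum]
  obtain ⟨T, hTA, hTc, Y, hYW, hY, hYm⟩ := avg hν hP1 hF (by
    rw [← h1, ← h2]
    exact hJw) hA hr
  refine ⟨J, hJ, T, hTA, hTc, Y, hYW, ?_, hYm⟩
  intro x hx c hc
  have h4 := hY x hx c hc
  have h5 := hap c (hTA hc) x (hYW hx)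
  rw [hP] at h4
  dsimp only at h4
  rw [div_le_div_iff₀ (by positivity) h5] at h4
  linarith

end stable

/-! ### The system of levels on the union of nodes and labels -/

section sys

variable {V X Ω Λ Hi ι : Type} [Fintype X] [Fintype Ω] [Fintype Λ]

/-- The graph of a level. -/
def gS (own : X → Ω → Prop) : SimpleGraph (X ⊕ Ω) where
  Adj a c := match a, c with
    | Sum.inl x, Sum.inr g => own x g
    | Sum.inr g, Sum.inl x => own x g
    | _, _ => False
  symm := by
    constructor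
    rintro (a | a) (c | c) h
    · exact h
    · exact h
    · exact h
    · exact h
  loopless := by
    constructor
    rintro (a | a) h
    · exact h
    · exact h

omit [Fintype X] [Fintype Ω] in
lemma gS_lr {own : X → Ω → Prop} {x : X} {g : Ω} :
    (gS own).Adj (Sum.inl x) (Sum.inr g) ↔ own x g := Iff.rfl

omit [Fintype X] [Fintype Ω] in
lemma gS_rl {own : X → Ω → Prop} {x : X} {g : Ω} :
    (gS own).Adj (Sum.inr g) (Sum.inl x) ↔ own x g := Iff.rfl

omit [Fintype X] [Fintype Ω] in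
lemma gS_ll {own : X → Ω → Prop} {x x' : X} :
    ¬ (gS own).Adj (Sum.inl x) (Sum.inl x') := fun h => h

omit [Fintype X] [Fintype Ω] in
lemma gS_rr {own : X → Ω → Prop} {g g' : Ω} :
    ¬ (gS own).Adj (Sum.inr g) (Sum.inr g') := fun h => h

/-- The weights of the labels on the union. -/
def qS (q : Ω → ℝ) : X ⊕ Ω → ℝ := Sum.elim (fun _ => 0) q

/-- The normalised node measure on `W`. -/
noncomputable def muS (ν : X → ℝ) (W : Finset X) : X ⊕ Ω → ℝ :=
  Sum.elim (fun x => if x ∈ W then ν x / ms ν W else 0) (fun _ => 0)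

/-- The nodes in the union. -/
noncomputable def WS (W : Finset X) : Finset (X ⊕ Ω) :=
  W.map ⟨Sum.inl, Sum.inl_injective⟩

omit [Fintype X] [Fintype Ω] in
lemma mem_WS {W : Finset X} {z : X ⊕ Ω} : z ∈ WS (Ω := Ω) W ↔ ∃ x ∈ W, z = Sum.inl x := by
  unfold WS
  rw [Finset.mem_map]
  constructor
  · rintro ⟨x, hx, h⟩
    exact ⟨x, hx, h.symm⟩
  · rintro ⟨x, hx, h⟩
    exact ⟨x, hx, h.symm⟩

omit [Fintype X] [Fintype Ω] in
lemma sum_WS {W : Finset X} (f : X ⊕ Ω → ℝ) : ∑ z ∈ WS (Ω := Ω) W, f z = ∑ x ∈ W, f (Sum.inl x) := by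
  unfold WS
  rw [Finset.sum_map]
  rfl

lemma aw_S {own : X → Ω → Prop} (q : Ω → ℝ) (x : X) :
    aw (gS own) (qS q) (Sum.inl x) = aO own q x := by
  unfold aw
  rw [wnb_eq_sum_ite, Fintype.sum_sum_type]
  have h1 : ∑ x' : X, (if (gS own).Adj (Sum.inl x) (Sum.inl x') then
      qS (X := X) q (Sum.inl x') else 0) = 0 :=
    Finset.sum_eq_zero fun x' _ => if_neg gS_ll
  rw [h1, zero_add]
  rfl

lemma Dw_S {own : X → Ω → Prop} (ν : X → ℝ) (q : Ω → ℝ) (W : Finset X) (g : Ω) :
    Dw (gS own) (WS W) (muS ν W) (qS q) (Sum.inr g) = dO own ν q W g / ms ν W := by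
  unfold Dw
  rw [wnb_eq_sum_ite, sum_WS]
  unfold dO
  rw [Finset.sum_div, ← Finset.sum_subset (Finset.subset_univ W)]
  · refine Finset.sum_congr rfl fun x hx => ?_
    by_cases h : own x g
    · rw [if_pos (gS_rl.2 h), if_pos h, aw_S]
      unfold muS zO
      simp only [Sum.elim_inl]
      rw [if_pos hx, if_pos hx]
      ring
    · rw [if_neg (fun h' => h (gS_rl.1 h')), if_neg h, zero_div]
  · intro x _ hx
    unfold zO
    rw [if_neg hx]
    simp

/-- The law of the mates. -/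
lemma mt_S {own : X → Ω → Prop} {ν : X → ℝ} {q : Ω → ℝ} {W : Finset X} (hW : 0 < ms ν W)
    (K : X ⊕ Ω → X ⊕ Ω → ℝ) (K' : X → X → ℝ) (hK : ∀ x x', K (Sum.inl x) (Sum.inl x') = K' x x') :
    ∑ x ∈ WS W, ∑ x' ∈ WS W, mt (gS own) (WS W) (muS ν W) (qS q) x x' * K x x' =
      lO own ν q W K' / ms ν W := by
  rw [sum_WS]
  have h0 : ∀ x ∈ W, ∑ x' ∈ WS (Ω := Ω) W,
      mt (gS own) (WS W) (muS ν W) (qS q) (Sum.inl x) x' * K (Sum.inl x) x' =
      ∑ x' ∈ W, ∑ g, q g / dO own ν q W g * ((if own x g then zO own ν q W x else 0) *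
        (if own x' g then zO own ν q W x' else 0) * K' x x') / ms ν W := by
    intro x hx
    rw [sum_WS]
    refine Finset.sum_congr rfl fun x' hx' => ?_
    unfold Pool.Agent.Lib.FGL.mt om
    rw [hK, aw_S, aw_S, Finset.sum_filter, Fintype.sum_sum_type]
    have h1 : ∑ y : X, (if (gS own).Adj (Sum.inl x) (Sum.inl y) ∧
        (gS own).Adj (Sum.inl x') (Sum.inl y) then
        qS (X := X) q (Sum.inl y) / Dw (gS own) (WS W) (muS ν W) (qS q) (Sum.inl y) else 0) = 0 :=
      Finset.sum_eq_zero fun y _ => if_neg fun h => gS_ll h.1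
    rw [h1, zero_add, Finset.sum_mul, Finset.sum_mul, Finset.sum_mul]
    refine Finset.sum_congr rfl fun g _ => ?_
    rw [Dw_S]
    by_cases ha : own x g
    · by_cases hb : own x' g
      · rw [if_pos ⟨gS_lr.2 ha, gS_lr.2 hb⟩, if_pos ha, if_pos hb]
        unfold zO muS qS
        simp only [Sum.elim_inl, Sum.elim_inr]
        rw [if_pos hx, if_pos hx, if_pos hx', if_pos hx']
        field_simp
      · rw [if_neg (fun h => hb (gS_lr.1 h.2)), if_neg hb]
        ring
    · rw [if_neg (fun h => ha (gS_lr.1 h.1)), if_neg ha]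
      ring
  rw [Finset.sum_congr rfl h0]
  unfold lO
  rw [Finset.sum_congr rfl fun x _ => Finset.sum_comm, Finset.sum_comm, Finset.sum_div]
  refine Finset.sum_congr rfl fun g _ => ?_
  simp only [← Finset.sum_div, ← Finset.mul_sum]
  congr 2
  have h3 : ∀ x ∈ W, ∑ x' ∈ W, (if own x g then zO own ν q W x else 0) *
        (if own x' g then zO own ν q W x' else 0) * K' x x' =
      ∑ x', (if own x g then zO own ν q W x else 0) *
        (if own x' g then zO own ν q W x' else 0) * K' x x' := by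
    intro x _
    refine Finset.sum_subset (Finset.subset_univ W) ?_
    intro x' _ hx'
    unfold zO
    rw [if_neg hx']
    simp
  rw [Finset.sum_congr rfl h3]
  refine Finset.sum_subset (Finset.subset_univ W) ?_
  intro x _ hx
  refine Finset.sum_eq_zero fun x' _ => ?_
  unfold zO
  rw [if_neg hx]
  simp

/-- The system of levels. -/
lemma ksys {G : SimpleGraph V} {vX : X → V} {vO : Ω → V} {hX : X → Hi} {hO : Ω → Hi}
    {P : ℕ → Hi → ι} {own : ℕ → X → Ω → Prop} {W Y : Finset X} {J : Finset V} {ν : X → ℝ}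
    {ρ b : ℕ → Ω → ℝ} {φ : ℕ → X → Λ → ℝ} {A : Finset ℕ} {F T H e0 ξ xi bb : ℝ} (hF : 1 ≤ F)
    (hS : UK G vX vO hX hO P own W ν ρ b φ A (2 * F) T H e0 ξ) (hJ : Stab G J) (hYW : Y ⊆ W)
    {D : Finset ℕ} (hD : D ⊆ A)
    (hY : ∀ x ∈ Y, ∀ c ∈ D, aO (own c) (ρ c) x ≤ 2 * F * aO (own c) (qJ vO (ρ c) J) x)
    (hb : 0 < bb) (hbY : bb ≤ ms ν Y) (hxi0 : 0 ≤ xi) (hxi : 2 * F * ξ ≤ xi * bb)
    {r : ℕ} {s : ℕ → ℕ} (hs : ∀ i < r, s i ∈ D) (hd : ∀ i j, i < j → j < r → s j < s i) {e1 : ℝ}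
    (hl : ∀ i j, i < j → j < r →
      2 * F * lO (own (s i)) ν (qJ vO (ρ (s i)) J) Y (kk (φ (s j))) ≤ e1 * ms ν Y) :
    KSys G (Sum.elim vX vO) (fun i => fun z => P (s i) (Sum.elim hX hO z))
      (fun i => gS (own (s i))) (WS Y) (muS ν Y) r J
      (fun i => qS (qJ vO (ρ (s i)) J))
      (fun i => Sum.elim (fun _ => 1) (fun g => b (s i) g / (2 * F)))
      (fun i => Sum.elim (fun x l => Real.sqrt (2 * F) * φ (s i) x l) (fun _ _ => 0))
      (2 * F * T) (2 * F * H) xi (2 * F * e0) e1 := by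
  have hF0 : 0 < F := by linarith
  have h2F : 0 < 2 * F := by linarith
  have hms : 0 < ms ν Y := lt_of_lt_of_le hb hbY
  have hsA : ∀ i < r, s i ∈ A := fun i hi => hD (hs i hi)
  have hqpos : ∀ i < r, ∀ x ∈ Y, 0 < aO (own (s i)) (qJ vO (ρ (s i)) J) x := by
    intro i hi x hx
    have h1 := hY x hx (s i) (hs i hi)
    have h2 := hS.ap (s i) (hsA i hi) x (hYW hx)
    by_contra h
    push Not at h
    have : 2 * F * aO (own (s i)) (qJ vO (ρ (s i)) J) x ≤ 0 :=
      mul_nonpos_of_nonneg_of_nonpos (by positivity) h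
    linarith
  have hqρ : ∀ i < r, ∀ y, qJ vO (ρ (s i)) J y ≠ 0 → ρ (s i) y ≠ 0 ∧ vO y ∈ J := by
    intro i hi y hy
    by_cases h : vO y ∈ J
    · refine ⟨fun h' => hy ?_, h⟩
      unfold qJ
      rw [if_pos h, h']
    · exfalso
      apply hy
      unfold qJ
      rw [if_neg h]
  have hqle : ∀ i < r, ∀ y, qJ vO (ρ (s i)) J y ≤ ρ (s i) y := fun i hi y =>
    qJ_le (hS.ρ0 (s i) (hsA i hi)) J y
  have hqnn : ∀ i < r, ∀ y, 0 ≤ qJ vO (ρ (s i)) J y := fun i hi y =>
    qJ_nonneg (hS.ρ0 (s i) (hsA i hi)) J y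
  have hale : ∀ i < r, ∀ x, aO (own (s i)) (qJ vO (ρ (s i)) J) x ≤ aO (own (s i)) (ρ (s i)) x :=
    fun i hi x => aO_mono (hqle i hi) x
  have hkk : ∀ c x x', kk (Sum.elim (fun x l => Real.sqrt (2 * F) * φ c x l)
      (fun (_ : Ω) (_ : Λ) => (0 : ℝ))) (Sum.inl x) (Sum.inl x') = 2 * F * kk (φ c) x x' := by
    intro c x x'
    unfold kk
    simp only [Sum.elim_inl]
    rw [Finset.mul_sum]
    refine Finset.sum_congr rfl fun l _ => ?_
    have : Real.sqrt (2 * F) * Real.sqrt (2 * F) = 2 * F := Real.mul_self_sqrt h2F.le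
    calc Real.sqrt (2 * F) * φ c x l * (Real.sqrt (2 * F) * φ c x' l) =
          (Real.sqrt (2 * F) * Real.sqrt (2 * F)) * (φ c x l * φ c x' l) := by ring
      _ = 2 * F * (φ c x l * φ c x' l) := by rw [this]
  -- thin vertices
  have hthin : ∀ i < r, ∀ (k : ι) (u : V),
      Thin (own (s i)) G vX (fun v => P (s i) (hX v)) ν (ρ (s i)) W ξ k u → ∀ t, 0 < t →
      ∑ v ∈ Y.filter (fun v => P (s i) (hX v) = k ∧ (vX v = u ∨ G.Adj (vX v) u) ∧
        aO (own (s i)) (qJ vO (ρ (s i)) J) v ≤ t), ν v / ms ν Y ≤ xi * t := by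
    intro i hi k u hT t ht
    have h1 := hT (2 * F * t) (by positivity)
    rw [← Finset.sum_div, div_le_iff₀ hms]
    have h2 : ∑ v ∈ Y.filter (fun v => P (s i) (hX v) = k ∧ (vX v = u ∨ G.Adj (vX v) u) ∧
        aO (own (s i)) (qJ vO (ρ (s i)) J) v ≤ t), ν v ≤
        ∑ v ∈ W.filter (fun v => P (s i) (hX v) = k ∧ (vX v = u ∨ G.Adj (vX v) u) ∧
          aO (own (s i)) (ρ (s i)) v ≤ 2 * F * t), ν v := by
      refine Finset.sum_le_sum_of_subset_of_nonneg ?_ fun v _ _ => hS.ν0 v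
      intro v hv
      rw [Finset.mem_filter] at hv ⊢
      refine ⟨hYW hv.1, hv.2.1, hv.2.2.1, ?_⟩
      exact (hY v hv.1 (s i) (hs i hi)).trans (mul_le_mul_of_nonneg_left hv.2.2.2 h2F.le)
    calc _ ≤ _ := h2
      _ ≤ ξ * (2 * F * t) := h1
      _ = (2 * F * ξ) * t := by ring
      _ ≤ (xi * bb) * t := mul_le_mul_of_nonneg_right hxi ht.le
      _ ≤ (xi * ms ν Y) * t := by gcongr
      _ = xi * t * ms ν Y := by ring
  constructor
  · -- ref
    intro i j hij hj x y hxy
    exact hS.ref (s j) (hsA j hj) (s i) (hsA i (hij.trans hj)) (hd i j hij hj) _ _ hxy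
  · -- inc
    intro i hi x y hxy
    rcases x with x | x <;> rcases y with y | y
    · exact absurd hxy gS_ll
    · exact hS.inc (s i) (hsA i hi) x y hxy
    · have h := hS.inc (s i) (hsA i hi) y x hxy
      exact ⟨h.1.symm, h.2.symm⟩
    · exact absurd hxy gS_rr
  · -- μ0
    rintro (x | x)
    · unfold muS
      simp only [Sum.elim_inl]
      split_ifs
      · exact div_nonneg (hS.ν0 x) hms.le
      · exact le_rfl
    · exact le_rfl
  · -- μW
    rintro (x | x) hx
    · unfold muS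
      simp only [Sum.elim_inl]
      rw [if_neg]
      exact fun h => hx (mem_WS.2 ⟨x, h, rfl⟩)
    · rfl
  · -- μ1
    rw [sum_WS]
    unfold muS
    simp only [Sum.elim_inl]
    rw [Finset.sum_congr rfl fun x hx => if_pos hx, ← Finset.sum_div]
    exact div_self hms.ne'
  · -- q0
    rintro i hi (y | y)
    · exact le_rfl
    · exact hqnn i hi y
  · -- q1
    intro i hi
    rw [Fintype.sum_sum_type]
    unfold qS
    simp only [Sum.elim_inl, Sum.elim_inr, Finset.sum_const_zero, zero_add]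
    exact (Finset.sum_le_sum fun y _ => hqle i hi y).trans (hS.ρ1 (s i) (hsA i hi))
  · -- qJ
    rintro i hi (y | y) hy
    · exact absurd rfl hy
    · exact (hqρ i hi y hy).2
  · exact hJ
  · -- apos
    intro i hi x hx
    obtain ⟨x', hx', rfl⟩ := mem_WS.1 hx
    rw [aw_S]
    exact hqpos i hi x' hx'
  · -- bpos
    rintro i hi (y | y) hy
    · exact one_pos
    · exact div_pos (hS.bp (s i) (hsA i hi) y (hqρ i hi y hy).1) h2F
  · -- sc1
    rintro i hi x hx (g | g) hg hqg
    · exact absurd rfl hqg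
    · obtain ⟨x', hx', rfl⟩ := mem_WS.1 hx
      rw [aw_S]
      simp only [Sum.elim_inr]
      rw [div_le_iff₀ h2F]
      have h1 := hS.sc1 (s i) (hsA i hi) x' (hYW hx') g hg (hqρ i hi g hqg).1
      have h2 := hY x' hx' (s i) (hs i hi)
      linarith
  · -- sc2
    rintro i hi x hx (g | g) hg hqg
    · exact absurd rfl hqg
    · obtain ⟨x', hx', rfl⟩ := mem_WS.1 hx
      rw [aw_S]
      simp only [Sum.elim_inr]
      have h1 := hS.sc2 (s i) (hsA i hi) x' (hYW hx') g hg (hqρ i hi g hqg).1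
      have h2 := hale i hi x'
      have h3 : 2 * F * T * (b (s i) g / (2 * F)) = T * b (s i) g := by field_simp
      rw [h3]
      linarith
  · -- thin
    intro i hi z hz t ht
    have key : ∀ (k : ι) (u : V),
        Thin (own (s i)) G vX (fun v => P (s i) (hX v)) ν (ρ (s i)) W ξ k u →
        P (s i) (Sum.elim hX hO z) = k → Sum.elim vX vO z = u →
        ∑ v ∈ (WS (Ω := Ω) Y).filter (fun v => Cf G (Sum.elim vX vO)
          (fun z => P (s i) (Sum.elim hX hO z)) v z ∧
          aw (gS (own (s i))) (qS (qJ vO (ρ (s i)) J)) v ≤ t), muS ν Y v ≤ xi * t := by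
      intro k u hT hk hu
      refine le_trans (le_of_eq ?_) (hthin i hi k u hT t ht)
      rw [Finset.sum_filter, sum_WS, Finset.sum_filter]
      refine Finset.sum_congr rfl fun v hv => ?_
      rw [aw_S]
      unfold Cf muS
      simp only [Sum.elim_inl]
      rw [hk, hu, if_pos hv]
      by_cases h1 : P (s i) (hX v) = k
      · by_cases h2 : vX v = u ∨ G.Adj (vX v) u
        · by_cases h3 : aO (own (s i)) (qJ vO (ρ (s i)) J) v ≤ t
          · rw [if_pos ⟨⟨h1, h2⟩, h3⟩, if_pos ⟨h1, h2, h3⟩]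
          · rw [if_neg fun h => h3 h.2, if_neg fun h => h3 h.2.2]
        · rw [if_neg fun h => h2 h.1.2, if_neg fun h => h2 h.2.1]
      · rw [if_neg fun h => h1 h.1.1, if_neg fun h => h1 h.1]
    rcases hz with hz | ⟨j, hj, hz⟩
    · obtain ⟨z', hz', rfl⟩ := mem_WS.1 hz
      exact key _ _ (hS.thX (s i) (hsA i hi) z' (hYW hz')) rfl rfl
    · rcases z with z | z
      · exact absurd rfl hz
      · exact key _ _ (hS.thO (s i) (hsA i hi) (s j) (hsA j (hj.trans hi)) (hd j i hj hi) z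
          (hqρ j (hj.trans hi) z hz).1) rfl rfl
  · -- own
    intro i hi x hx z hz hxz
    obtain ⟨x', hx', rfl⟩ := mem_WS.1 hx
    rw [aw_S]
    have h0 : ∑ g : X ⊕ Ω, (if (gS (own (s i))).Adj (Sum.inl x') g ∧
        Sum.elim vX vO g = Sum.elim vX vO z then qS (qJ vO (ρ (s i)) J) g else 0) = 0 := by
      refine Finset.sum_eq_zero fun g _ => ?_
      rcases g with g | g
      · rw [if_neg fun h => gS_ll h.1]
      · by_cases h1 : (gS (own (s i))).Adj (Sum.inl x') (Sum.inr g) ∧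
            Sum.elim vX vO (Sum.inr g) = Sum.elim vX vO z
        · rw [if_pos h1]
          change qJ vO (ρ (s i)) J g = 0
          by_contra h2
          have h3 := (hqρ i hi g h2).1
          have h4 := (hS.inc (s i) (hsA i hi) x' g h1.1).2
          rcases hz with hz | ⟨j, hj, hz⟩
          · obtain ⟨z', hz', rfl⟩ := mem_WS.1 hz
            exact hS.neX (s i) (hsA i hi) g h3 z' (hYW hz') (h4.symm.trans hxz) h1.2
          · rcases z with z | z
            · exact absurd rfl hz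
            · exact hS.neO (s i) (hsA i hi) g h3 (s j) (hsA j (hj.trans hi)) (hd j i hj hi) z
                (hqρ j (hj.trans hi) z hz).1 (h4.symm.trans hxz) h1.2
        · rw [if_neg h1]
    rw [h0]
    exact mul_nonneg hxi0 (hqpos i hi x' hx').le
  · -- sh
    intro i hi x hx u hu hxu hau
    obtain ⟨x', hx', rfl⟩ := mem_WS.1 hx
    obtain ⟨u', hu', rfl⟩ := mem_WS.1 hu
    rw [aw_S, aw_S] at hau
    rw [aw_S, hkk, Fintype.sum_sum_type]
    have h0 : ∑ g : X, (if (gS (own (s i))).Adj (Sum.inl x') (Sum.inl g) ∧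
        G.Adj (Sum.elim vX vO (Sum.inl g)) (Sum.elim vX vO (Sum.inl u')) then
        qS (X := X) (qJ vO (ρ (s i)) J) (Sum.inl g) else 0) = 0 :=
      Finset.sum_eq_zero fun g _ => if_neg fun h => gS_ll h.1
    rw [h0, zero_add]
    have h1 : ∑ g : Ω, (if (gS (own (s i))).Adj (Sum.inl x') (Sum.inr g) ∧
        G.Adj (Sum.elim vX vO (Sum.inr g)) (Sum.elim vX vO (Sum.inl u')) then
        qS (X := X) (qJ vO (ρ (s i)) J) (Sum.inr g) else 0) ≤
        ∑ g, (if own (s i) x' g ∧ G.Adj (vO g) (vX u') then ρ (s i) g else 0) := by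
      refine Finset.sum_le_sum fun g _ => ?_
      by_cases h2 : own (s i) x' g ∧ G.Adj (vO g) (vX u')
      · rw [if_pos h2, if_pos ⟨gS_lr.2 h2.1, h2.2⟩]
        exact hqle i hi g
      · rw [if_neg h2, if_neg fun h => h2 ⟨gS_lr.1 h.1, h.2⟩]
    refine h1.trans ?_
    have h2 : aO (own (s i)) (ρ (s i)) u' ≤ 2 * F * aO (own (s i)) (ρ (s i)) x' := by
      calc aO (own (s i)) (ρ (s i)) u' ≤ 2 * F * aO (own (s i)) (qJ vO (ρ (s i)) J) u' :=
            hY u' hu' (s i) (hs i hi)
        _ ≤ 2 * F * aO (own (s i)) (qJ vO (ρ (s i)) J) x' :=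
            mul_le_mul_of_nonneg_left hau h2F.le
        _ ≤ 2 * F * aO (own (s i)) (ρ (s i)) x' :=
            mul_le_mul_of_nonneg_left (hale i hi x') h2F.le
    have h3 := hS.sh (s i) (hsA i hi) x' (hYW hx') u' (hYW hu') hxu h2
    have h4 := hY x' hx' (s i) (hs i hi)
    have h5 : 0 ≤ e0 + kk (φ (s i)) x' u' := by
      by_contra h6
      push Not at h6
      have h7 : 0 ≤ ∑ g, (if own (s i) x' g ∧ G.Adj (vO g) (vX u') then ρ (s i) g else 0) :=
        Finset.sum_nonneg fun g _ => by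
          split_ifs
          · exact hS.ρ0 (s i) (hsA i hi) g
          · exact le_rfl
      have h8 := mul_neg_of_neg_of_pos h6 (hS.ap (s i) (hsA i hi) x' (hYW hx'))
      linarith
    calc ∑ g, (if own (s i) x' g ∧ G.Adj (vO g) (vX u') then ρ (s i) g else 0)
        ≤ (e0 + kk (φ (s i)) x' u') * aO (own (s i)) (ρ (s i)) x' := h3
      _ ≤ (e0 + kk (φ (s i)) x' u') * (2 * F * aO (own (s i)) (qJ vO (ρ (s i)) J) x') :=
          mul_le_mul_of_nonneg_left h4 h5
      _ = (2 * F * e0 + 2 * F * kk (φ (s i)) x' u') * aO (own (s i)) (qJ vO (ρ (s i)) J) x' := by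
          ring
  · -- φ0
    rintro i hi (x | x) l
    · exact mul_nonneg (Real.sqrt_nonneg _) (hS.φ0 (s i) (hsA i hi) x l)
    · exact le_rfl
  · -- φH
    intro i hi x hx
    obtain ⟨x', hx', rfl⟩ := mem_WS.1 hx
    simp only [Sum.elim_inl]
    have h1 := hS.φH (s i) (hsA i hi) x' (hYW hx')
    have h2 : ∑ l, (Real.sqrt (2 * F) * φ (s i) x' l) ^ 2 = 2 * F * ∑ l, φ (s i) x' l ^ 2 := by
      rw [Finset.mul_sum]
      refine Finset.sum_congr rfl fun l _ => ?_
      rw [mul_pow, Real.sq_sqrt h2F.le]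
    rw [h2]
    exact mul_le_mul_of_nonneg_left h1 h2F.le
  · -- lam
    intro i j hij hj
    rw [mt_S hms _ (fun x x' => 2 * F * kk (φ (s j)) x x') (fun x x' => hkk (s j) x x'), lO_smul,
      div_le_iff₀ hms]
    exact hl i j hij hj

end sys

end KUJ

open KUJ in
/-- Pools of unlinked stages with labels. -/
theorem stKUJ : StKUJ := by
  intro M h m F hF
  have hF0 : 0 < F := by linarith
  have h2F : 0 < 2 * F := by linarith
  obtain ⟨r, e0, he0, hL⟩ := stKThm M h
  refine ⟨e0 / (2 * F), by positivity, ?_⟩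
  intro T H hT hH
  obtain ⟨e1, xi, he1, hxi, hL⟩ := hL (2 * F * T) (2 * F * H) (by positivity) (by positivity)
  -- the kernels are divided by `H`
  set e : ℝ := min (e1 / (2 * F * H)) 1 with he
  have he0' : 0 < e := lt_min (by positivity) one_pos
  obtain ⟨RJ, hJe⟩ := stJen m e he0' (min_le_right _ _)
  obtain ⟨r', hR⟩ := stRam 2 2 (r + RJ + 1) (by norm_num)
  set R : ℕ := ⌈4 * F * r'⌉₊ + 1 with hRdef
  set th : ℝ := 1 / (4 * F * 2 ^ R) with hth
  have hth0 : 0 < th := by positivity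
  refine ⟨R, th, e ^ m / 2, hth0, by positivity, ?_⟩
  intro κ hκ
  set b0 : ℝ := th * κ with hb
  have hb0 : 0 < b0 := mul_pos hth0 hκ
  refine ⟨xi * b0 / (2 * F), by positivity, ?_⟩
  intro V X Ω Λ Hi ι _ _ _ _ G vX vO hX hO P own W ν ρ b φ A0 hG hA0 hS0 hκW hU0
  set ξ : ℝ := xi * b0 / (2 * F) with hξdef
  have hξ0 : 0 ≤ ξ := by positivity
  have hξ2 : 2 * F * ξ ≤ xi * b0 := by
    rw [hξdef]
    apply le_of_eq
    field_simp
  -- exactly `R` stages
  obtain ⟨A, hAA, hAc⟩ := Finset.exists_subset_card_eq hA0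
  have hS : UK G vX vO hX hO P own W ν ρ b φ A (2 * F) T H (e0 / (2 * F)) ξ :=
    { ref := fun c hc s hs => hS0.ref c (hAA hc) s (hAA hs)
      inc := fun c hc => hS0.inc c (hAA hc)
      ν0 := hS0.ν0
      ρ0 := fun c hc => hS0.ρ0 c (hAA hc)
      ρ1 := fun c hc => hS0.ρ1 c (hAA hc)
      ap := fun c hc => hS0.ap c (hAA hc)
      bp := fun c hc => hS0.bp c (hAA hc)
      sc1 := fun c hc => hS0.sc1 c (hAA hc)
      sc2 := fun c hc => hS0.sc2 c (hAA hc)
      thX := fun c hc => hS0.thX c (hAA hc)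
      thO := fun c hc s hs => hS0.thO c (hAA hc) s (hAA hs)
      neX := fun c hc => hS0.neX c (hAA hc)
      neO := fun c hc g hg s hs => hS0.neO c (hAA hc) g hg s (hAA hs)
      sh := fun c hc => hS0.sh c (hAA hc)
      φ0 := fun c hc => hS0.φ0 c (hAA hc)
      φH := fun c hc => hS0.φH c (hAA hc) }
  have hR4 : 4 * F * r' ≤ A.card := by
    rw [hAc, hRdef]
    push_cast
    have := Nat.le_ceil (4 * F * (r' : ℝ))
    linarith
  obtain ⟨J, hJ, D, hDA, hDc, Y, hYW, hY, hYms⟩ :=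
    exists_JO (vO := vO) hF hG hS.ν0 hS.ρ0 hS.ap (by omega) hR4
  have hthY : th * ms ν W ≤ ms ν Y := by
    rw [hth, one_div, inv_mul_le_iff₀ (by positivity), ← hAc]
    exact hYms
  have hbY : b0 ≤ ms ν Y := (mul_le_mul_of_nonneg_left hκW hth0.le).trans hthY
  have hms : 0 < ms ν Y := lt_of_lt_of_le hb0 hbY
  -- the kernels
  have hkk0 : ∀ c ∈ A, ∀ x x', 0 ≤ kk (φ c) x x' := fun c hc x x' =>
    Finset.sum_nonneg fun l _ => mul_nonneg (hS.φ0 c hc x l) (hS.φ0 c hc x' l)
  have hkkH : ∀ c ∈ A, ∀ x ∈ W, ∀ x' ∈ W, kk (φ c) x x' ≤ H := by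
    intro c hc x hx x' hx'
    have h1 := hS.φH c hc x hx
    have h2 := hS.φH c hc x' hx'
    unfold kk
    have h3 : ∑ g, φ c x g * φ c x' g ≤ ∑ g, (φ c x g ^ 2 + φ c x' g ^ 2) / 2 := by
      refine Finset.sum_le_sum fun g _ => ?_
      nlinarith [sq_nonneg (φ c x g - φ c x' g)]
    rw [← Finset.sum_div, Finset.sum_add_distrib] at h3
    linarith
  set lin : ℕ → ℕ → Prop := fun c s =>
    e * ms ν Y ≤ lO (own s) ν (qJ vO (ρ s) J) Y (kk (φ c)) / H with hlin
  obtain ⟨B, hBD, hBc, i0, hi0⟩ := hR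
    (fun S => if ∃ c s, c < s ∧ S = {c, s} ∧ lin c s then 1 else 0) D
    (fun S => by split_ifs <;> norm_num) (by omega)
  by_cases hi : i0 = 1
  · -- all pairs are linked
    subst hi
    have hlk : ∀ c ∈ B, ∀ s ∈ B, c < s → lin c s := by
      intro c hc s hs hcs
      have h1 := hi0 {c, s} (by
        intro z hz
        rw [Finset.mem_insert, Finset.mem_singleton] at hz
        rcases hz with rfl | rfl
        · exact hc
        · exact hs) (Finset.card_pair hcs.ne)
      have h2 : ∃ c' s', c' < s' ∧ ({c, s} : Finset ℕ) = {c', s'} ∧ lin c' s' := by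
        by_contra h3
        have h4 : (if ∃ c' s', c' < s' ∧ ({c, s} : Finset ℕ) = {c', s'} ∧ lin c' s' then 1
          else 0) = 1 := h1
        rw [if_neg h3] at h4
        exact absurd h4 (by norm_num)
      obtain ⟨c', s', hcs', he, hl⟩ := h2
      have e1' : c ∈ ({c', s'} : Finset ℕ) := by rw [← he]; simp
      have e2' : s ∈ ({c', s'} : Finset ℕ) := by rw [← he]; simp
      rw [Finset.mem_insert, Finset.mem_singleton] at e1' e2'
      rcases e1' with rfl | rfl <;> rcases e2' with rfl | rfl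
      · omega
      · exact hl
      · omega
      · omega
    have hBne : B.Nonempty := by
      rw [← Finset.card_pos, hBc]
      omega
    set s := B.max' hBne with hs
    have hsB : s ∈ B := B.max'_mem hBne
    have hsD : s ∈ D := hBD hsB
    have hsA : s ∈ A := hDA hsD
    have hq0 := qJ_nonneg (vO := vO) (hS.ρ0 s hsA) J
    have hpY : ∀ x ∈ Y, 0 < aO (own s) (qJ vO (ρ s) J) x := by
      intro x hx
      have h1 := hY x hx s hsD
      have h2 := hS.ap s hsA x (hYW hx)
      by_contra h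
      push Not at h
      have : 2 * F * aO (own s) (qJ vO (ρ s) J) x ≤ 0 :=
        mul_nonpos_of_nonneg_of_nonpos (by positivity) h
      linarith
    have hsum := sum_pw hS.ν0 hq0 hpY
    -- the truncated kernels
    set f : ℕ → Ω × X × X → ℝ := fun c t => min (kk (φ c) t.2.1 t.2.2 / H) 1 with hf
    have hpwf : ∀ t, ∀ c ∈ A, pw (own s) ν (qJ vO (ρ s) J) Y t * f c t =
        pw (own s) ν (qJ vO (ρ s) J) Y t * (kk (φ c) t.2.1 t.2.2 / H) := by
      intro t c hc
      by_cases h1 : t.2.1 ∈ Y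
      · by_cases h2 : t.2.2 ∈ Y
        · rw [hf]
          dsimp only
          rw [min_eq_left]
          rw [div_le_one (by linarith)]
          exact hkkH c hc _ (hYW h1) _ (hYW h2)
        · have : pw (own s) ν (qJ vO (ρ s) J) Y t = 0 := by
            unfold pw zO
            rw [if_neg h2]
            simp
          rw [this, zero_mul, zero_mul]
      · have : pw (own s) ν (qJ vO (ρ s) J) Y t = 0 := by
          unfold pw zO
          rw [if_neg h1]
          simp
        rw [this, zero_mul, zero_mul]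
    have hpwne : ∀ t, pw (own s) ν (qJ vO (ρ s) J) Y t ≠ 0 → t.2.1 ∈ W ∧ t.2.2 ∈ W := by
      intro t ht
      constructor
      · by_contra h1
        apply ht
        unfold pw zO
        rw [if_neg fun h => h1 (hYW h)]
        simp
      · by_contra h1
        apply ht
        have h2 : zO (own s) ν (qJ vO (ρ s) J) Y t.2.2 = 0 := if_neg fun h => h1 (hYW h)
        unfold pw
        rw [h2]
        simp
    obtain ⟨S, hSB, hSc, hSp⟩ := hJe (Ω × X × X) (pw (own s) ν (qJ vO (ρ s) J) Y)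
      f (B.erase s)
      (fun t => pw_nonneg hS.ν0 hq0 _ t)
      (fun c hc t => by
        have hcA : c ∈ A := hDA (hBD (Finset.mem_of_mem_erase hc))
        exact ⟨le_min (div_nonneg (hkk0 c hcA _ _) (by linarith)) zero_le_one,
          min_le_right _ _⟩)
      (by rw [hsum]; exact hms)
      (by rw [Finset.card_erase_of_mem hsB, hBc]; omega)
      (fun c hc => by
        rw [hsum]
        have hcB := Finset.mem_of_mem_erase hc
        have hcA : c ∈ A := hDA (hBD hcB)
        have hcs : c < s := lt_of_le_of_ne (B.le_max' c hcB) (Finset.ne_of_mem_erase hc)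
        have h1 : e * ms ν Y ≤ lO (own s) ν (qJ vO (ρ s) J) Y (kk (φ c)) / H :=
          hlk c hcB s hsB hcs
        rw [lO_eq, Finset.sum_div] at h1
        refine h1.trans (le_of_eq ?_)
        refine Finset.sum_congr rfl fun t _ => ?_
        rw [hpwf t c hcA]
        ring)
    have hSA : S ⊆ A := fun c hc => hDA (hBD (Finset.mem_of_mem_erase (hSB hc)))
    have h1 := hU0 s (hAA hsA) S (hSA.trans hAA) (fun c hc =>
      lt_of_le_of_ne (B.le_max' c (Finset.mem_of_mem_erase (hSB hc)))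
        (Finset.ne_of_mem_erase (hSB hc))) hSc Y hYW hthY (qJ vO (ρ s) J) hq0
      (qJ_le (hS.ρ0 s hsA) J) (fun x hx => by
        rw [one_div, inv_mul_le_iff₀ (by positivity)]
        exact hY x hx s hsD)
    have h2 : ∑ t, pw (own s) ν (qJ vO (ρ s) J) Y t * ∏ c ∈ S, f c t ≤
        lO (own s) ν (qJ vO (ρ s) J) Y (fun x x' => ∏ c ∈ S, kk (φ c) x x') := by
      rw [lO_eq]
      refine Finset.sum_le_sum fun t _ => ?_
      refine mul_le_mul_of_nonneg_left ?_ (pw_nonneg hS.ν0 hq0 _ t)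
      refine Finset.prod_le_prod (fun c hc => ?_) (fun c hc => ?_)
      · exact le_min (div_nonneg (hkk0 c (hSA hc) _ _) (by linarith)) zero_le_one
      · refine (min_le_left _ _).trans ?_
        exact div_le_self (hkk0 c (hSA hc) _ _) hH
    rw [hsum] at hSp
    linarith
  · -- no pair is linked
    have hlk : ∀ c ∈ B, ∀ s ∈ B, c < s → ¬ lin c s := by
      intro c hc s hs hcs hl
      have h1 := hi0 {c, s} (by
        intro z hz
        rw [Finset.mem_insert, Finset.mem_singleton] at hz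
        rcases hz with rfl | rfl
        · exact hc
        · exact hs) (Finset.card_pair hcs.ne)
      have h4 : (if ∃ c' s', c' < s' ∧ ({c, s} : Finset ℕ) = {c', s'} ∧ lin c' s' then 1
          else 0) = i0 := h1
      rw [if_pos ⟨c, s, hcs, rfl, hl⟩] at h4
      exact hi h4.symm
    -- the levels
    set s : ℕ → ℕ := fun i => if hi : i < r + RJ + 1 then
      B.orderEmbOfFin hBc ⟨r + RJ - i, by omega⟩ else 0 with hsdef
    have hsB : ∀ i < r, s i ∈ B := by
      intro i hi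
      rw [hsdef]
      dsimp only
      rw [dif_pos (by omega)]
      exact B.orderEmbOfFin_mem hBc _
    have hdec : ∀ i j, i < j → j < r → s j < s i := by
      intro i j hij hj
      rw [hsdef]
      dsimp only
      rw [dif_pos (by omega), dif_pos (by omega)]
      apply (B.orderEmbOfFin hBc).strictMono
      rw [Fin.mk_lt_mk]
      omega
    have hsys := ksys (e1 := e1) hF hS hJ hYW hDA hY hb0 hbY hxi.le hξ2
      (fun i hi => hBD (hsB i hi)) hdec
      (fun i j hij hj => by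
        have h1 : ¬ (e * ms ν Y ≤ lO (own (s i)) ν (qJ vO (ρ (s i)) J) Y (kk (φ (s j))) / H) :=
          hlk (s j) (hsB j hj) (s i) (hsB i (by omega)) (hdec i j hij hj)
        rw [not_le, div_lt_iff₀ (by linarith)] at h1
        have h2 : e ≤ e1 / (2 * F * H) := min_le_left _ _
        calc 2 * F * lO (own (s i)) ν (qJ vO (ρ (s i)) J) Y (kk (φ (s j)))
            ≤ 2 * F * (e * ms ν Y * H) := mul_le_mul_of_nonneg_left h1.le h2F.le
          _ ≤ 2 * F * (e1 / (2 * F * H) * ms ν Y * H) := by gcongr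
          _ = e1 * ms ν Y := by field_simp)
    have h2 : 2 * F * (e0 / (2 * F)) = e0 := by field_simp
    rw [h2] at hsys
    exact hL V (X ⊕ Ω) ι Λ G _ _ _ (WS Y) (muS ν Y) J _ _ _ hsys

end Pool.Agent.Lib.FGK
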